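import Mathlib
import Pool.Agent.H17.ExactD

/-!
# Rigidity for `gap(G_{≥d})`: basic estimates for `d ≥ 7`

We reuse the definitions `W`, `nb`, `Q`, `K`, `Kc`, `Vp`, `sp`, `QB`, `HG`, `cl` of
`Pool.Agent.H17.ExactC` and `ExactD`; the standing assumption is now `7 ≤ d`.

* `W y = (d + 1)² / deg y`, `Q f = ∑ W y (nb f y)² - d ∑ deg x f x² ≥ 0`;
* `K x = ∑_{y ~ x} (W y - d)` (diagonal), `Kc x x' = ∑_{y ~ x, x'} W y` (off-diagonal);
* `Vp`: the small vertices (degree at most `d + 1`), `sp x`: number of small neighbours;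
* `HG`: the graph of collinear small vertices.
-/

namespace Pool.Agent.H2.RG

open Finset Classical Pool.Agent.H17 Pool.Agent.H17.Exact

set_option linter.unusedSectionVars false

variable {V : Type} [Fintype V]

/-- standing assumptions -/
structure Cx (G : SimpleGraph V) (d : ℕ) : Prop where
  hd : 7 ≤ d
  hdeg : ∀ v, d ≤ G.degree v
  hQ : ∀ f : V → ℝ, 0 ≤ Q G d f

variable {G : SimpleGraph V} {d : ℕ}

lemma mem_nbr {x y : V} : x ∈ G.neighborFinset y ↔ G.Adj y x := by simp

namespace Cx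

variable (c : Cx G d)

include c

lemma dR : (7 : ℝ) ≤ d := by exact_mod_cast c.hd

lemma dpos : (0 : ℝ) < d := by linarith [c.dR]

lemma degR (v : V) : (d : ℝ) ≤ G.degree v := by exact_mod_cast c.hdeg v

lemma degpos (v : V) : (0 : ℝ) < G.degree v := lt_of_lt_of_le c.dpos (c.degR v)

lemma W_pos (y : V) : 0 < W G d y := by
  have := c.degpos y
  rw [W]; positivity

lemma W_le (y : V) : W G d y ≤ d + 2 + 1 / d := by
  have h1 := c.degR y
  have h2 := c.dpos
  have h3 : W G d y ≤ ((d : ℝ) + 1) ^ 2 / d := div_le_div_of_nonneg_left (by positivity) h2 h1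
  have h4 : ((d : ℝ) + 1) ^ 2 / d = d + 2 + 1 / d := by field_simp; ring
  linarith

lemma W_le_of_big {y : V} (h : d + 2 ≤ G.degree y) : W G d y ≤ d + 1 / (d + 2) := by
  have h1 : ((d : ℝ) + 2) ≤ G.degree y := by exact_mod_cast h
  have h2 := c.dpos
  have h3 : W G d y ≤ ((d : ℝ) + 1) ^ 2 / (d + 2) :=
    div_le_div_of_nonneg_left (by positivity) (by linarith) h1
  have h4 : ((d : ℝ) + 1) ^ 2 / (d + 2) = d + 1 / (d + 2) := by field_simp; ring
  linarith

lemma W_le_of_big3 {y : V} (h : d + 3 ≤ G.degree y) :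
    W G d y ≤ d - (d - 1) / (d + 3) := by
  have h1 : ((d : ℝ) + 3) ≤ G.degree y := by exact_mod_cast h
  have h2 := c.dR
  have h3 : W G d y ≤ ((d : ℝ) + 1) ^ 2 / (d + 3) :=
    div_le_div_of_nonneg_left (by positivity) (by linarith) h1
  have h4 : ((d : ℝ) + 1) ^ 2 / (d + 3) = d - (d - 1) / (d + 3) := by
    field_simp
    ring
  linarith

lemma W_ge_of_le {y : V} (h : G.degree y ≤ d + 2) : (d : ℝ) + 1 / (d + 2) ≤ W G d y := by
  have h1 : (G.degree y : ℝ) ≤ (d : ℝ) + 2 := by exact_mod_cast h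
  have h2 := c.degpos y
  have h3 : ((d : ℝ) + 1) ^ 2 / (d + 2) ≤ W G d y :=
    div_le_div_of_nonneg_left (by positivity) h2 h1
  have h5 := c.dpos
  have h4 : ((d : ℝ) + 1) ^ 2 / (d + 2) = d + 1 / (d + 2) := by field_simp; ring
  linarith

lemma le_W_of_small {y : V} (h : y ∈ Vp G d) : (d : ℝ) + 1 ≤ W G d y := by
  rw [mem_Vp] at h
  have h1 : (G.degree y : ℝ) ≤ d + 1 := by exact_mod_cast h
  have h2 := c.degpos y
  rw [W, le_div_iff₀ h2]
  nlinarith [c.dpos]

lemma exists_other {y : V} (x : V) : ∃ x', G.Adj y x' ∧ x' ≠ x := by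
  have h1 : 0 < (G.neighborFinset y \ {x}).card := by
    have h2 := le_card_sdiff {x} (G.neighborFinset y)
    rw [card_singleton, SimpleGraph.card_neighborFinset_eq_degree] at h2
    have h3 := c.hdeg y
    have h4 := c.hd
    omega
  obtain ⟨x', hx'⟩ := card_pos.1 h1
  rw [mem_sdiff, mem_nbr, mem_singleton] at hx'
  exact ⟨x', hx'⟩

lemma Q_nonneg (f : V → ℝ) : 0 ≤ Q G d f := c.hQ f

lemma W_le_Kc {x x' y : V} (hx : G.Adj y x) (hx' : G.Adj y x') : W G d y ≤ Kc G d x x' := by
  rw [Kc]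
  exact single_le_sum (f := fun y => W G d y) (fun i _ => (c.W_pos i).le)
    (mem_inter.2 ⟨mem_nbr.2 hx.symm, mem_nbr.2 hx'.symm⟩)

lemma Kc_nonneg (x x' : V) : 0 ≤ Kc G d x x' := sum_nonneg fun y _ => (c.W_pos y).le

lemma Kc_sq_le {x x' : V} (h : x ≠ x') : Kc G d x x' ^ 2 ≤ K G d x * K G d x' := by
  have h1 : discrim (K G d x') (2 * Kc G d x x') (K G d x) ≤ 0 := by
    apply discrim_le_zero
    intro t
    have h2 := c.hQ ((1 : ℝ) • Pi.single x 1 + t • Pi.single x' 1)
    rw [Q_two h] at h2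
    linarith
  rw [discrim] at h1
  linarith

lemma K_nonneg (x : V) : 0 ≤ K G d x := by
  rw [← Q_single]
  exact c.hQ _

lemma K_pos (x : V) : 0 < K G d x := by
  rcases (c.K_nonneg x).lt_or_eq with h | h
  · exact h
  · exfalso
    obtain ⟨y, hxy, _⟩ := c.exists_other (y := x) x
    obtain ⟨x', hyx', hne⟩ := c.exists_other (y := y) x
    have h1 := c.Kc_sq_le (Ne.symm hne)
    rw [← h, zero_mul] at h1
    have h2 := c.W_le_Kc hxy.symm hyx'
    have h3 := c.W_pos y
    nlinarith

/-- the pair inequality -/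
lemma W_sq_le {x x' y : V} (h : x ≠ x') (hx : G.Adj y x) (hx' : G.Adj y x') :
    W G d y ^ 2 ≤ K G d x * K G d x' := by
  have h1 := c.Kc_sq_le h
  have h2 := c.W_le_Kc hx hx'
  have h3 := c.W_pos y
  nlinarith

/-- at most one neighbour `y` of `x` has `K y < W x` -/
lemma poor_unique {x y y' : V} (hy : G.Adj x y) (hy' : G.Adj x y')
    (h : K G d y < W G d x) (h' : K G d y' < W G d x) : y = y' := by
  by_contra hne
  have h1 := c.W_sq_le hne hy hy'
  have h2 := c.K_pos y
  have h3 := c.K_pos y'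
  have h4 := c.W_pos x
  nlinarith

lemma K_le_deg (x : V) : K G d x ≤ G.degree x * (2 + 1 / d) := by
  calc K G d x ≤ ∑ y ∈ G.neighborFinset x, (2 + 1 / (d : ℝ)) :=
        sum_le_sum fun y _ => by linarith [c.W_le y]
    _ = G.degree x * (2 + 1 / d) := by
        rw [sum_const, SimpleGraph.card_neighborFinset_eq_degree, nsmul_eq_mul]

lemma not_mem_Vp {x : V} (h : x ∉ Vp G d) : d + 2 ≤ G.degree x := by
  rw [mem_Vp] at h; omega

lemma sp_le_deg (x : V) : sp G d x ≤ G.degree x := by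
  rw [sp, ← SimpleGraph.card_neighborFinset_eq_degree]
  exact card_le_card inter_subset_left

lemma K_le (x : V) : K G d x ≤ (2 + 1 / d) * sp G d x + (G.degree x - sp G d x) / (d + 2) := by
  have h0 : (G.neighborFinset x \ Vp G d).card + sp G d x = G.degree x := by
    rw [sp, card_sdiff_add_card_inter, SimpleGraph.card_neighborFinset_eq_degree]
  have h1 : K G d x = ∑ y ∈ G.neighborFinset x ∩ Vp G d, (W G d y - d) +
      ∑ y ∈ G.neighborFinset x \ Vp G d, (W G d y - d) := by
    rw [K, ← sum_inter_add_sum_sdiff]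
  have h2 : ∑ y ∈ G.neighborFinset x ∩ Vp G d, (W G d y - d) ≤ (2 + 1 / d) * sp G d x := by
    calc _ ≤ ∑ y ∈ G.neighborFinset x ∩ Vp G d, (2 + 1 / (d : ℝ)) :=
          sum_le_sum fun y _ => by linarith [c.W_le y]
      _ = (2 + 1 / d) * sp G d x := by
          rw [sum_const, nsmul_eq_mul, mul_comm, sp]
  have h3 : ∑ y ∈ G.neighborFinset x \ Vp G d, (W G d y - d) ≤
      (G.degree x - sp G d x) / (d + 2) := by
    calc _ ≤ ∑ y ∈ G.neighborFinset x \ Vp G d, (1 / ((d : ℝ) + 2)) := by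
          refine sum_le_sum fun y hy => ?_
          linarith [c.W_le_of_big (c.not_mem_Vp (mem_sdiff.1 hy).2)]
      _ = (G.degree x - sp G d x) / (d + 2) := by
          rw [sum_const, nsmul_eq_mul, ← h0]
          push_cast
          ring
  linarith

/-- `cn ≤ 1` for small vertices -/
lemma common_unique {x x' y y' : V} (hne : x ≠ x') (hx : x ∈ Vp G d) (hx' : x' ∈ Vp G d)
    (h1 : G.Adj y x) (h2 : G.Adj y x') (h3 : G.Adj y' x) (h4 : G.Adj y' x') : y = y' := by
  by_contra hyy
  have hQ := c.hQ ((1 : ℝ) • Pi.single x 1 + (-1 : ℝ) • Pi.single x' 1)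
  rw [Q_two hne] at hQ
  have e1 : ∀ x : V, K G d x = ∑ y ∈ G.neighborFinset x, W G d y - d * G.degree x := by
    intro x
    rw [K, sum_sub_distrib, sum_const, SimpleGraph.card_neighborFinset_eq_degree, nsmul_eq_mul]
    ring
  have e2 : ∀ x x' : V, ∑ y ∈ G.neighborFinset x, W G d y = Kc G d x x' +
      ∑ y ∈ G.neighborFinset x \ G.neighborFinset x', W G d y := by
    intro x x'
    rw [Kc, sum_inter_add_sum_sdiff]
  have e3 : ∀ x x' : V, x ∈ Vp G d →
      2 ≤ (G.neighborFinset x ∩ G.neighborFinset x').card →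
      ∑ y ∈ G.neighborFinset x \ G.neighborFinset x', W G d y ≤
        (G.degree x - 2) * (d + 2 + 1 / d) := by
    intro x x' hx h2c
    calc _ ≤ ∑ y ∈ G.neighborFinset x \ G.neighborFinset x', ((d : ℝ) + 2 + 1 / d) :=
          sum_le_sum fun y _ => c.W_le y
      _ = ((G.neighborFinset x \ G.neighborFinset x').card : ℝ) * (d + 2 + 1 / d) := by
          rw [sum_const, nsmul_eq_mul]
      _ ≤ _ := by
          refine mul_le_mul_of_nonneg_right ?_ (by have := c.dpos; positivity)
          have h5 : (G.neighborFinset x \ G.neighborFinset x').card +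
              (G.neighborFinset x ∩ G.neighborFinset x').card = G.degree x := by
            rw [card_sdiff_add_card_inter, SimpleGraph.card_neighborFinset_eq_degree]
          have h6 : (G.neighborFinset x \ G.neighborFinset x').card + 2 ≤ G.degree x := by omega
          have : (((G.neighborFinset x \ G.neighborFinset x').card + 2 : ℕ) : ℝ) ≤ G.degree x := by
            exact_mod_cast h6
          push_cast at this
          linarith
  have h2c : 2 ≤ (G.neighborFinset x ∩ G.neighborFinset x').card := by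
    have h5 : ({y, y'} : Finset V) ⊆ G.neighborFinset x ∩ G.neighborFinset x' := by
      intro w hw
      simp only [mem_insert, mem_singleton] at hw
      rw [mem_inter, mem_nbr, mem_nbr]
      rcases hw with rfl | rfl
      · exact ⟨h1.symm, h2.symm⟩
      · exact ⟨h3.symm, h4.symm⟩
    have h6 := card_le_card h5
    rwa [card_pair hyy] at h6
  have h2c' : 2 ≤ (G.neighborFinset x' ∩ G.neighborFinset x).card := by
    rwa [inter_comm]
  have f1 := e3 x x' hx h2c
  have f2 := e3 x' x hx' h2c'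
  have f3 : Kc G d x' x = Kc G d x x' := by rw [Kc, Kc, inter_comm]
  rw [e1 x, e1 x', e2 x x', e2 x' x, f3] at hQ
  rw [mem_Vp] at hx hx'
  have g1 : (G.degree x : ℝ) ≤ d + 1 := by exact_mod_cast hx
  have g2 : (G.degree x' : ℝ) ≤ d + 1 := by exact_mod_cast hx'
  have hd := c.dR
  have hinv : (1 / (d : ℝ)) * d = 1 := by field_simp
  have g3 : ((G.degree x : ℝ) - 2) * (d + 2 + 1 / d) - d * G.degree x ≤ -1 := by
    have : ((G.degree x : ℝ) - 2) * (d + 2 + 1 / d) - d * G.degree x =
      (G.degree x) * (2 + 1 / d) - 2 * (d + 2 + 1 / d) := by ring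
    rw [this]
    have h8 : (0 : ℝ) < 1 / d := by positivity
    have h9 : (G.degree x : ℝ) * (2 + 1 / d) ≤ (d + 1) * (2 + 1 / d) :=
      mul_le_mul_of_nonneg_right g1 (by positivity)
    nlinarith
  have g4 : ((G.degree x' : ℝ) - 2) * (d + 2 + 1 / d) - d * G.degree x' ≤ -1 := by
    have : ((G.degree x' : ℝ) - 2) * (d + 2 + 1 / d) - d * G.degree x' =
      (G.degree x') * (2 + 1 / d) - 2 * (d + 2 + 1 / d) := by ring
    rw [this]
    have h8 : (0 : ℝ) < 1 / d := by positivity
    have h9 : (G.degree x' : ℝ) * (2 + 1 / d) ≤ (d + 1) * (2 + 1 / d) :=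
      mul_le_mul_of_nonneg_right g2 (by positivity)
    nlinarith
  linarith

lemma sum_nb_sq (f : V → ℝ) :
    ∑ y, (nb G f y) ^ 2 = ∑ x, ∑ x', f x * f x' * (Seven.cn G x x' : ℝ) :=
  Seven.sum_cn_eq G f

lemma cn_self (x : V) : Seven.cn G x x = G.degree x := by
  rw [Seven.cn, inter_self, SimpleGraph.card_neighborFinset_eq_degree]

lemma cn_HG {x x' : V} (hne : x ≠ x') (hx : x ∈ Vp G d) (hx' : x' ∈ Vp G d) :
    Seven.cn G x x' = if (HG G d).Adj x x' then 1 else 0 := by
  split_ifs with h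
  · obtain ⟨_, _, _, w, h1, h2⟩ := h
    rw [Seven.cn, card_eq_one]
    refine ⟨w, ?_⟩
    ext v
    rw [mem_inter, mem_nbr, mem_nbr, mem_singleton]
    constructor
    · rintro ⟨h3, h4⟩
      exact c.common_unique hne hx hx' h3.symm h4.symm h1 h2
    · rintro rfl
      exact ⟨h1.symm, h2.symm⟩
  · rw [Seven.cn, card_eq_zero]
    ext v
    rw [mem_inter, mem_nbr, mem_nbr]
    simp only [notMem_empty, iff_false, not_and]
    intro h3 h4
    exact h ⟨hne, hx, hx', v, h3.symm, h4.symm⟩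

/-- the collinearity graph of the small vertices has `A + (2 - 1/(d+1)) I ≥ 0` -/
lemma psd : Psd (HG G d) (1 / ((d : ℝ) + 1)) := by
  intro f
  set g : V → ℝ := fun x => if x ∈ Vp G d then f x else 0 with hg
  have hd := c.dR
  have hQ : 0 ≤ Q G d g := c.hQ g
  have h1 : B (HG G d) (1 / ((d : ℝ) + 1)) f f = ∑ y, (nb G g y) ^ 2 +
      ∑ x, ((2 - 1 / ((d : ℝ) + 1)) * f x ^ 2 - G.degree x * g x ^ 2) := by
    rw [c.sum_nb_sq, B, ← sum_add_distrib]
    refine sum_congr rfl fun x _ => ?_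
    have h2 : ∀ x', f x * f x' * M (HG G d) (1 / ((d : ℝ) + 1)) x x' =
        g x * g x' * (Seven.cn G x x' : ℝ) + (if x = x' then
          ((2 - 1 / ((d : ℝ) + 1)) * f x ^ 2 - G.degree x * g x ^ 2) else 0) := by
      intro x'
      by_cases hxx : x = x'
      · subst hxx
        rw [if_pos rfl, M, if_pos rfl, c.cn_self]
        ring
      · rw [if_neg hxx, M, if_neg hxx, add_zero]
        by_cases hx : x ∈ Vp G d
        · by_cases hx' : x' ∈ Vp G d
          · rw [c.cn_HG hxx hx hx']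
            simp only [hg, if_pos hx, if_pos hx']
            split_ifs <;> simp
          · have h3 : ¬ (HG G d).Adj x x' := fun h => hx' h.2.2.1
            simp only [hg, if_neg hx', if_neg h3]
            ring
        · have h3 : ¬ (HG G d).Adj x x' := fun h => hx h.2.1
          simp only [hg, if_neg hx, if_neg h3]
          ring
    rw [sum_congr rfl fun x' _ => h2 x', sum_add_distrib]
    simp
  have h2 : Q G d g ≤ (d + 2 + 1 / d) * ∑ y, (nb G g y) ^ 2 - d * ∑ x, (G.degree x : ℝ) * g x ^ 2 := by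
    have : ∑ y, W G d y * (nb G g y) ^ 2 ≤ ∑ y, ((d : ℝ) + 2 + 1 / d) * (nb G g y) ^ 2 :=
      sum_le_sum fun y _ => mul_le_mul_of_nonneg_right (c.W_le y) (sq_nonneg _)
    rw [← mul_sum] at this
    rw [Q]
    linarith
  have h3 : 0 ≤ ∑ x, (((d : ℝ) + 2 + 1 / d) * ((2 - 1 / ((d : ℝ) + 1)) * f x ^ 2 -
      G.degree x * g x ^ 2) + d * (G.degree x * g x ^ 2)) := by
    refine sum_nonneg fun x _ => ?_
    have e1 : ((d : ℝ) + 2 + 1 / d) * (2 - 1 / ((d : ℝ) + 1)) = (d + 1) * (2 + 1 / d) := by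
      field_simp
      ring
    have e2 : ((d : ℝ) + 2 + 1 / d) * ((2 - 1 / ((d : ℝ) + 1)) * f x ^ 2 -
      G.degree x * g x ^ 2) + d * (G.degree x * g x ^ 2) =
      (((d : ℝ) + 2 + 1 / d) * (2 - 1 / ((d : ℝ) + 1))) * f x ^ 2 -
        G.degree x * (2 + 1 / d) * g x ^ 2 := by ring
    rw [e2, e1]
    by_cases hx : x ∈ Vp G d
    · simp only [hg, if_pos hx]
      rw [mem_Vp] at hx
      have g1 : (G.degree x : ℝ) ≤ d + 1 := by exact_mod_cast hx
      have h9 : (G.degree x : ℝ) * (2 + 1 / d) ≤ (d + 1) * (2 + 1 / d) :=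
        mul_le_mul_of_nonneg_right g1 (by positivity)
      have := mul_le_mul_of_nonneg_right h9 (sq_nonneg (f x))
      linarith
    · simp only [hg, if_neg hx]
      have : 0 ≤ ((d : ℝ) + 1) * (2 + 1 / d) * f x ^ 2 := by positivity
      linarith
  have h4 : 0 ≤ ((d : ℝ) + 2 + 1 / d) * B (HG G d) (1 / ((d : ℝ) + 1)) f f := by
    rw [h1]
    rw [sum_add_distrib, ← mul_sum, ← mul_sum] at h3
    linarith
  exact (mul_nonneg_iff_of_pos_left (by positivity)).1 h4

end Cx

/-- number of small vertices collinear with `x` -/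
noncomputable def nx (G : SimpleGraph V) (d : ℕ) (x : V) : ℕ :=
  (univ.filter fun u => (HG G d).Adj x u).card

end Pool.Agent.H2.RG
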