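import Mathlib
import Pool.Agent.H2.RG.Base

/-!
# Rigidity for `gap(G_{≥d})`: counting lemmas for `K`, existence of small vertices   [H2 RG Cnt]

Only `Base` is used.  `w y = W y - d` is at most `2 + 1/d` (always), `1` if `deg y ≥ d + 1`,
`1/(d+2)` if `deg y ≥ d + 2`, `-(d-1)/(d+3)` if `deg y ≥ d + 3`.
-/

namespace Pool.Agent.H2.RG

open Finset Classical Pool.Agent.H17 Pool.Agent.H17.Exact

set_option linter.unusedSectionVars false

variable {V : Type} [Fintype V] {G : SimpleGraph V} {d : ℕ}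

/-- number of neighbours of degree `d` -/
noncomputable def n0 (G : SimpleGraph V) (d : ℕ) (y : V) : ℕ :=
  ((G.neighborFinset y ∩ Vp G d).filter fun v => G.degree v = d).card

/-- number of neighbours of degree `d + 1` -/
noncomputable def n1 (G : SimpleGraph V) (d : ℕ) (y : V) : ℕ :=
  ((G.neighborFinset y ∩ Vp G d).filter fun v => G.degree v = d + 1).card

namespace Cx

variable (c : Cx G d)

include c

lemma W_le_of_deg {y : V} (h : d + 1 ≤ G.degree y) : W G d y ≤ d + 1 := by
  have h1 : ((d : ℝ) + 1) ≤ G.degree y := by exact_mod_cast h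
  have h2 := c.dpos
  have h3 : W G d y ≤ ((d : ℝ) + 1) ^ 2 / (d + 1) :=
    div_le_div_of_nonneg_left (by positivity) (by linarith) h1
  have h4 : ((d : ℝ) + 1) ^ 2 / (d + 1) = d + 1 := by field_simp
  linarith

lemma n0_add_n1 (y : V) : n0 G d y + n1 G d y = sp G d y := by
  rw [n0, n1, sp, ← card_union_of_disjoint]
  · congr 1
    ext v
    rw [mem_union, mem_filter, mem_filter]
    constructor
    · rintro (h | h)
      · exact h.1
      · exact h.1
    · intro h
      have h1 := (mem_Vp).1 (mem_inter.1 h).2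
      have h2 := c.hdeg v
      rcases Nat.lt_or_ge (G.degree v) (d + 1) with h3 | h3
      · exact Or.inl ⟨h, by omega⟩
      · exact Or.inr ⟨h, by omega⟩
  · rw [disjoint_left]
    intro v h1 h2
    have h3 := (mem_filter.1 h1).2
    have h4 := (mem_filter.1 h2).2
    omega

lemma K_split (x : V) : K G d x = ∑ y ∈ G.neighborFinset x ∩ Vp G d, (W G d y - d) +
      ∑ y ∈ G.neighborFinset x \ Vp G d, (W G d y - d) := by
  rw [K, ← sum_inter_add_sum_sdiff]

lemma card_big (x : V) : (G.neighborFinset x \ Vp G d).card + sp G d x = G.degree x := by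
  rw [sp, card_sdiff_add_card_inter, SimpleGraph.card_neighborFinset_eq_degree]

lemma small_part_le (x : V) :
    ∑ y ∈ G.neighborFinset x ∩ Vp G d, (W G d y - d) ≤ (2 + 1 / d) * sp G d x := by
  calc _ ≤ ∑ y ∈ G.neighborFinset x ∩ Vp G d, (2 + 1 / (d : ℝ)) :=
        sum_le_sum fun y _ => by linarith [c.W_le y]
    _ = (2 + 1 / d) * sp G d x := by
        rw [sum_const, nsmul_eq_mul, mul_comm, sp]

lemma exists_of_n0 {y : V} (h : n0 G d y ≠ 0) : ∃ x, G.Adj y x ∧ G.degree x = d := by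
  rw [n0] at h
  obtain ⟨v, hv⟩ := card_pos.1 (Nat.pos_of_ne_zero h)
  rw [mem_filter, mem_inter, mem_nbr] at hv
  exact ⟨v, hv.1.1, hv.2⟩

lemma K_le_n (y : V) :
    K G d y ≤ (2 + 1 / d) * n0 G d y + n1 G d y + (G.degree y - sp G d y) / (d + 2) := by
  have h0 := c.card_big y
  have h2 : ∑ v ∈ G.neighborFinset y ∩ Vp G d, (W G d v - d) ≤
      (2 + 1 / d) * n0 G d y + n1 G d y := by
    have h5 : ∑ v ∈ G.neighborFinset y ∩ Vp G d, (W G d v - d) ≤
        ∑ v ∈ G.neighborFinset y ∩ Vp G d, ((if G.degree v = d then (2 + 1 / (d : ℝ)) else 0) +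
          (if G.degree v = d + 1 then (1 : ℝ) else 0)) := by
      refine sum_le_sum fun v hv => ?_
      have h1 := (mem_Vp).1 (mem_inter.1 hv).2
      have h2 := c.hdeg v
      by_cases h3 : G.degree v = d
      · rw [if_pos h3, if_neg (by omega)]
        linarith [c.W_le v]
      · rw [if_neg h3, if_pos (by omega)]
        linarith [c.W_le_of_deg (y := v) (by omega)]
    rw [sum_add_distrib, ← sum_filter, ← sum_filter, sum_const, sum_const, nsmul_eq_mul,
      nsmul_eq_mul, mul_one] at h5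
    rw [n0, n1, mul_comm]
    exact h5
  have h3 : ∑ v ∈ G.neighborFinset y \ Vp G d, (W G d v - d) ≤
      (G.degree y - sp G d y) / (d + 2) := by
    calc _ ≤ ∑ v ∈ G.neighborFinset y \ Vp G d, (1 / ((d : ℝ) + 2)) := by
          refine sum_le_sum fun v hv => ?_
          linarith [c.W_le_of_big (c.not_mem_Vp (mem_sdiff.1 hv).2)]
      _ = (G.degree y - sp G d y) / (d + 2) := by
          rw [sum_const, nsmul_eq_mul, ← h0]
          push_cast
          ring
  rw [c.K_split]
  linarith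

/-- Split off the big neighbour `y` of `z`. -/
lemma K_le_of_big_adj {y z : V} (hy : y ∉ Vp G d) (hzy : G.Adj z y) :
    K G d z ≤ (W G d y - d) + (2 + 1 / d) * sp G d z +
      ((G.degree z : ℝ) - 1 - sp G d z) / (d + 2) := by
  have h0 := c.card_big z
  have h1 := c.small_part_le z
  have hmem : y ∈ G.neighborFinset z \ Vp G d := mem_sdiff.2 ⟨mem_nbr.2 hzy, hy⟩
  have h2 : ((G.neighborFinset z \ Vp G d).erase y).card + 1 + sp G d z = G.degree z := by
    rw [card_erase_of_mem hmem]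
    have := card_pos.2 ⟨y, hmem⟩
    omega
  have h3 : ∑ v ∈ (G.neighborFinset z \ Vp G d).erase y, (W G d v - d) ≤
      ((G.degree z : ℝ) - 1 - sp G d z) / (d + 2) := by
    calc _ ≤ ∑ v ∈ (G.neighborFinset z \ Vp G d).erase y, (1 / ((d : ℝ) + 2)) := by
          refine sum_le_sum fun v hv => ?_
          linarith [c.W_le_of_big (c.not_mem_Vp (mem_sdiff.1 (mem_of_mem_erase hv)).2)]
      _ = ((G.degree z : ℝ) - 1 - sp G d z) / (d + 2) := by
          rw [sum_const, nsmul_eq_mul, ← h2]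
          push_cast
          ring
  rw [c.K_split, ← add_sum_erase _ _ hmem]
  linarith

/-- `K z > 0`, so not all neighbours have degree `≥ d + 3`. -/
lemma exists_nbr_le (z : V) : ∃ u, G.Adj z u ∧ G.degree u ≤ d + 2 := by
  by_contra hcon
  push Not at hcon
  have h1 := c.K_pos z
  have h2 : K G d z ≤ 0 := by
    rw [K]
    refine sum_nonpos fun u hu => ?_
    have h3 := hcon u (mem_nbr.1 hu)
    have h4 := c.W_le_of_big3 (y := u) (by omega)
    have h5 : (0 : ℝ) ≤ ((d : ℝ) - 1) / (d + 3) := by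
      have := c.dR
      apply div_nonneg <;> linarith
    linarith
  linarith

/-- More precisely, a vertex `z` with `K z > (2 + 1/d) sp z` has a neighbour of degree exactly
`d + 2` (otherwise the big neighbours contribute at most `0` to `K z`). -/
lemma exists_nbr_two {z : V} (h : (2 + 1 / (d : ℝ)) * sp G d z < K G d z) :
    ∃ u, G.Adj z u ∧ G.degree u = d + 2 := by
  by_contra hcon
  push Not at hcon
  have h1 := c.small_part_le z
  have h2 : ∑ y ∈ G.neighborFinset z \ Vp G d, (W G d y - d) ≤ 0 := by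
    refine sum_nonpos fun u hu => ?_
    have h6 := c.not_mem_Vp (mem_sdiff.1 hu).2
    have h3 := hcon u (mem_nbr.1 (mem_sdiff.1 hu).1)
    have h4 := c.W_le_of_big3 (y := u) (by omega)
    have h5 : (0 : ℝ) ≤ ((d : ℝ) - 1) / (d + 3) := by
      have := c.dR
      apply div_nonneg <;> linarith
    linarith
  rw [c.K_split] at h
  linarith

/-- Let `deg z = d + 2`, without small neighbours: `K z ≤ 1` (`K_le`).  `z` has a neighbour `u` of
degree `d + 2` (`exists_nbr_two`), `W u = (d+1)²/(d+2)`.  For every neighbour `z' ≠ z` of `u`: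
`W u² ≤ K z K z' ≤ K z'` (`W_sq_le`).  If all these `z'` had `sp z' = 0`, then
`K z' ≤ deg z'/(d+2)` (`K_le`), `deg z' ≥ (d+2) W u² = (d+1)⁴/(d+2)`,
`W z' ≤ (d+2)/(d+1)² ≤ 1`, and `K u ≤ (W z - d) + (deg u - 1) (1 - d) ≤ 1/(d+2) - (d+1)(d-1) < 0`,
against `K_pos`. -/
lemma exists_far {z : V} (hz : G.degree z = d + 2) (h0 : sp G d z = 0) :
    ∃ u z', G.degree u = d + 2 ∧ 1 ≤ sp G d z' ∧ W G d u ^ 2 ≤ K G d z' := by
  have hd := c.dR
  have hKz := c.K_pos z
  have hKz1 : K G d z ≤ 1 := by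
    have h1 := c.K_le z
    rw [hz, h0] at h1
    have h2 : (((d + 2 : ℕ) : ℝ) - ((0 : ℕ) : ℝ)) / ((d : ℝ) + 2) = 1 := by
      push_cast
      rw [sub_zero]
      exact div_self (by linarith)
    rw [h2] at h1
    simpa using h1
  obtain ⟨u, hzu, hu⟩ := c.exists_nbr_two (z := z) (by rw [h0]; simpa using hKz)
  by_contra hcon
  push Not at hcon
  have key : ∀ z', G.Adj u z' → z' ≠ z → W G d z' ≤ 1 := by
    intro z' huz' hne
    have h1 := c.W_sq_le (Ne.symm hne) hzu.symm huz'
    have h2 := c.K_nonneg z'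
    have h3 : W G d u ^ 2 ≤ K G d z' := by nlinarith
    have h4 : sp G d z' = 0 := by
      by_contra h5
      exact absurd (hcon u z' hu (by omega)) (not_lt.2 h3)
    have h5 := c.K_le z'
    rw [h4] at h5
    simp only [Nat.cast_zero, mul_zero, sub_zero, zero_add] at h5
    have h6 : W G d u = ((d : ℝ) + 1) ^ 2 / (d + 2) := by
      rw [W, hu]; push_cast; rfl
    have hpos := c.degpos z'
    have h7 : (((d : ℝ) + 1) ^ 2 / (d + 2)) ^ 2 ≤ G.degree z' / (d + 2) := by
      rw [← h6]; exact h3.trans h5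
    have h8 : ((d : ℝ) + 1) ^ 2 ≤ G.degree z' := by
      have h9 : (((d : ℝ) + 1) ^ 2 / (d + 2)) ^ 2 * (d + 2) = ((d : ℝ) + 1) ^ 4 / (d + 2) := by
        field_simp
      have h10 : ((d : ℝ) + 1) ^ 4 / (d + 2) ≤ G.degree z' := by
        rw [← h9]
        rwa [le_div_iff₀ (by linarith)] at h7
      refine le_trans ?_ h10
      rw [le_div_iff₀ (by linarith)]
      have h11 : (d : ℝ) + 2 ≤ ((d : ℝ) + 1) ^ 2 := by nlinarith
      calc ((d : ℝ) + 1) ^ 2 * (d + 2) ≤ ((d : ℝ) + 1) ^ 2 * ((d : ℝ) + 1) ^ 2 :=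
            mul_le_mul_of_nonneg_left h11 (sq_nonneg _)
        _ = ((d : ℝ) + 1) ^ 4 := by ring
    rw [W, div_le_one hpos]
    exact h8
  have h1 : K G d u ≤ (W G d z - d) + ((d : ℝ) + 1) * (1 - d) := by
    have hmem : z ∈ G.neighborFinset u := mem_nbr.2 hzu.symm
    rw [K, ← add_sum_erase _ _ hmem]
    have h2 : ∑ v ∈ (G.neighborFinset u).erase z, (W G d v - d) ≤
        ∑ v ∈ (G.neighborFinset u).erase z, (1 - (d : ℝ)) := by
      refine sum_le_sum fun v hv => ?_
      rw [mem_erase, mem_nbr] at hv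
      linarith [key v hv.2 hv.1]
    rw [sum_const, card_erase_of_mem hmem, SimpleGraph.card_neighborFinset_eq_degree, hu,
      nsmul_eq_mul] at h2
    have h3 : ((d + 2 - 1 : ℕ) : ℝ) = (d : ℝ) + 1 := by
      have : d + 2 - 1 = d + 1 := by omega
      rw [this]; push_cast; rfl
    rw [h3] at h2
    linarith
  have h2 := c.K_pos u
  have h3 := c.W_le_of_big (y := z) (by omega)
  have h4 : (1 : ℝ) / (d + 2) ≤ 1 := by
    rw [div_le_one (by linarith)]; linarith
  nlinarith

/-- There is a small vertex: `exists_nbr_le`, then `exists_far` if its result is neither small nor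
has a small neighbour. -/
lemma exists_small [Nonempty V] : ∃ x, x ∈ Vp G d := by
  have hsp : ∀ y, sp G d y ≠ 0 → ∃ x, x ∈ Vp G d := by
    intro y hy
    rw [sp] at hy
    obtain ⟨v, hv⟩ := card_pos.1 (Nat.pos_of_ne_zero hy)
    exact ⟨v, (mem_inter.1 hv).2⟩
  obtain ⟨z0⟩ := ‹Nonempty V›
  obtain ⟨u, -, hu⟩ := c.exists_nbr_le z0
  by_cases h1 : u ∈ Vp G d
  · exact ⟨u, h1⟩
  · have h2 := c.not_mem_Vp h1
    by_cases h3 : sp G d u = 0
    · obtain ⟨_, z', _, h4, _⟩ := c.exists_far (z := u) (by omega) h3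
      exact hsp z' (by omega)
    · exact hsp u h3

end Cx

end Pool.Agent.H2.RG
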