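import Mathlib
import Pool.Agent.H17.ExactA

/-!
# Block test vectors for `A(H) + (2 - s) I ≥ 0`   [H2 RG LocalA1]

Abstract part, in the notation of `Pool.Agent.H17.ExactA` (`M`, `e`, `B`, `Psd`, `Clq`,
`e_full`, `e_zero`, `e_clique`, `e_nonneg_of_disj`, `psd4`).
-/

namespace Pool.Agent.H2.RG

open Finset Classical Pool.Agent.H17.Exact

set_option linter.unusedSectionVars false

variable {V : Type} [Fintype V] {H : SimpleGraph V} {s : ℝ}

/-- Like `psd4`, with five blocks. -/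
lemma psd5 (h : Psd H s) (a b c d r : ℝ) (S₁ S₂ S₃ S₄ S₅ : Finset V) :
    0 ≤ a ^ 2 * e H s S₁ S₁ + b ^ 2 * e H s S₂ S₂ + c ^ 2 * e H s S₃ S₃ + d ^ 2 * e H s S₄ S₄ +
      r ^ 2 * e H s S₅ S₅ +
      2 * a * b * e H s S₁ S₂ + 2 * a * c * e H s S₁ S₃ + 2 * a * d * e H s S₁ S₄ +
      2 * a * r * e H s S₁ S₅ +
      2 * b * c * e H s S₂ S₃ + 2 * b * d * e H s S₂ S₄ + 2 * b * r * e H s S₂ S₅ +
      2 * c * d * e H s S₃ S₄ + 2 * c * r * e H s S₃ S₅ + 2 * d * r * e H s S₄ S₅ := by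
  have h1 := h (a • ind S₁ + b • ind S₂ + c • ind S₃ + d • ind S₄ + r • ind S₅)
  simp only [B_add_left, B_add_right, B_smul_left, B_smul_right, B_ind] at h1
  rw [e_comm H s S₂ S₁, e_comm H s S₃ S₁, e_comm H s S₄ S₁, e_comm H s S₅ S₁, e_comm H s S₃ S₂,
    e_comm H s S₄ S₂, e_comm H s S₅ S₂, e_comm H s S₄ S₃, e_comm H s S₅ S₃, e_comm H s S₅ S₄] at h1
  linarith

/-- (4a) Two cliques `A ∪ {p}`, `B ∪ {q}` in the neighbourhood of `x`, no edge between them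
except `p q`, `n = |A| + |B| + 2`: then `s n < 2`.
Proof: blocks `{x}, A, B, {p}, {q}` with coefficients `(b - a)/2, 1, -1, -n/2, n/2`
(`a = |A|`, `b = |B|`): the form `2 I + A(H)` takes the value `n`, the norm is at least
`n²/2 + n - 2`, so `s (n²/2 + n - 2) ≤ n`; if `s n ≥ 2` the left side is
`≥ n + 2 - 4/n > n` because `n ≥ 3`. -/
lemma cross_exc (h : Psd H s) (hs : 0 < s) {x p q : V} {A B : Finset V}
    (hA : Clq H A) (hB : Clq H B) (hxA : ∀ u ∈ A, H.Adj x u) (hxB : ∀ u ∈ B, H.Adj x u)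
    (hxp : H.Adj x p) (hxq : H.Adj x q) (hpq : H.Adj p q)
    (hpA : ∀ u ∈ A, H.Adj p u) (hqB : ∀ u ∈ B, H.Adj q u)
    (hpB : ∀ u ∈ B, p ≠ u ∧ ¬ H.Adj p u) (hqA : ∀ u ∈ A, q ≠ u ∧ ¬ H.Adj q u)
    (hAB : ∀ u ∈ A, ∀ v ∈ B, u ≠ v ∧ ¬ H.Adj u v) (hn : 1 ≤ A.card + B.card)
    (hsn : 2 ≤ s * ((A.card : ℝ) + B.card + 2)) : False := by
  have one : ∀ (x y : V) , H.Adj x y → e H s {x} {y} = 1 := by
    intro x y hxy
    rw [e_full]
    · simp
    · intro u hu v hv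
      rw [mem_singleton] at hu hv
      subst hu hv
      exact hxy
  have key : ∀ (x : V) (Y : Finset V), (∀ y ∈ Y, H.Adj x y) → e H s {x} Y = Y.card := by
    intro x Y hx
    rw [e_full, card_singleton]
    · norm_num
    · intro u hu v hv
      rw [mem_singleton] at hu
      subst hu
      exact hx v hv
  have key0 : ∀ (x : V) (Y : Finset V), (∀ y ∈ Y, x ≠ y ∧ ¬ H.Adj x y) → e H s {x} Y = 0 := by
    intro x Y hx
    refine e_zero fun u hu v hv => ?_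
    rw [mem_singleton] at hu
    subst hu
    exact hx v hv
  have h1 := psd5 h (((B.card : ℝ) - A.card) / 2) 1 (-1) (-(((A.card : ℝ) + B.card + 2) / 2))
    (((A.card : ℝ) + B.card + 2) / 2) {x} A B {p} {q}
  rw [e_singleton, e_singleton, e_singleton, e_clique hA, e_clique hB, key x A hxA, key x B hxB,
    one x p hxp, one x q hxq, e_zero hAB, e_comm H s A {p}, e_comm H s A {q}, e_comm H s B {p},
    e_comm H s B {q}, key p A hpA, key q B hqB, key0 p B hpB, key0 q A hqA, one p q hpq] at h1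
  set a : ℝ := (A.card : ℝ) with ha
  set b : ℝ := (B.card : ℝ) with hb
  have hn' : (1 : ℝ) ≤ a + b := by rw [ha, hb]; exact_mod_cast hn
  set n : ℝ := a + b + 2 with hn2
  have h2 : 0 ≤ n - s * ((b - a) ^ 2 / 4 + n - 2 + n ^ 2 / 2) := by
    rw [hn2] at h1 ⊢
    nlinarith [h1]
  have h3 : n ≤ s * (n ^ 2 / 2) := by
    have h4 : 2 * (n / 2) ≤ s * n * (n / 2) :=
      mul_le_mul_of_nonneg_right hsn (by linarith)
    nlinarith [h4]
  have h5 : 0 < s * (n - 2) := mul_pos hs (by linarith)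
  have h6 : 0 ≤ s * ((b - a) ^ 2 / 4) := by positivity
  nlinarith [h2, h3, h5, h6]

end Pool.Agent.H2.RG
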