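import Mathlib
import Pool.Agent.H2.RG.LocalA1

/-!
# Block test vectors for `A(H) + (2 - s) I ≥ 0`   [H2 RG LocalA2]

Abstract part, in the notation of `Pool.Agent.H17.ExactA` (`M`, `e`, `B`, `Psd`, `Clq`,
`e_full`, `e_zero`, `e_clique`, `e_nonneg_of_disj`, `psd4`).
-/

namespace Pool.Agent.H2.RG

open Finset Classical Pool.Agent.H17.Exact

set_option linter.unusedSectionVars false

variable {V : Type} [Fintype V] {H : SimpleGraph V} {s : ℝ}

/-- (4b) Two sets `A ∪ {p, q}`, `B` in the neighbourhood of `x`, cliques except that `p q` is not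
an edge, no edge between them, `n = |A| + |B| + 2`: then `s n < 2`.
Proof: blocks `{p, q}, A, {x}, B` with coefficients `n/2, -1, -(b + 1), 1` (`b = |B|`): the form
`2 I + A(H)` takes the value `n`, the norm is at least `n²/2 + n - 2`; conclude as in (4a). -/
lemma same_exc (h : Psd H s) (hs : 0 < s) {x p q : V} {A B : Finset V}
    (hA : Clq H A) (hB : Clq H B) (hxA : ∀ u ∈ A, H.Adj x u) (hxB : ∀ u ∈ B, H.Adj x u)
    (hxp : H.Adj x p) (hxq : H.Adj x q) (hpq : ¬ H.Adj p q) (hne : p ≠ q)
    (hpA : ∀ u ∈ A, H.Adj p u) (hqA : ∀ u ∈ A, H.Adj q u)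
    (hpB : ∀ u ∈ B, p ≠ u ∧ ¬ H.Adj p u) (hqB : ∀ u ∈ B, q ≠ u ∧ ¬ H.Adj q u)
    (hAB : ∀ u ∈ A, ∀ v ∈ B, u ≠ v ∧ ¬ H.Adj u v) (hn : 1 ≤ A.card + B.card)
    (hsn : 2 ≤ s * ((A.card : ℝ) + B.card + 2)) : False := by
  have epq : e H s {p, q} {p, q} = 2 * (2 - s) := by
    unfold e
    rw [sum_pair hne, sum_pair hne, sum_pair hne]
    simp only [M, if_true, if_neg hne, if_neg (Ne.symm hne), if_neg hpq,
      if_neg (fun h' : H.Adj q p => hpq h'.symm)]
    ring
  have hc : ({p, q} : Finset V).card = 2 := card_pair hne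
  have epqA : e H s {p, q} A = 2 * A.card := by
    rw [e_full, hc]
    · norm_num
    · intro u hu v hv
      simp only [mem_insert, mem_singleton] at hu
      rcases hu with rfl | rfl
      · exact hpA v hv
      · exact hqA v hv
  have epqB : e H s {p, q} B = 0 := by
    refine e_zero fun u hu v hv => ?_
    simp only [mem_insert, mem_singleton] at hu
    rcases hu with rfl | rfl
    · exact hpB v hv
    · exact hqB v hv
  have epqx : e H s {p, q} {x} = 2 := by
    rw [e_full, hc, card_singleton]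
    · norm_num
    · intro u hu v hv
      rw [mem_singleton] at hv
      subst hv
      simp only [mem_insert, mem_singleton] at hu
      rcases hu with rfl | rfl
      · exact hxp.symm
      · exact hxq.symm
  have key : ∀ (x : V) (Y : Finset V), (∀ y ∈ Y, H.Adj x y) → e H s {x} Y = Y.card := by
    intro x Y hx
    rw [e_full, card_singleton]
    · norm_num
    · intro u hu v hv
      rw [mem_singleton] at hu
      subst hu
      exact hx v hv
  have h1 := psd4 h (((A.card : ℝ) + B.card + 2) / 2) (-1) (-((B.card : ℝ) + 1)) 1 {p, q} A {x} B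
  rw [epq, e_singleton, e_clique hA, e_clique hB, epqA, epqx, epqB, e_comm H s A {x}, key x A hxA,
    e_zero hAB, key x B hxB] at h1
  set a : ℝ := (A.card : ℝ) with ha
  set b : ℝ := (B.card : ℝ) with hb
  have hn' : (1 : ℝ) ≤ a + b := by rw [ha, hb]; exact_mod_cast hn
  set n : ℝ := a + b + 2 with hn2
  have h2 : 0 ≤ n - s * ((b + 1) ^ 2 + n - 2 + n ^ 2 / 2) := by
    rw [hn2] at h1 ⊢
    nlinarith [h1]
  have h3 : n ≤ s * (n ^ 2 / 2) := by
    have h4 : 2 * (n / 2) ≤ s * n * (n / 2) :=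
      mul_le_mul_of_nonneg_right hsn (by linarith)
    nlinarith [h4]
  have h5 : 0 < s * (n - 2) := mul_pos hs (by linarith)
  have h6 : 0 ≤ s * ((b + 1) ^ 2) := by positivity
  nlinarith [h2, h3, h5, h6]

end Pool.Agent.H2.RG
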