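import Mathlib
import Pool.Agent.H2.RG.LocalA2

/-!
# Block test vectors for `A(H) + (2 - s) I ≥ 0`   [H2 RG LocalA3]

Abstract part, in the notation of `Pool.Agent.H17.ExactA` (`M`, `e`, `B`, `Psd`, `Clq`,
`e_full`, `e_zero`, `e_clique`, `e_nonneg_of_disj`, `psd4`).
-/

namespace Pool.Agent.H2.RG

open Finset Classical Pool.Agent.H17.Exact

set_option linter.unusedSectionVars false

variable {V : Type} [Fintype V] {H : SimpleGraph V} {s : ℝ}

/-- (4c) The extended cut.  `N(x) = A ⊔ (B ∪ {u})` and `N(u) = ({x} ∪ B) ⊔ C`, cliques without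
edges between them, `A ∩ C = ∅`.  Then `s ≤ 1/(|A|+1) + 1/(|B|+|C|+2)`.
Proof: blocks `{x}, A, B, {u}, C` with coefficients `1, -t, -r, -(k + 1) r, r`, where
`t = 1/(|A| + 1)`, `k = |C|`, `r = 1/(|B| + k + 2)`: the form `2 I + A(H)` takes the value
`t + r - 2 t r e(A, C) ≤ t + r` (`e_nonneg_of_disj`), the norm is at least `1`. -/
lemma ext_cut (h : Psd H s) (hs : 0 < s) {x u : V} {A B C : Finset V}
    (hA : Clq H A) (hB : Clq H B) (hC : Clq H C) (hxA : ∀ v ∈ A, H.Adj x v)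
    (hxB : ∀ v ∈ B, H.Adj x v) (hxu : H.Adj x u) (hxC : ∀ v ∈ C, x ≠ v ∧ ¬ H.Adj x v)
    (huA : ∀ v ∈ A, u ≠ v ∧ ¬ H.Adj u v) (huB : ∀ v ∈ B, H.Adj u v)
    (huC : ∀ v ∈ C, H.Adj u v) (hAB : ∀ v ∈ A, ∀ w ∈ B, v ≠ w ∧ ¬ H.Adj v w)
    (hBC : ∀ v ∈ B, ∀ w ∈ C, v ≠ w ∧ ¬ H.Adj v w) (hAC : ∀ v ∈ A, v ∉ C) :
    s ≤ 1 / ((A.card : ℝ) + 1) + 1 / ((B.card : ℝ) + C.card + 2) := by
  have key : ∀ (x : V) (Y : Finset V), (∀ y ∈ Y, H.Adj x y) → e H s {x} Y = Y.card := by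
    intro x Y hx
    rw [e_full, card_singleton]
    · norm_num
    · intro u hu v hv
      rw [mem_singleton] at hu
      subst hu
      exact hx v hv
  have key0 : ∀ (x : V) (Y : Finset V), (∀ y ∈ Y, x ≠ y ∧ ¬ H.Adj x y) → e H s {x} Y = 0 := by
    intro x Y hx
    refine e_zero fun u hu v hv => ?_
    rw [mem_singleton] at hu
    subst hu
    exact hx v hv
  have exu : e H s {x} {u} = 1 := by
    rw [e_full]
    · simp
    · intro u' hu' v' hv'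
      rw [mem_singleton] at hu' hv'
      subst hu' hv'
      exact hxu
  have hw : 0 ≤ e H s A C := e_nonneg_of_disj hAC
  set a : ℝ := (A.card : ℝ) with ha
  set b : ℝ := (B.card : ℝ) with hb
  set k : ℝ := (C.card : ℝ) with hk
  have ha0 : 0 ≤ a := Nat.cast_nonneg _
  have hb0 : 0 ≤ b := Nat.cast_nonneg _
  have hk0 : 0 ≤ k := Nat.cast_nonneg _
  obtain ⟨t, ht⟩ : ∃ t, t = 1 / (a + 1) := ⟨_, rfl⟩
  obtain ⟨r, hr⟩ : ∃ r, r = 1 / (b + k + 2) := ⟨_, rfl⟩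
  have ht0 : 0 ≤ t := by rw [ht]; positivity
  have hr0 : 0 ≤ r := by rw [hr]; positivity
  have ht1 : t * (a + 1) = 1 := by rw [ht]; field_simp
  have hr1 : r * (b + k + 2) = 1 := by rw [hr]; field_simp
  have h1 := psd5 h 1 (-t) (-r) (-((k + 1) * r)) r {x} A B {u} C
  rw [e_singleton, e_singleton, e_clique hA, e_clique hB, e_clique hC, key x A hxA, key x B hxB,
    exu, key0 x C hxC, e_zero hAB, e_comm H s A {u}, key0 u A huA, e_comm H s B {u},
    key u B huB, e_zero hBC, key u C huC] at h1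
  rw [← ha, ← hb, ← hk] at h1
  rw [← ht, ← hr]
  have e1 : t ^ 2 * (a ^ 2 + a) - 2 * t * a = -1 + t := by
    linear_combination (t * a - 1) * ht1
  have e2 : r ^ 2 * ((b + k + 1) * (b + k + 2)) - 2 * r * (b + k + 1) = -1 + r := by
    linear_combination (r * (b + k + 1) - 1) * hr1
  have h2 : 0 ≤ t + r - s * (1 + t ^ 2 * a + r ^ 2 * b + (k + 1) ^ 2 * r ^ 2 + r ^ 2 * k) -
      2 * t * r * e H s A C := by
    have e3 : t + r = 2 + (t ^ 2 * (a ^ 2 + a) - 2 * t * a) +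
        (r ^ 2 * ((b + k + 1) * (b + k + 2)) - 2 * r * (b + k + 1)) := by
      rw [e1, e2]; ring
    rw [e3]
    nlinarith [h1]
  have h3 : 0 ≤ 2 * t * r * e H s A C := by positivity
  have h4 : 0 ≤ s * (t ^ 2 * a + r ^ 2 * b + (k + 1) ^ 2 * r ^ 2 + r ^ 2 * k) := by positivity
  nlinarith [h2, h3, h4]

end Pool.Agent.H2.RG
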