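import Mathlib

/-!
# Signed complete graphs with `3 I + S` positive definite   [H2 RG SeidelA1]

A self-contained statement on `±1` matrices.  `N` a finite set, `σ u v = ±1` symmetric, the form
`∑ Sm σ u v g u g v` (`Sm = 3` on the diagonal, `σ` off the diagonal) positive definite on
functions supported on `N` (structure `Sg`).  `τ(u,v,w) = σ uv σ uw σ vw`.
-/

namespace Pool.Agent.H2.RG

open Finset

set_option linter.unusedSectionVars false

variable {V : Type} [DecidableEq V]

/-- the matrix `3 I + S` -/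
def Sm (σ : V → V → ℝ) (u v : V) : ℝ := if u = v then 3 else σ u v

/-- symmetric signs on `N` with `3 I + S` positive definite -/
structure Sg (N : Finset V) (σ : V → V → ℝ) : Prop where
  sym : ∀ u v, σ u v = σ v u
  val : ∀ u v, σ u v = 1 ∨ σ u v = -1
  pd : ∀ g : V → ℝ, (∀ v, v ∉ N → g v = 0) → g ≠ 0 →
    0 < ∑ u ∈ N, ∑ v ∈ N, Sm σ u v * g u * g v

namespace Sg

variable {N : Finset V} {σ : V → V → ℝ}

/-- Restriction to finitely many points: put `g v = ∑ i, if z i = v then x i else 0`. -/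
lemma pd_fin (h : Sg N σ) {n : ℕ} (z : Fin n → V) (hz : Function.Injective z)
    (hzN : ∀ i, z i ∈ N) (x : Fin n → ℝ) (hx : x ≠ 0) :
    0 < ∑ i, ∑ j, Sm σ (z i) (z j) * x i * x j := by
  set g : V → ℝ := fun v => ∑ i, if z i = v then x i else 0 with hg
  have hgz : ∀ i, g (z i) = x i := by
    intro i
    simp only [hg]
    rw [sum_eq_single i]
    · simp
    · intro j _ hj
      rw [if_neg]
      exact fun h => hj (hz h)
    · simp
  have h0 : ∀ v, v ∉ N → g v = 0 := by
    intro v hv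
    simp only [hg]
    refine sum_eq_zero fun i _ => ?_
    rw [if_neg]
    rintro rfl
    exact hv (hzN i)
  have hne : g ≠ 0 := by
    intro h1
    apply hx
    funext i
    rw [← hgz i, h1]
    rfl
  have key : ∀ F : V → ℝ, ∑ u ∈ N, F u * g u = ∑ i, F (z i) * x i := by
    intro F
    simp only [hg, mul_sum]
    rw [sum_comm]
    refine sum_congr rfl fun i _ => ?_
    rw [sum_eq_single (z i)]
    · simp
    · intro v _ hv
      rw [if_neg (Ne.symm hv), mul_zero]
    · intro hh
      exact absurd (hzN i) hh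
  have h1 := h.pd g h0 hne
  have h2 : ∑ u ∈ N, ∑ v ∈ N, Sm σ u v * g u * g v =
      ∑ i, ∑ j, Sm σ (z i) (z j) * x i * x j := by
    have e1 : ∀ u, ∑ v ∈ N, Sm σ u v * g u * g v = (∑ j, Sm σ u (z j) * x j) * g u := by
      intro u
      rw [← key (fun v => Sm σ u v), sum_mul]
      exact sum_congr rfl fun v _ => by ring
    simp only [e1]
    rw [key (fun u => ∑ j, Sm σ u (z j) * x j)]
    refine sum_congr rfl fun i _ => ?_
    rw [sum_mul]
    exact sum_congr rfl fun j _ => by ring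
  rwa [h2] at h1

/-- Switching: apply `pd_fin` to `θ i * x i`. -/
lemma pd_switch (h : Sg N σ) {n : ℕ} (z : Fin n → V) (hz : Function.Injective z)
    (hzN : ∀ i, z i ∈ N) (θ : Fin n → ℝ) (hθ : ∀ i, θ i = 1 ∨ θ i = -1) (x : Fin n → ℝ)
    (hx : x ≠ 0) :
    0 < ∑ i, ∑ j, (Sm σ (z i) (z j) * θ i * θ j) * x i * x j := by
  have h1 := h.pd_fin z hz hzN (fun i => θ i * x i) (by
    intro h2
    apply hx
    funext i
    have h3 := congrFun h2 i
    have h4 : θ i * x i = 0 := h3
    rcases hθ i with h5 | h5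
    · rw [h5] at h4
      simpa using h4
    · rw [h5] at h4
      simpa using h4)
  refine lt_of_lt_of_eq h1 ?_
  exact sum_congr rfl fun i _ => sum_congr rfl fun j _ => by ring

lemma sq_one (h : Sg N σ) (u v : V) : σ u v * σ u v = 1 := by
  rcases h.val u v with h1 | h1 <;> rw [h1] <;> norm_num

lemma inj4 {u v w z : V} (huv : u ≠ v) (huw : u ≠ w) (huz : u ≠ z) (hvw : v ≠ w) (hvz : v ≠ z)
    (hwz : w ≠ z) : Function.Injective (![u, v, w, z] : Fin 4 → V) := by
  intro i j hij
  fin_cases i <;> fin_cases j <;> simp_all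

/-- Not all four triples of a 4-set are negative: `pd_fin` with
`x = (1, -σ uv, -σ uw, -σ uz)` gives `0 < 12 - 12`. -/
lemma four (h : Sg N σ) {u v w z : V} (hu : u ∈ N) (hv : v ∈ N) (hw : w ∈ N) (hz : z ∈ N)
    (huv : u ≠ v) (huw : u ≠ w) (huz : u ≠ z) (hvw : v ≠ w) (hvz : v ≠ z) (hwz : w ≠ z)
    (h1 : σ u v * σ u w * σ v w = -1) (h2 : σ u v * σ u z * σ v z = -1)
    (h3 : σ u w * σ u z * σ w z = -1) (h4 : σ v w * σ v z * σ w z = -1) : False := by
  have h5 := h.pd_fin (![u, v, w, z] : Fin 4 → V) (inj4 huv huw huz hvw hvz hwz)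
    (by intro i; fin_cases i <;> assumption)
    (![1, -σ u v, -σ u w, -σ u z] : Fin 4 → ℝ)
    (by intro h6; have := congrFun h6 0; simp at this)
  simp only [Fin.sum_univ_four, Sm, Matrix.cons_val_zero, Matrix.cons_val_one,
    Matrix.cons_val, if_true, if_neg huv, if_neg huw, if_neg huz, if_neg hvw, if_neg hvz,
    if_neg hwz, if_neg huv.symm, if_neg huw.symm, if_neg huz.symm, if_neg hvw.symm,
    if_neg hvz.symm, if_neg hwz.symm, h.sym v u, h.sym w u, h.sym z u, h.sym w v, h.sym z v,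
    h.sym z w] at h5
  have e1 := h.sq_one u v
  have e2 := h.sq_one u w
  have e3 := h.sq_one u z
  nlinarith

/-- For a negative triple `(u, v, w)` and another `z` exactly one of
`τ(u,v,z), τ(u,w,z), τ(v,w,z)` is negative: the product of the four `τ` is `1`, and not all are
negative by `four`. -/
lemma types (h : Sg N σ) {u v w z : V} (hu : u ∈ N) (hv : v ∈ N) (hw : w ∈ N) (hz : z ∈ N)
    (huv : u ≠ v) (huw : u ≠ w) (huz : u ≠ z) (hvw : v ≠ w) (hvz : v ≠ z) (hwz : w ≠ z)
    (h1 : σ u v * σ u w * σ v w = -1) :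
    (σ u v * σ u z * σ v z = -1 ∧ σ u w * σ u z * σ w z = 1 ∧ σ v w * σ v z * σ w z = 1) ∨
    (σ u v * σ u z * σ v z = 1 ∧ σ u w * σ u z * σ w z = -1 ∧ σ v w * σ v z * σ w z = 1) ∨
    (σ u v * σ u z * σ v z = 1 ∧ σ u w * σ u z * σ w z = 1 ∧ σ v w * σ v z * σ w z = -1) := by
  have h4 := h.four hu hv hw hz huv huw huz hvw hvz hwz h1
  rcases h.val u v with a1 | a1 <;> rcases h.val u w with a2 | a2 <;>
    rcases h.val v w with a3 | a3 <;> rcases h.val u z with a4 | a4 <;>
    rcases h.val v z with a5 | a5 <;> rcases h.val w z with a6 | a6 <;>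
    (revert h1 h4; rw [a1, a2, a3, a4, a5, a6]; norm_num)

/-- If `(u,v,z)` and `(u,v,z')` are negative then `σ zz' = σ zu σ z'u`: otherwise `(z,z',u)` is
negative, hence (product of four) also `(z,z',v)`, against `four`. -/
lemma gram (h : Sg N σ) {u v z z' : V} (hu : u ∈ N) (hv : v ∈ N) (hz : z ∈ N) (hz' : z' ∈ N)
    (huv : u ≠ v) (huz : u ≠ z) (huz' : u ≠ z') (hvz : v ≠ z) (hvz' : v ≠ z') (hzz : z ≠ z')
    (h1 : σ u v * σ u z * σ v z = -1) (h2 : σ u v * σ u z' * σ v z' = -1) :
    σ z z' = σ z u * σ z' u := by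
  have h4 := h.four hu hv hz hz' huv huz huz' hvz hvz' hzz h1 h2
  rw [h.sym z u, h.sym z' u]
  rcases h.val u v with a1 | a1 <;> rcases h.val u z with a2 | a2 <;>
    rcases h.val v z with a3 | a3 <;> rcases h.val u z' with a4 | a4 <;>
    rcases h.val v z' with a5 | a5 <;> rcases h.val z z' with a6 | a6 <;>
    (revert h1 h2 h4; rw [a1, a2, a3, a4, a5, a6]; norm_num)

end Sg

end Pool.Agent.H2.RG
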