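import Mathlib
import Pool.Agent.H2.RG.SeidelA1

/-!
# Signed complete graphs with `3 I + S` positive definite   [H2 RG SeidelA2]

A self-contained statement on `±1` matrices.  `N` a finite set, `σ u v = ±1` symmetric, the form
`∑ Sm σ u v g u g v` (`Sm = 3` on the diagonal, `σ` off the diagonal) positive definite on
functions supported on `N` (structure `Sg`).  `τ(u,v,w) = σ uv σ uw σ vw`.
-/

namespace Pool.Agent.H2.RG

open Finset

set_option linter.unusedSectionVars false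

variable {V : Type} [DecidableEq V]

namespace Sg

variable {N : Finset V} {σ : V → V → ℝ}

/-- **No mixed types.**  `(u,v,w)` negative, four points `z₁, …, z₄` of type `uv` and one point
`z₅` of type `uw` are impossible.
Proof: `pd_switch` on `(u, v, w, z₁, …, z₄, z₅)` with
`θ = (1, σ uv, σ uw, σ uz₁, …, σ uz₄, σ uz₅)`: the switched matrix `σ' x y = θ x θ y σ x y` has
`σ'(u,·) = 1`, `σ' vw = -1`, `σ' vzᵢ = -1`, `σ' wzᵢ = 1`, `σ' vz₅ = 1`, `σ' wz₅ = -1`,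
`σ' zᵢzⱼ = 1` (`gram`), `σ' zᵢz₅ = cᵢ = ± 1`.  With `C = c₁ + c₂ + c₃ + c₄` the vector
`x = (C/2 - 1, -C/2, 1, -c₁, -c₂, -c₃, -c₄, 2)` gives
`3 (C²/2 - C + 10) + 2 (-(3/4) C² + (3/2) C - 15) = 0`. -/
lemma no_mixed (h : Sg N σ) {u v w z1 z2 z3 z4 z5 : V}
    (hN : ∀ i, (![u, v, w, z1, z2, z3, z4, z5] : Fin 8 → V) i ∈ N)
    (hinj : Function.Injective (![u, v, w, z1, z2, z3, z4, z5] : Fin 8 → V))
    (h0 : σ u v * σ u w * σ v w = -1)
    (h1 : σ u v * σ u z1 * σ v z1 = -1) (h1' : σ u w * σ u z1 * σ w z1 = 1)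
    (h2 : σ u v * σ u z2 * σ v z2 = -1) (h2' : σ u w * σ u z2 * σ w z2 = 1)
    (h3 : σ u v * σ u z3 * σ v z3 = -1) (h3' : σ u w * σ u z3 * σ w z3 = 1)
    (h4 : σ u v * σ u z4 * σ v z4 = -1) (h4' : σ u w * σ u z4 * σ w z4 = 1)
    (h5 : σ u v * σ u z5 * σ v z5 = 1) (h5' : σ u w * σ u z5 * σ w z5 = -1) : False := by
  have hu : u ∈ N := hN 0
  have hv : v ∈ N := hN 1
  have hw : w ∈ N := hN 2
  have m1 : z1 ∈ N := hN 3
  have m2 : z2 ∈ N := hN 4
  have m3 : z3 ∈ N := hN 5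
  have m4 : z4 ∈ N := hN 6
  have m5 : z5 ∈ N := hN 7
  have ne : ∀ i j : Fin 8, i ≠ j → (![u, v, w, z1, z2, z3, z4, z5] : Fin 8 → V) i ≠
      (![u, v, w, z1, z2, z3, z4, z5] : Fin 8 → V) j := fun i j hij hh => hij (hinj hh)
  have n01 : u ≠ v := ne 0 1 (by decide)
  have n02 : u ≠ w := ne 0 2 (by decide)
  have n03 : u ≠ z1 := ne 0 3 (by decide)
  have n04 : u ≠ z2 := ne 0 4 (by decide)
  have n05 : u ≠ z3 := ne 0 5 (by decide)
  have n06 : u ≠ z4 := ne 0 6 (by decide)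
  have n07 : u ≠ z5 := ne 0 7 (by decide)
  have n12 : v ≠ w := ne 1 2 (by decide)
  have n13 : v ≠ z1 := ne 1 3 (by decide)
  have n14 : v ≠ z2 := ne 1 4 (by decide)
  have n15 : v ≠ z3 := ne 1 5 (by decide)
  have n16 : v ≠ z4 := ne 1 6 (by decide)
  have n17 : v ≠ z5 := ne 1 7 (by decide)
  have n23 : w ≠ z1 := ne 2 3 (by decide)
  have n24 : w ≠ z2 := ne 2 4 (by decide)
  have n25 : w ≠ z3 := ne 2 5 (by decide)
  have n26 : w ≠ z4 := ne 2 6 (by decide)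
  have n27 : w ≠ z5 := ne 2 7 (by decide)
  have n34 : z1 ≠ z2 := ne 3 4 (by decide)
  have n35 : z1 ≠ z3 := ne 3 5 (by decide)
  have n36 : z1 ≠ z4 := ne 3 6 (by decide)
  have n37 : z1 ≠ z5 := ne 3 7 (by decide)
  have n45 : z2 ≠ z3 := ne 4 5 (by decide)
  have n46 : z2 ≠ z4 := ne 4 6 (by decide)
  have n47 : z2 ≠ z5 := ne 4 7 (by decide)
  have n56 : z3 ≠ z4 := ne 5 6 (by decide)
  have n57 : z3 ≠ z5 := ne 5 7 (by decide)
  have n67 : z4 ≠ z5 := ne 6 7 (by decide)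
  have g12 := h.gram hu hv m1 m2 n01 n03 n04 n13 n14 n34 h1 h2
  have g13 := h.gram hu hv m1 m3 n01 n03 n05 n13 n15 n35 h1 h3
  have g14 := h.gram hu hv m1 m4 n01 n03 n06 n13 n16 n36 h1 h4
  have g23 := h.gram hu hv m2 m3 n01 n04 n05 n14 n15 n45 h2 h3
  have g24 := h.gram hu hv m2 m4 n01 n04 n06 n14 n16 n46 h2 h4
  have g34 := h.gram hu hv m3 m4 n01 n05 n06 n15 n16 n56 h3 h4
  rw [h.sym z1 u, h.sym z2 u] at g12
  rw [h.sym z1 u, h.sym z3 u] at g13
  rw [h.sym z1 u, h.sym z4 u] at g14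
  rw [h.sym z2 u, h.sym z3 u] at g23
  rw [h.sym z2 u, h.sym z4 u] at g24
  rw [h.sym z3 u, h.sym z4 u] at g34
  have q1 := h.sq_one u v
  have q2 := h.sq_one u w
  have r1 := h.sq_one u z1
  have r2 := h.sq_one u z2
  have r3 := h.sq_one u z3
  have r4 := h.sq_one u z4
  have r5 := h.sq_one u z5
  -- the other entries
  have e0 : σ v w = -(σ u v * σ u w) := by linear_combination (σ u v * σ u w) * h0 - σ v w * (σ u w * σ u w) * q1 - σ v w * q2
  have mk : ∀ z s t, σ u z * σ u z = 1 → σ u t * σ u t = 1 → σ u t * σ u z * σ t z = s → σ t z = s * (σ u t * σ u z) := by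
    intro z s t hz ht hs
    linear_combination (σ u t * σ u z) * hs - σ t z * (σ u z * σ u z) * ht - σ t z * hz
  have a1 := mk z1 _ v r1 q1 h1
  have a2 := mk z2 _ v r2 q1 h2
  have a3 := mk z3 _ v r3 q1 h3
  have a4 := mk z4 _ v r4 q1 h4
  have a5 := mk z5 _ v r5 q1 h5
  have b1 := mk z1 _ w r1 q2 h1'
  have b2 := mk z2 _ w r2 q2 h2'
  have b3 := mk z3 _ w r3 q2 h3'
  have b4 := mk z4 _ w r4 q2 h4'
  have b5 := mk z5 _ w r5 q2 h5'
  obtain ⟨c1, hc1⟩ : ∃ c, c = σ z1 z5 * σ u z1 * σ u z5 := ⟨_, rfl⟩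
  obtain ⟨c2, hc2⟩ : ∃ c, c = σ z2 z5 * σ u z2 * σ u z5 := ⟨_, rfl⟩
  obtain ⟨c3, hc3⟩ : ∃ c, c = σ z3 z5 * σ u z3 * σ u z5 := ⟨_, rfl⟩
  obtain ⟨c4, hc4⟩ : ∃ c, c = σ z4 z5 * σ u z4 * σ u z5 := ⟨_, rfl⟩
  have s1 : c1 * c1 = 1 := by
    rw [hc1]
    have := h.sq_one z1 z5
    linear_combination (σ u z1 * σ u z1) * (σ u z5 * σ u z5) * this + (σ u z5 * σ u z5) * r1 + r5
  have s2 : c2 * c2 = 1 := by
    rw [hc2]
    have := h.sq_one z2 z5
    linear_combination (σ u z2 * σ u z2) * (σ u z5 * σ u z5) * this + (σ u z5 * σ u z5) * r2 + r5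
  have s3 : c3 * c3 = 1 := by
    rw [hc3]
    have := h.sq_one z3 z5
    linear_combination (σ u z3 * σ u z3) * (σ u z5 * σ u z5) * this + (σ u z5 * σ u z5) * r3 + r5
  have s4 : c4 * c4 = 1 := by
    rw [hc4]
    have := h.sq_one z4 z5
    linear_combination (σ u z4 * σ u z4) * (σ u z5 * σ u z5) * this + (σ u z5 * σ u z5) * r4 + r5
  have d1 : σ z1 z5 = c1 * (σ u z1 * σ u z5) := by
    rw [hc1]; linear_combination -(σ z1 z5 * (σ u z5 * σ u z5)) * r1 - σ z1 z5 * r5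
  have d2 : σ z2 z5 = c2 * (σ u z2 * σ u z5) := by
    rw [hc2]; linear_combination -(σ z2 z5 * (σ u z5 * σ u z5)) * r2 - σ z2 z5 * r5
  have d3 : σ z3 z5 = c3 * (σ u z3 * σ u z5) := by
    rw [hc3]; linear_combination -(σ z3 z5 * (σ u z5 * σ u z5)) * r3 - σ z3 z5 * r5
  have d4 : σ z4 z5 = c4 * (σ u z4 * σ u z5) := by
    rw [hc4]; linear_combination -(σ z4 z5 * (σ u z5 * σ u z5)) * r4 - σ z4 z5 * r5
  clear hc1 hc2 hc3 hc4
  have key := h.pd_switch (![u, v, w, z1, z2, z3, z4, z5] : Fin 8 → V) hinj hN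
    (![1, σ u v, σ u w, σ u z1, σ u z2, σ u z3, σ u z4, σ u z5] : Fin 8 → ℝ)
    (by
      intro i
      fin_cases i
      · exact Or.inl rfl
      · exact h.val u v
      · exact h.val u w
      · exact h.val u z1
      · exact h.val u z2
      · exact h.val u z3
      · exact h.val u z4
      · exact h.val u z5)
    (![(c1 + c2 + c3 + c4) / 2 - 1, -(c1 + c2 + c3 + c4) / 2, 1, -c1, -c2, -c3, -c4, 2] :
      Fin 8 → ℝ)
    (by
      intro h6
      have h7 : (2 : ℝ) = 0 := congrFun h6 7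
      norm_num at h7)
  simp only [Fin.sum_univ_eight, Sm, Matrix.cons_val_zero, Matrix.cons_val_one,
    Matrix.cons_val, if_true, if_neg n01, if_neg n02, if_neg n03, if_neg n04, if_neg n05,
    if_neg n06, if_neg n07, if_neg n12, if_neg n13, if_neg n14, if_neg n15, if_neg n16,
    if_neg n17, if_neg n23, if_neg n24, if_neg n25, if_neg n26, if_neg n27, if_neg n34,
    if_neg n35, if_neg n36, if_neg n37, if_neg n45, if_neg n46, if_neg n47, if_neg n56,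
    if_neg n57, if_neg n67,
    if_neg n01.symm, if_neg n02.symm, if_neg n03.symm, if_neg n04.symm, if_neg n05.symm,
    if_neg n06.symm, if_neg n07.symm, if_neg n12.symm, if_neg n13.symm, if_neg n14.symm,
    if_neg n15.symm, if_neg n16.symm, if_neg n17.symm, if_neg n23.symm, if_neg n24.symm,
    if_neg n25.symm, if_neg n26.symm, if_neg n27.symm, if_neg n34.symm,
    if_neg n35.symm, if_neg n36.symm, if_neg n37.symm, if_neg n45.symm, if_neg n46.symm,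
    if_neg n47.symm, if_neg n56.symm, if_neg n57.symm, if_neg n67.symm,
    h.sym v u, h.sym w u, h.sym z1 u, h.sym z2 u, h.sym z3 u, h.sym z4 u, h.sym z5 u,
    h.sym w v, h.sym z1 v, h.sym z2 v, h.sym z3 v, h.sym z4 v, h.sym z5 v,
    h.sym z1 w, h.sym z2 w, h.sym z3 w, h.sym z4 w, h.sym z5 w,
    h.sym z2 z1, h.sym z3 z1, h.sym z4 z1, h.sym z5 z1, h.sym z3 z2, h.sym z4 z2, h.sym z5 z2,
    h.sym z4 z3, h.sym z5 z3, h.sym z5 z4,
    e0, a1, a2, a3, a4, a5, b1, b2, b3, b4, b5, g12, g13, g14, g23, g24, g34, d1, d2, d3, d4]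
    at key
  clear e0 a1 a2 a3 a4 a5 b1 b2 b3 b4 b5 g12 g13 g14 g23 g24 g34 d1 d2 d3 d4 h0 h1 h1' h2 h2'
    h3 h3' h4 h4' h5 h5' mk hinj hN ne
  generalize σ u v = A at *
  generalize σ u w = B at *
  generalize σ u z1 = x1 at *
  generalize σ u z2 = x2 at *
  generalize σ u z3 = x3 at *
  generalize σ u z4 = x4 at *
  generalize σ u z5 = x5 at *
  have qA : A ^ 2 = 1 := by rw [sq]; exact q1
  have qB : B ^ 2 = 1 := by rw [sq]; exact q2
  have y1 : x1 ^ 2 = 1 := by rw [sq]; exact r1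
  have y2 : x2 ^ 2 = 1 := by rw [sq]; exact r2
  have y3 : x3 ^ 2 = 1 := by rw [sq]; exact r3
  have y4 : x4 ^ 2 = 1 := by rw [sq]; exact r4
  have y5 : x5 ^ 2 = 1 := by rw [sq]; exact r5
  have t1 : c1 ^ 2 = 1 := by rw [sq]; exact s1
  have t2 : c2 ^ 2 = 1 := by rw [sq]; exact s2
  have t3 : c3 ^ 2 = 1 := by rw [sq]; exact s3
  have t4 : c4 ^ 2 = 1 := by rw [sq]; exact s4
  ring_nf at key
  simp only [qA, qB, y1, y2, y3, y4, y5, t1, t2, t3, t4] at key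
  ring_nf at key
  linarith

end Sg

end Pool.Agent.H2.RG
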