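import Mathlib
import Pool.Agent.H2.RG.SeidelA2

/-!
# Classification of the signed graphs with `3 I + S > 0` on at least 13 points   [H2 RG SeidelB]
-/

namespace Pool.Agent.H2.RG

open Finset

set_option linter.unusedSectionVars false

variable {V : Type} [DecidableEq V]

namespace Sg

variable {N : Finset V} {σ : V → V → ℝ}

/-- If four points have type `uv` then all other points have type `uv`. -/
private lemma core_type (h : Sg N σ) {u v w : V} (hu : u ∈ N) (hv : v ∈ N)
    (hw : w ∈ N) (huv : u ≠ v) (huw : u ≠ w) (hvw : v ≠ w)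
    (h1 : σ u v * σ u w * σ v w = -1)
    (hT : 4 ≤ (N.filter fun z => z ≠ u ∧ z ≠ v ∧ z ≠ w ∧ σ u v * σ u z * σ v z = -1).card) :
    ∀ z ∈ N, z ≠ u → z ≠ v → z ≠ w → σ u v * σ u z * σ v z = -1 ∧
        σ u w * σ u z * σ w z = 1 ∧ σ v w * σ v z * σ w z = 1 := by
  obtain ⟨T, hTdef⟩ : ∃ T, T = N.filter fun z => z ≠ u ∧ z ≠ v ∧ z ≠ w ∧
    σ u v * σ u z * σ v z = -1 := ⟨_, rfl⟩
  rw [← hTdef] at hT
  obtain ⟨f⟩ : Nonempty (Fin 4 ↪ T) :=
    Function.Embedding.nonempty_of_card_le (by simpa using hT)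
  have hf : ∀ i, (f i : V) ∈ N ∧ (f i : V) ≠ u ∧ (f i : V) ≠ v ∧ (f i : V) ≠ w ∧
      σ u v * σ u (f i) * σ v (f i) = -1 := by
    intro i
    have hmem : ∀ y ∈ T, y ∈ N ∧ y ≠ u ∧ y ≠ v ∧ y ≠ w ∧ σ u v * σ u y * σ v y = -1 := by
      intro y hy
      rw [hTdef] at hy
      exact mem_filter.1 hy
    exact hmem _ (f i).2
  have hfull : ∀ i, σ u w * σ u (f i) * σ w (f i) = 1 ∧ σ v w * σ v (f i) * σ w (f i) = 1 := by
    intro i
    obtain ⟨a1, a2, a3, a4, a5⟩ := hf i
    rcases h.types hu hv hw a1 huv huw (Ne.symm a2) hvw (Ne.symm a3) (Ne.symm a4) h1 with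
      ⟨_, b2, b3⟩ | ⟨b1, _, _⟩ | ⟨b1, _, _⟩
    · exact ⟨b2, b3⟩
    · rw [a5] at b1; norm_num at b1
    · rw [a5] at b1; norm_num at b1
  have hne : ∀ i j, i ≠ j → (f i : V) ≠ f j := by
    intro i j hij e
    exact hij (f.injective (Subtype.ext e))
  have n01 := hne 0 1 (by decide)
  have n02 := hne 0 2 (by decide)
  have n03 := hne 0 3 (by decide)
  have n12 := hne 1 2 (by decide)
  have n13 := hne 1 3 (by decide)
  have n23 := hne 2 3 (by decide)
  obtain ⟨a0, au0, av0, aw0, t0⟩ := hf 0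
  obtain ⟨a1, au1, av1, aw1, t1⟩ := hf 1
  obtain ⟨a2, au2, av2, aw2, t2⟩ := hf 2
  obtain ⟨a3, au3, av3, aw3, t3⟩ := hf 3
  obtain ⟨r0, q0⟩ := hfull 0
  obtain ⟨r1, q1⟩ := hfull 1
  obtain ⟨r2, q2⟩ := hfull 2
  obtain ⟨r3, q3⟩ := hfull 3
  intro z hz hzu hzv hzw
  rcases h.types hu hv hw hz huv huw (Ne.symm hzu) hvw (Ne.symm hzv) (Ne.symm hzw) h1 with
      hc | ⟨b1, b2, _⟩ | ⟨b1, _, b3⟩
  · exact hc
  · exfalso
    have hzf : ∀ i, (f i : V) ≠ z := by
      intro i e
      have := (hf i).2.2.2.2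
      rw [e, b1] at this
      norm_num at this
    have e0 := hzf 0
    have e1 := hzf 1
    have e2 := hzf 2
    have e3 := hzf 3
    refine h.no_mixed (u := u) (v := v) (w := w) (z1 := f 0) (z2 := f 1) (z3 := f 2) (z4 := f 3)
      (z5 := z) ?_ ?_ h1 t0 r0 t1 r1 t2 r2 t3 r3 b1 b2
    · intro i
      fin_cases i <;> assumption
    · intro i j hij
      fin_cases i <;> fin_cases j <;> first
        | rfl
        | (exfalso; first
            | exact absurd hij (by assumption)
            | exact absurd hij.symm (by assumption))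
  · exfalso
    have hzf : ∀ i, (f i : V) ≠ z := by
      intro i e
      have := (hf i).2.2.2.2
      rw [e, b1] at this
      norm_num at this
    have e0 := hzf 0
    have e1 := hzf 1
    have e2 := hzf 2
    have e3 := hzf 3
    have sw : ∀ x y : V, σ v u * σ v x * σ u y = σ u v * σ u y * σ v x := by
      intro x y
      rw [h.sym v u]; ring
    refine h.no_mixed (u := v) (v := u) (w := w) (z1 := f 0) (z2 := f 1) (z3 := f 2) (z4 := f 3)
      (z5 := z) ?_ ?_ (by rw [sw]; exact h1) (by rw [sw]; exact t0) q0 (by rw [sw]; exact t1) q1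
      (by rw [sw]; exact t2) q2 (by rw [sw]; exact t3) q3 (by rw [sw]; exact b1) b3
    · intro i
      fin_cases i <;> assumption
    · intro i j hij
      fin_cases i <;> fin_cases j <;> first
        | rfl
        | (exfalso; first
            | exact absurd hij (by assumption)
            | exact absurd hij.symm (by assumption))

/-- After relabelling a negative triple, all other points have type `uv`.
Proof: by `types` every other point has one of three types; there are at least ten other points,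
so some type occurs four times; relabel so that it is `uv` (the hypothesis on `(u,v,w)` is
symmetric).  A point `z₅` of type `uw` contradicts `no_mixed` for `(u,v,w)`, a point of type `vw`
contradicts `no_mixed` for `(v,u,w)`. -/
lemma same_type (h : Sg N σ) (hN : 13 ≤ N.card) {u v w : V} (hu : u ∈ N) (hv : v ∈ N)
    (hw : w ∈ N) (huv : u ≠ v) (huw : u ≠ w) (hvw : v ≠ w)
    (h1 : σ u v * σ u w * σ v w = -1) :
    ∃ u' v' w', u' ∈ N ∧ v' ∈ N ∧ w' ∈ N ∧ u' ≠ v' ∧ u' ≠ w' ∧ v' ≠ w' ∧
      σ u' v' * σ u' w' * σ v' w' = -1 ∧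
      ∀ z ∈ N, z ≠ u' → z ≠ v' → z ≠ w' → σ u' v' * σ u' z * σ v' z = -1 ∧
        σ u' w' * σ u' z * σ w' z = 1 ∧ σ v' w' * σ v' z * σ w' z = 1 := by
  obtain ⟨T1, hT1⟩ : ∃ T, T = N.filter fun z => z ≠ u ∧ z ≠ v ∧ z ≠ w ∧
    σ u v * σ u z * σ v z = -1 := ⟨_, rfl⟩
  obtain ⟨T2, hT2⟩ : ∃ T, T = N.filter fun z => z ≠ u ∧ z ≠ w ∧ z ≠ v ∧
    σ u w * σ u z * σ w z = -1 := ⟨_, rfl⟩
  obtain ⟨T3, hT3⟩ : ∃ T, T = N.filter fun z => z ≠ v ∧ z ≠ w ∧ z ≠ u ∧
    σ v w * σ v z * σ w z = -1 := ⟨_, rfl⟩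
  have hcov : N ⊆ {u, v, w} ∪ (T1 ∪ T2 ∪ T3) := by
    intro z hz
    by_cases hzu : z = u
    · simp [hzu]
    by_cases hzv : z = v
    · simp [hzv]
    by_cases hzw : z = w
    · simp [hzw]
    rcases h.types hu hv hw hz huv huw (Ne.symm hzu) hvw (Ne.symm hzv) (Ne.symm hzw) h1 with
      ⟨c, _, _⟩ | ⟨_, c, _⟩ | ⟨_, _, c⟩
    · have : z ∈ T1 := by rw [hT1]; exact mem_filter.2 ⟨hz, hzu, hzv, hzw, c⟩
      simp [this]
    · have : z ∈ T2 := by rw [hT2]; exact mem_filter.2 ⟨hz, hzu, hzw, hzv, c⟩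
      simp [this]
    · have : z ∈ T3 := by rw [hT3]; exact mem_filter.2 ⟨hz, hzv, hzw, hzu, c⟩
      simp [this]
  have hcard : N.card ≤ 3 + (T1.card + T2.card + T3.card) := by
    calc N.card ≤ ({u, v, w} ∪ (T1 ∪ T2 ∪ T3)).card := card_le_card hcov
      _ ≤ ({u, v, w} : Finset V).card + (T1 ∪ T2 ∪ T3).card := card_union_le _ _
      _ ≤ 3 + (T1.card + T2.card + T3.card) :=
        Nat.add_le_add card_le_three
          ((card_union_le _ _).trans (Nat.add_le_add_right (card_union_le _ _) _))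
  have hsome : 4 ≤ T1.card ∨ 4 ≤ T2.card ∨ 4 ≤ T3.card := by omega
  rcases hsome with hT | hT | hT
  · exact ⟨u, v, w, hu, hv, hw, huv, huw, hvw, h1,
      core_type h hu hv hw huv huw hvw h1 (by rw [← hT1]; exact hT)⟩
  · have h1' : σ u w * σ u v * σ w v = -1 := by rw [h.sym w v, ← h1]; ring
    exact ⟨u, w, v, hu, hw, hv, huw, huv, Ne.symm hvw, h1',
      core_type h hu hw hv huw huv (Ne.symm hvw) h1' (by rw [← hT2]; exact hT)⟩
  · have h1' : σ v w * σ v u * σ w u = -1 := by rw [h.sym w u, h.sym v u, ← h1]; ring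
    exact ⟨v, w, u, hv, hw, hu, hvw, Ne.symm huv, Ne.symm huw, h1',
      core_type h hv hw hu hvw (Ne.symm huv) (Ne.symm huw) h1' (by rw [← hT3]; exact hT)⟩

/-- **The classification**: up to switching all signs are `+`, except for at most one pair.
Proof.  If there is no negative triple fix `o ∈ N` and put `ε v = σ o v` (`ε o = 1`),
`p = q = o`.  Otherwise take `u' v' w'` of `same_type` and put `p = u'`, `q = v'`,
`ε z = σ w' z`, `ε w' = 1`:  for `z ≠ z'` outside `{u', v', w'}` `gram` gives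
`σ zz' = σ zu' σ z'u'`, and `τ(u',w',z) = 1` gives `σ zu' = σ w'z σ w'u'`, so
`σ zz' = σ w'z σ w'z'`; the same relation is the claim for the pairs `(z, u')`, and
`τ(v',w',z) = 1` for the pairs `(z, v')`.  Pairs containing `w'` are clear. -/
theorem classify (h : Sg N σ) (hN : 13 ≤ N.card) :
    ∃ (ε : V → ℝ) (p q : V), (∀ v, ε v = 1 ∨ ε v = -1) ∧
      ∀ u ∈ N, ∀ v ∈ N, u ≠ v → ¬ (u = p ∧ v = q) → ¬ (u = q ∧ v = p) →
        σ u v = ε u * ε v := by
  have solve : ∀ x y z w : V, σ x y * σ x z * σ w z = 1 → σ x z = σ x y * σ w z := by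
    intro x y z w e
    rcases h.val x y with a | a <;> rcases h.val w z with b | b <;> rw [a, b] at e ⊢ <;> linarith
  by_cases hneg : ∃ u v w, u ∈ N ∧ v ∈ N ∧ w ∈ N ∧ u ≠ v ∧ u ≠ w ∧ v ≠ w ∧
      σ u v * σ u w * σ v w = -1
  · obtain ⟨u, v, w, hu, hv, hw, huv, huw, hvw, h1⟩ := hneg
    obtain ⟨u, v, w, hu, hv, hw, huv, huw, hvw, h1, hall⟩ :=
      same_type h hN hu hv hw huv huw hvw h1
    refine ⟨fun z => if z = w then 1 else σ w z, u, v, ?_, ?_⟩
    · intro z
      by_cases hz : z = w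
      · simp [hz]
      · simp only [if_neg hz]; exact h.val w z
    · intro a ha b hb hab hn1 hn2
      by_cases haw : a = w
      · subst haw
        simp [Ne.symm hab]
      by_cases hbw : b = w
      · subst hbw
        simp only [if_neg haw, if_true, mul_one]
        exact h.sym a b
      simp only [if_neg haw, if_neg hbw]
      -- relations for the points `u` and `v`
      have hU : ∀ z ∈ N, z ≠ u → z ≠ v → z ≠ w → σ u z = σ w u * σ w z := by
        intro z hz z1 z2 z3
        rw [h.sym w u]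
        exact solve u w z w (hall z hz z1 z2 z3).2.1
      have hV : ∀ z ∈ N, z ≠ u → z ≠ v → z ≠ w → σ v z = σ w v * σ w z := by
        intro z hz z1 z2 z3
        rw [h.sym w v]
        exact solve v w z w (hall z hz z1 z2 z3).2.2
      by_cases hau : a = u
      · rw [hau]
        have hbv : b ≠ v := fun e => hn1 ⟨hau, e⟩
        exact hU b hb (fun e => hab (hau.trans e.symm)) hbv hbw
      by_cases hbu : b = u
      · rw [hbu, h.sym a u]
        have hav : a ≠ v := fun e => hn2 ⟨e, hbu⟩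
        rw [hU a ha hau hav haw, mul_comm]
      by_cases hav : a = v
      · rw [hav]
        exact hV b hb hbu (fun e => hab (hav.trans e.symm)) hbw
      by_cases hbv : b = v
      · rw [hbv, h.sym a v, hV a ha hau hav haw, mul_comm]
      have g := h.gram hu hv ha hb huv (Ne.symm hau) (Ne.symm hbu) (Ne.symm hav) (Ne.symm hbv) hab
        (hall a ha hau hav haw).1 (hall b hb hbu hbv hbw).1
      rw [g, h.sym a u, h.sym b u, hU a ha hau hav haw, hU b hb hbu hbv hbw]
      rcases h.val w u with e | e <;> rw [e] <;> ring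
  · have hN0 : N.Nonempty := card_pos.1 (by omega)
    obtain ⟨o, ho⟩ := hN0
    refine ⟨fun z => if z = o then 1 else σ o z, o, o, ?_, ?_⟩
    · intro z
      by_cases hz : z = o
      · simp [hz]
      · simp only [if_neg hz]; exact h.val o z
    · intro a ha b hb hab _ _
      by_cases hao : a = o
      · subst hao
        simp [Ne.symm hab]
      by_cases hbo : b = o
      · subst hbo
        simp only [if_neg hao, if_true, mul_one]
        exact h.sym a b
      simp only [if_neg hao, if_neg hbo]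
      have e1 : σ o a * σ o b * σ a b ≠ -1 := fun e =>
        hneg ⟨o, a, b, ho, ha, hb, Ne.symm hao, Ne.symm hbo, hab, e⟩
      rcases h.val o a with x | x <;> rcases h.val o b with y | y <;>
        rcases h.val a b with z | z <;> rw [x, y, z] at e1 <;> rw [x, y, z] <;>
        first
          | (norm_num; done)
          | (exfalso; norm_num at e1)

end Sg

end Pool.Agent.H2.RG
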