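import Mathlib
import Pool.Agent.H2.RG.LocalA3
import Pool.Agent.H2.RG.SeidelB

/-!
# The local structure of a graph with `A(H) + (2 - s) I ≥ 0`   [H2 RG LocalB1]
-/

namespace Pool.Agent.H2.RG

open Finset Classical Pool.Agent.H17.Exact

set_option linter.unusedSectionVars false

variable {V : Type} [Fintype V] {H : SimpleGraph V} {s : ℝ}

/-- the neighbourhood -/
noncomputable def NH (H : SimpleGraph V) (x : V) : Finset V := univ.filter (H.Adj x)

lemma mem_NH {x u : V} : u ∈ NH H x ↔ H.Adj x u := by simp [NH]

/-- the signs `1` for adjacent, `-1` for nonadjacent -/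
noncomputable def sg (H : SimpleGraph V) (u v : V) : ℝ := if H.Adj u v then 1 else -1

/-- For `g` supported on `N = N(x)`, `g ≠ 0`, put `f = g - ((∑ g)/2) δ_x`.  With the form
`B H s` (`B_add_left`, `B_smul_left`, ..., `B H s (Pi.single x 1) g = ∑ v ∈ N, g v`,
`B H s (Pi.single x 1) (Pi.single x 1) = 2 - s`):
`0 ≤ B f f = B g g - (∑ g)²/2 - s (∑ g)²/4
  = (1/2) ∑_{u,v ∈ N} Sm σ u v g u g v - s ∑ g² - s (∑ g)²/4`. -/
lemma sg_of_psd (h : Psd H s) (hs : 0 < s) (x : V) : Sg (NH H x) (sg H) := by
  refine ⟨?_, ?_, ?_⟩
  · intro u v
    unfold sg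
    rw [H.adj_comm]
  · intro u v
    unfold sg
    split_ifs
    · exact Or.inl rfl
    · exact Or.inr rfl
  · intro g hg hne
    have hx : g x = 0 := hg x (by rw [mem_NH]; exact H.loopless.irrefl x)
    have e1 : ∑ u ∈ NH H x, ∑ v ∈ NH H x, Sm (sg H) u v * g u * g v =
        ∑ u, ∑ v, Sm (sg H) u v * g u * g v := by
      rw [← sum_subset (subset_univ (NH H x))]
      · refine sum_congr rfl fun u _ => ?_
        rw [← sum_subset (subset_univ (NH H x))]
        intro v _ hv
        rw [hg v hv, mul_zero]
      · intro u _ hu
        refine sum_eq_zero fun v _ => ?_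
        rw [hg u hu]
        ring
    have e2 : B H s g g = 1 / 2 * ∑ u, ∑ v, Sm (sg H) u v * g u * g v +
        1 / 2 * (∑ v, g v) ^ 2 - s * ∑ u, g u ^ 2 := by
      have e3 : ∀ u v, g u * g v * M H s u v = 1 / 2 * (Sm (sg H) u v * g u * g v) +
          1 / 2 * (g u * g v) - s * (if u = v then g u * g v else 0) := by
        intro u v
        unfold M Sm sg
        by_cases huv : u = v
        · subst huv
          simp only [if_true]
          ring
        · rw [if_neg huv, if_neg huv, if_neg huv]
          split_ifs <;> ring
      unfold B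
      simp only [e3, sum_sub_distrib, sum_add_distrib, ← mul_sum]
      congr 2
      · rw [sq, sum_mul]
      · refine sum_congr rfl fun u _ => ?_
        rw [sum_ite_eq]
        simp
        ring
    have e4 : B H s (Pi.single x 1) g = ∑ v, g v := by
      unfold B
      rw [sum_eq_single x]
      · refine sum_congr rfl fun v _ => ?_
        rw [Pi.single_eq_same, one_mul]
        unfold M
        by_cases hxv : x = v
        · subst hxv
          rw [hx, zero_mul]
        · rw [if_neg hxv]
          split_ifs with hadj
          · ring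
          · rw [hg v (by rw [mem_NH]; exact hadj)]
            ring
      · intro u _ hu
        refine sum_eq_zero fun v _ => ?_
        rw [Pi.single_eq_of_ne hu]
        ring
      · intro hh
        exact absurd (mem_univ x) hh
    have e4' : B H s g (Pi.single x 1) = ∑ v, g v := by
      rw [← e4]
      unfold B
      rw [sum_comm]
      refine sum_congr rfl fun u _ => sum_congr rfl fun v _ => ?_
      rw [M_comm]
      ring
    have e5 : B H s (Pi.single x 1) (Pi.single x 1) = 2 - s := by
      unfold B
      rw [sum_eq_single x]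
      · rw [sum_eq_single x]
        · rw [Pi.single_eq_same]
          unfold M
          simp
        · intro v _ hv
          rw [Pi.single_eq_of_ne hv]
          ring
        · intro hh
          exact absurd (mem_univ x) hh
      · intro u _ hu
        refine sum_eq_zero fun v _ => ?_
        rw [Pi.single_eq_of_ne hu]
        ring
      · intro hh
        exact absurd (mem_univ x) hh
    have h1 := h (g + (-((∑ v, g v) / 2)) • Pi.single x 1)
    simp only [B_add_left, B_add_right, B_smul_left, B_smul_right] at h1
    rw [e2, e4, e4', e5] at h1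
    rw [e1]
    have h2 : 0 < ∑ u, g u ^ 2 := by
      obtain ⟨v, hv⟩ := Function.ne_iff.1 hne
      refine sum_pos' (fun u _ => sq_nonneg _) ⟨v, mem_univ v, ?_⟩
      have : g v ≠ 0 := hv
      positivity
    have h3 : 0 < s * ∑ u, g u ^ 2 := mul_pos hs h2
    have h4 : 0 ≤ s * (∑ v, g v) ^ 2 := by positivity
    nlinarith

end Pool.Agent.H2.RG
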