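import Mathlib
import Pool.Agent.H2.RG.LocalB1

/-!
# The local structure of a graph with `A(H) + (2 - s) I ≥ 0`   [H2 RG LocalB2]
-/

namespace Pool.Agent.H2.RG

open Finset Classical Pool.Agent.H17.Exact

set_option linter.unusedSectionVars false

variable {V : Type} [Fintype V] {H : SimpleGraph V} {s : ℝ}

/-- the two exceptional cases are impossible -/
lemma local_exc (h : Psd H s) (hs : 0 < s) {x : V} (h13 : 13 ≤ (NH H x).card)
    (hn : 2 ≤ s * (NH H x).card) (P : V → Prop) (p q : V) (hp : p ∈ NH H x) (hq : q ∈ NH H x)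
    (hpq : p ≠ q) (hP : P p)
    (hrel : ∀ u ∈ NH H x, ∀ v ∈ NH H x, u ≠ v → ¬ (u = p ∧ v = q) → ¬ (u = q ∧ v = p) →
      (H.Adj u v ↔ (P u ↔ P v)))
    (hexc : ¬ (H.Adj p q ↔ (P p ↔ P q))) : False := by
  set N := NH H x with hN
  have hxN : ∀ u ∈ N, H.Adj x u := fun u hu => mem_NH.1 hu
  have hcard : (N.filter P).card + (N.filter (fun v => ¬ P v)).card = N.card :=
    Finset.card_filter_add_card_filter_not P
  by_cases hPq : P q
  · -- same class, not adjacent
    have hadj : ¬ H.Adj p q := by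
      intro h1
      exact hexc ⟨fun _ => ⟨fun _ => hPq, fun _ => hP⟩, fun _ => h1⟩
    have hA : ∀ u, u ∈ ((N.filter P).erase p).erase q ↔ u ≠ q ∧ u ≠ p ∧ u ∈ N ∧ P u := by
      intro u
      simp only [Finset.mem_erase, Finset.mem_filter]
    have hB : ∀ u, u ∈ N.filter (fun v => ¬ P v) ↔ u ∈ N ∧ ¬ P u := by
      intro u
      simp only [Finset.mem_filter]
    have hcA : (((N.filter P).erase p).erase q).card + 2 = (N.filter P).card := by
      have h1 : p ∈ N.filter P := Finset.mem_filter.2 ⟨hp, hP⟩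
      have h2 : q ∈ (N.filter P).erase p :=
        Finset.mem_erase.2 ⟨hpq.symm, Finset.mem_filter.2 ⟨hq, hPq⟩⟩
      have h3 := Finset.card_erase_add_one h1
      have h4 := Finset.card_erase_add_one h2
      omega
    have hcN : ((((N.filter P).erase p).erase q).card : ℝ) + (N.filter (fun v => ¬ P v)).card + 2 =
        N.card := by
      rw [← hcard, ← hcA]
      push_cast
      ring
    refine same_exc h hs (x := x) (p := p) (q := q) (A := ((N.filter P).erase p).erase q)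
      (B := N.filter (fun v => ¬ P v)) ?_ ?_ ?_ ?_ (hxN p hp) (hxN q hq) hadj hpq ?_ ?_ ?_ ?_ ?_ ?_ ?_
    · intro u hu v hv huv
      rw [hA] at hu hv
      exact (hrel u hu.2.2.1 v hv.2.2.1 huv (fun h1 => hu.2.1 h1.1) (fun h1 => hu.1 h1.1)).2
        ⟨fun _ => hv.2.2.2, fun _ => hu.2.2.2⟩
    · intro u hu v hv huv
      rw [hB] at hu hv
      refine (hrel u hu.1 v hv.1 huv (fun h1 => hu.2 (h1.1 ▸ hP)) (fun h1 => hu.2 (h1.1 ▸ hPq))).2
        ⟨fun h1 => absurd h1 hu.2, fun h1 => absurd h1 hv.2⟩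
    · intro u hu
      exact hxN u ((hA u).1 hu).2.2.1
    · intro u hu
      exact hxN u ((hB u).1 hu).1
    · intro u hu
      rw [hA] at hu
      exact (hrel p hp u hu.2.2.1 (Ne.symm hu.2.1) (fun h1 => hu.1 h1.2) (fun h1 => hpq h1.1)).2
        ⟨fun _ => hu.2.2.2, fun _ => hP⟩
    · intro u hu
      rw [hA] at hu
      exact (hrel q hq u hu.2.2.1 (Ne.symm hu.1) (fun h1 => hpq h1.1.symm) (fun h1 => hu.2.1 h1.2)).2
        ⟨fun _ => hu.2.2.2, fun _ => hPq⟩
    · intro u hu
      rw [hB] at hu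
      have hpu : p ≠ u := fun h1 => hu.2 (h1 ▸ hP)
      refine ⟨hpu, fun h1 => ?_⟩
      have h2 := (hrel p hp u hu.1 hpu (fun h1 => hu.2 (h1.2.symm ▸ hPq)) (fun h1 => hpq h1.1)).1 h1
      exact hu.2 (h2.1 hP)
    · intro u hu
      rw [hB] at hu
      have hqu : q ≠ u := fun h1 => hu.2 (h1 ▸ hPq)
      refine ⟨hqu, fun h1 => ?_⟩
      have h2 := (hrel q hq u hu.1 hqu (fun h1 => hpq h1.1.symm) (fun h1 => hu.2 (h1.2.symm ▸ hP))).1 h1
      exact hu.2 (h2.1 hPq)
    · intro u hu v hv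
      rw [hA] at hu
      rw [hB] at hv
      have huv : u ≠ v := fun h1 => hv.2 (h1 ▸ hu.2.2.2)
      refine ⟨huv, fun h1 => ?_⟩
      have h2 := (hrel u hu.2.2.1 v hv.1 huv (fun h1 => hu.2.1 h1.1) (fun h1 => hu.1 h1.1)).1 h1
      exact hv.2 (h2.1 hu.2.2.2)
    · omega
    · rw [hcN]
      exact hn
  · -- different classes, adjacent
    have hadj : H.Adj p q := by
      by_contra h1
      exact hexc ⟨fun h2 => absurd h2 h1, fun h2 => absurd (h2.1 hP) hPq⟩
    have hA : ∀ u, u ∈ (N.filter P).erase p ↔ u ≠ p ∧ u ∈ N ∧ P u := by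
      intro u
      simp only [Finset.mem_erase, Finset.mem_filter]
    have hB : ∀ u, u ∈ (N.filter (fun v => ¬ P v)).erase q ↔ u ≠ q ∧ u ∈ N ∧ ¬ P u := by
      intro u
      simp only [Finset.mem_erase, Finset.mem_filter]
    have hcA : ((N.filter P).erase p).card + 1 = (N.filter P).card :=
      Finset.card_erase_add_one (Finset.mem_filter.2 ⟨hp, hP⟩)
    have hcB : ((N.filter (fun v => ¬ P v)).erase q).card + 1 = (N.filter (fun v => ¬ P v)).card :=
      Finset.card_erase_add_one (Finset.mem_filter.2 ⟨hq, hPq⟩)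
    have hcN : (((N.filter P).erase p).card : ℝ) + ((N.filter (fun v => ¬ P v)).erase q).card + 2 =
        N.card := by
      rw [← hcard, ← hcA, ← hcB]
      push_cast
      ring
    refine cross_exc h hs (x := x) (p := p) (q := q) (A := (N.filter P).erase p)
      (B := (N.filter (fun v => ¬ P v)).erase q) ?_ ?_ ?_ ?_ (hxN p hp) (hxN q hq) hadj
      ?_ ?_ ?_ ?_ ?_ ?_ ?_
    · intro u hu v hv huv
      rw [hA] at hu hv
      exact (hrel u hu.2.1 v hv.2.1 huv (fun h1 => hu.1 h1.1) (fun h1 => hv.1 h1.2)).2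
        ⟨fun _ => hv.2.2, fun _ => hu.2.2⟩
    · intro u hu v hv huv
      rw [hB] at hu hv
      exact (hrel u hu.2.1 v hv.2.1 huv (fun h1 => hv.1 h1.2) (fun h1 => hu.1 h1.1)).2
        ⟨fun h1 => absurd h1 hu.2.2, fun h1 => absurd h1 hv.2.2⟩
    · intro u hu
      exact hxN u ((hA u).1 hu).2.1
    · intro u hu
      exact hxN u ((hB u).1 hu).2.1
    · intro u hu
      rw [hA] at hu
      exact (hrel p hp u hu.2.1 (Ne.symm hu.1) (fun h1 => hPq (h1.2 ▸ hu.2.2)) (fun h1 => hpq h1.1)).2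
        ⟨fun _ => hu.2.2, fun _ => hP⟩
    · intro u hu
      rw [hB] at hu
      exact (hrel q hq u hu.2.1 (Ne.symm hu.1) (fun h1 => hpq h1.1.symm)
        (fun h1 => hu.2.2 (h1.2.symm ▸ hP))).2
        ⟨fun h1 => absurd h1 hPq, fun h1 => absurd h1 hu.2.2⟩
    · intro u hu
      rw [hB] at hu
      have hpu : p ≠ u := fun h1 => hu.2.2 (h1 ▸ hP)
      refine ⟨hpu, fun h1 => ?_⟩
      have h2 := (hrel p hp u hu.2.1 hpu (fun h1 => hu.1 h1.2) (fun h1 => hpq h1.1)).1 h1
      exact hu.2.2 (h2.1 hP)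
    · intro u hu
      rw [hA] at hu
      have hqu : q ≠ u := fun h1 => hPq (h1.symm ▸ hu.2.2)
      refine ⟨hqu, fun h1 => ?_⟩
      have h2 := (hrel q hq u hu.2.1 hqu (fun h1 => hpq h1.1.symm) (fun h1 => hu.1 h1.2)).1 h1
      exact hPq (h2.2 hu.2.2)
    · intro u hu v hv
      rw [hA] at hu
      rw [hB] at hv
      have huv : u ≠ v := fun h1 => hv.2.2 (h1 ▸ hu.2.2)
      refine ⟨huv, fun h1 => ?_⟩
      have h2 := (hrel u hu.2.1 v hv.2.1 huv (fun h1 => hu.1 h1.1) (fun h1 => hPq (h1.1 ▸ hu.2.2))).1 h1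
      exact hv.2.2 (h2.1 hu.2.2)
    · omega
    · rw [hcN]
      exact hn

/-- **Local structure.**  If `|N(x)| ≥ 13` and `s |N(x)| ≥ 2` then `N(x)` is the disjoint union
of two (possibly empty) cliques without edges between them.
Proof: `Sg.classify` gives `ε, p, q`.  Put `A = {ε = 1}`, `B = {ε = -1}` (inside `N(x)`).  If the
pair `{p, q}` is an exception to `sg = ε ε` then `p ≠ q`, both in `N(x)`; the cases are:
`p, q` in different classes and adjacent (`cross_exc` for `A \ {p}`, `B \ {q}`, or with `p, q`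
exchanged), or in the same class and not adjacent (`same_exc` for `A \ {p, q}` and `B`, or
`B \ {p, q}` and `A`). -/
lemma local_structure (h : Psd H s) (hs : 0 < s) {x : V} (h13 : 13 ≤ (NH H x).card)
    (hn : 2 ≤ s * (NH H x).card) :
    ∃ A B : Finset V, A ∪ B = NH H x ∧ Disjoint A B ∧ Clq H A ∧ Clq H B ∧
      ∀ u ∈ A, ∀ v ∈ B, ¬ H.Adj u v := by
  obtain ⟨ε, p, q, hε, hcl⟩ := (sg_of_psd h hs x).classify h13
  have hrel : ∀ u v, sg H u v = ε u * ε v → (H.Adj u v ↔ ε u = ε v) := by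
    intro u v huv
    unfold sg at huv
    split_ifs at huv with h1
    · refine ⟨fun _ => ?_, fun _ => h1⟩
      rcases hε u with h2 | h2 <;> rcases hε v with h3 | h3 <;> rw [h2, h3] at huv ⊢ <;> norm_num at huv
    · refine ⟨fun h2 => absurd h2 h1, fun h2 => ?_⟩
      exfalso
      rw [h2] at huv
      rcases hε v with h3 | h3 <;> rw [h3] at huv <;> norm_num at huv
  have good : ∀ u ∈ NH H x, ∀ v ∈ NH H x, u ≠ v → (H.Adj u v ↔ ε u = ε v) := by
    by_contra hc
    push Not at hc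
    obtain ⟨u0, hu0, v0, hv0, huv0, hexc⟩ := hc
    have hexc' : ¬ (H.Adj u0 v0 ↔ ε u0 = ε v0) := by
      intro h1
      rcases hexc with h2 | h2
      · exact h2.2 (h1.1 h2.1)
      · exact h2.1 (h1.2 h2.2)
    have hpair : (u0 = p ∧ v0 = q) ∨ (u0 = q ∧ v0 = p) := by
      by_contra h1
      push Not at h1
      exact hexc' (hrel u0 v0 (hcl u0 hu0 v0 hv0 huv0 (fun h2 => h1.1 h2.1 h2.2)
        (fun h2 => h1.2 h2.1 h2.2)))
    refine local_exc h hs h13 hn (fun v => ε v = ε u0) u0 v0 hu0 hv0 huv0 rfl ?_ ?_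
    · intro u hu v hv huv h1 h2
      have h3 : H.Adj u v ↔ ε u = ε v := by
        apply hrel u v
        apply hcl u hu v hv huv
        · rintro ⟨rfl, rfl⟩
          rcases hpair with ⟨rfl, rfl⟩ | ⟨rfl, rfl⟩
          · exact h1 ⟨rfl, rfl⟩
          · exact h2 ⟨rfl, rfl⟩
        · rintro ⟨rfl, rfl⟩
          rcases hpair with ⟨rfl, rfl⟩ | ⟨rfl, rfl⟩
          · exact h2 ⟨rfl, rfl⟩
          · exact h1 ⟨rfl, rfl⟩
      rw [h3]
      constructor
      · intro h4
        simp only [h4]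
      · intro h4
        rcases hε u with h5 | h5 <;> rcases hε v with h6 | h6 <;> rcases hε u0 with h7 | h7 <;>
          simp only [h5, h6, h7] at h4 ⊢ <;> norm_num at h4
    · intro h1
      apply hexc'
      rw [h1]
      simp only [true_iff]
      exact eq_comm
  refine ⟨(NH H x).filter (fun v => ε v = 1), (NH H x).filter (fun v => ¬ ε v = 1), ?_, ?_, ?_, ?_, ?_⟩
  · exact Finset.filter_union_filter_not_eq _ _
  · exact Finset.disjoint_filter_filter_not _ _ _
  · intro u hu v hv huv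
    rw [Finset.mem_filter] at hu hv
    exact (good u hu.1 v hv.1 huv).2 (hu.2.trans hv.2.symm)
  · intro u hu v hv huv
    rw [Finset.mem_filter] at hu hv
    exact (good u hu.1 v hv.1 huv).2 (((hε u).resolve_left hu.2).trans ((hε v).resolve_left hv.2).symm)
  · intro u hu v hv h1
    rw [Finset.mem_filter] at hu hv
    have h2 := (good u hu.1 v hv.1 h1.ne).1 h1
    exact hv.2 (h2 ▸ hu.2)

end Pool.Agent.H2.RG
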