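import Mathlib
import Pool.Agent.H2.RG.LocalB2

/-!
# The local structure of a graph with `A(H) + (2 - s) I ≥ 0`   [H2 RG LocalB3]
-/

namespace Pool.Agent.H2.RG

open Finset Classical Pool.Agent.H17.Exact

set_option linter.unusedSectionVars false

variable {V : Type} [Fintype V] {H : SimpleGraph V} {s : ℝ}

private lemma nc_key {d : ℕ} (hd : 7 ≤ d) (h : Psd H (1 / ((d : ℝ) + 1))) {x : V}
    (hu : ∀ u, H.Adj x u → 3 * d + 2 ≤ (NH H u).card) {A B : Finset V} (hAB : A ∪ B = NH H x)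
    (hdis : Disjoint A B) (hA : Clq H A) (hB : Clq H B) (hno : ∀ u ∈ A, ∀ v ∈ B, ¬ H.Adj u v)
    {u : V} (huB : u ∈ B) : 2 * (A.card + 1) ≤ 3 * (d + 1) := by
  have hs : (0 : ℝ) < 1 / ((d : ℝ) + 1) := by positivity
  have hAx : ∀ v ∈ A, H.Adj x v := fun v hv => mem_NH.1 (by rw [← hAB]; exact mem_union_left _ hv)
  have hBx : ∀ v ∈ B, H.Adj x v := fun v hv => mem_NH.1 (by rw [← hAB]; exact mem_union_right _ hv)
  have hxu : H.Adj x u := hBx u huB
  have hcu : 3 * d + 2 ≤ (NH H u).card := hu u hxu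
  have hcuR : (3 : ℝ) * d + 2 ≤ (NH H u).card := by exact_mod_cast hcu
  have hloc : ∃ A' C : Finset V, A' ∪ C = NH H u ∧ Disjoint A' C ∧ Clq H A' ∧ Clq H C ∧
      (∀ u ∈ A', ∀ v ∈ C, ¬ H.Adj u v) ∧ x ∈ A' := by
    obtain ⟨A', B', h1, h2, h3, h4, h5⟩ := local_structure h hs (x := u) (by omega) (by
      rw [one_div, inv_mul_eq_div, le_div_iff₀ (by positivity)]
      have : (0 : ℝ) ≤ d := Nat.cast_nonneg d
      linarith)
    have hx : x ∈ A' ∪ B' := by rw [h1]; exact mem_NH.2 hxu.symm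
    rcases mem_union.1 hx with hx | hx
    · exact ⟨A', B', h1, h2, h3, h4, h5, hx⟩
    · exact ⟨B', A', by rw [union_comm]; exact h1, h2.symm, h4, h3,
        fun a ha b hb hab => h5 b hb a ha hab.symm, hx⟩
  obtain ⟨A', C, h1, h2, h3, h4, h5, hxA'⟩ := hloc
  have hCu : ∀ v ∈ C, H.Adj u v := fun v hv => mem_NH.1 (by rw [← h1]; exact mem_union_right _ hv)
  have hA'u : ∀ v ∈ A', H.Adj u v := fun v hv => mem_NH.1 (by rw [← h1]; exact mem_union_left _ hv)
  have hBA' : ∀ v ∈ B \ {u}, v ∈ A' := by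
    intro v hv
    rw [mem_sdiff, mem_singleton] at hv
    have hvu : H.Adj u v := hB u huB v hv.1 (fun h => hv.2 h.symm)
    have hmem : v ∈ A' ∪ C := by rw [h1]; exact mem_NH.2 hvu
    rcases mem_union.1 hmem with h6 | h6
    · exact h6
    · exact absurd (hBx v hv.1) (h5 x hxA' v h6)
  have hA'sub : A' ⊆ insert x (B \ {u}) := by
    intro w hw
    rw [mem_insert]
    by_cases hwx : w = x
    · exact Or.inl hwx
    · right
      have hxw : H.Adj x w := h3 x hxA' w hw (fun h => hwx h.symm)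
      have huw : H.Adj u w := hA'u w hw
      have hmem : w ∈ A ∪ B := by rw [hAB]; exact mem_NH.2 hxw
      rw [mem_sdiff, mem_singleton]
      rcases mem_union.1 hmem with h6 | h6
      · exact absurd huw.symm (hno w h6 u huB)
      · exact ⟨h6, fun h => H.ne_of_adj huw h.symm⟩
  have hcard : (NH H u).card ≤ (B \ {u}).card + 1 + C.card := by
    rw [← h1]
    refine (card_union_le _ _).trans ?_
    have := (card_le_card hA'sub).trans (card_insert_le _ _)
    omega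
  have huA : ∀ v ∈ A, u ≠ v ∧ ¬ H.Adj u v := fun v hv =>
    ⟨fun h => (disjoint_left.1 hdis hv) (h ▸ huB), fun h => hno v hv u huB h.symm⟩
  have hfin := ext_cut (H := H) (s := 1 / ((d : ℝ) + 1)) h hs (x := x) (u := u) (A := A)
    (B := B \ {u}) (C := C) hA
    (fun a ha b hb hab => hB a (mem_sdiff.1 ha).1 b (mem_sdiff.1 hb).1 hab) h4 hAx
    (fun v hv => hBx v (mem_sdiff.1 hv).1) hxu
    (fun v hv => ⟨fun h => (disjoint_left.1 h2 hxA') (h ▸ hv), h5 x hxA' v hv⟩) huA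
    (fun v hv => hA'u v (hBA' v hv)) hCu
    (fun v hv w hw => ⟨fun h => (disjoint_left.1 hdis hv) (h ▸ (mem_sdiff.1 hw).1),
      hno v hv w (mem_sdiff.1 hw).1⟩)
    (fun v hv w hw => ⟨fun h => (disjoint_left.1 h2 (hBA' v hv)) (h ▸ hw),
      h5 v (hBA' v hv) w hw⟩)
    (fun v hv hvC => (huA v hv).2 (hCu v hvC))
  have hd0 : (0 : ℝ) ≤ d := Nat.cast_nonneg d
  have hc2 : 3 * ((d : ℝ) + 1) ≤ ((B \ {u}).card : ℝ) + C.card + 2 := by
    have : ((NH H u).card : ℝ) ≤ (B \ {u}).card + 1 + C.card := by exact_mod_cast hcard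
    linarith
  have hc3 : 1 / (((B \ {u}).card : ℝ) + C.card + 2) ≤ 1 / (3 * ((d : ℝ) + 1)) :=
    one_div_le_one_div_of_le (by positivity) hc2
  have hc4 : 2 / (3 * ((d : ℝ) + 1)) ≤ 1 / ((A.card : ℝ) + 1) := by
    have e : 2 / (3 * ((d : ℝ) + 1)) = 1 / ((d : ℝ) + 1) - 1 / (3 * ((d : ℝ) + 1)) := by
      field_simp
      norm_num
    rw [e]
    linarith
  rw [div_le_div_iff₀ (by positivity) (by positivity)] at hc4
  have hc5 : (2 : ℝ) * ((A.card : ℝ) + 1) ≤ 3 * ((d : ℝ) + 1) := by linarith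
  exact_mod_cast hc5

/-- **Neighbourhoods are cliques.**  Suppose `s = 1/(d+1)`, `d ≥ 7`, and all degrees of `H` in
`{x} ∪ N(x)` are at least `3d + 2`.  Then `N(x)` is a clique.
Proof: `N(x) = A ⊔ B` by `local_structure`.  Suppose `A ≠ ∅ ≠ B`.  Let `u ∈ B`; then
`N(u) = A' ⊔ B'` with `x ∈ A'`, say; `A' = {x} ∪ (B \ {u})`: `⊆` because a member of `A'` is
`x` or adjacent to `x` and to `u`, so in `N(x)`, not in `A`; `⊇` because a member of `B \ {u}` is
adjacent to `u` and to `x`, so not in `B'`.  Put `C = B'`.  `ext_cut` with `x, u, A, B \ {u}, C`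
gives `s ≤ 1/(|A| + 1) + 1/(|N(u)| + 1) ≤ 1/(|A| + 1) + 1/(3 (d+1))`, so
`2 (|A| + 1) ≤ 3 (d + 1)`; the same with `A` and `B` exchanged; sum:
`|N(x)| + 2 ≤ 3 (d + 1)`, against `|N(x)| ≥ 3d + 2`. -/
lemma nbr_clique {d : ℕ} (hd : 7 ≤ d) (h : Psd H (1 / ((d : ℝ) + 1))) {x : V}
    (hx : 3 * d + 2 ≤ (NH H x).card) (hu : ∀ u, H.Adj x u → 3 * d + 2 ≤ (NH H u).card) :
    Clq H (NH H x) := by
  have hs : (0 : ℝ) < 1 / ((d : ℝ) + 1) := by positivity
  have hxR : (3 : ℝ) * d + 2 ≤ (NH H x).card := by exact_mod_cast hx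
  obtain ⟨A, B, h1, h2, h3, h4, h5⟩ := local_structure h hs (x := x) (by omega) (by
    rw [one_div, inv_mul_eq_div, le_div_iff₀ (by positivity)]
    have : (0 : ℝ) ≤ d := Nat.cast_nonneg d
    linarith)
  rcases A.eq_empty_or_nonempty with hA | ⟨a, ha⟩
  · rw [← h1, hA, empty_union]
    exact h4
  rcases B.eq_empty_or_nonempty with hB | ⟨b, hb⟩
  · rw [← h1, hB, union_empty]
    exact h3
  exfalso
  have k1 := nc_key hd h hu h1 h2 h3 h4 h5 hb
  have k2 := nc_key hd h hu (by rw [union_comm]; exact h1) h2.symm h4 h3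
    (fun u hu v hv huv => h5 v hv u hu huv.symm) ha
  have k3 : (NH H x).card ≤ A.card + B.card := by
    rw [← h1]
    exact card_union_le _ _
  omega

end Pool.Agent.H2.RG
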