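import Mathlib
import Pool.Agent.H2.RG.Base

/-!
# Rigidity for `gap(G_{≥d})`: the star inequality   [H2 RG StarA]

Notation in the comments: `a y = deg y`, `w y = W y - d`, `e y = a y - d`;
`w y = 2 + 1/d, 1, 1/(d+2)` for `e y = 0, 1, 2` and `w y ≤ -(d-1)/(d+3)` for `e y ≥ 3`
(`W_le`, `le_W_of_small`, `W_le_of_big`, `W_le_of_big3` of `Base`).  Small means `∈ Vp G d`.
-/

namespace Pool.Agent.H2.RG

open Finset Classical Pool.Agent.H17 Pool.Agent.H17.Exact

set_option linter.unusedSectionVars false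

variable {V : Type} [Fintype V] {G : SimpleGraph V} {d : ℕ}

namespace Cx

variable (c : Cx G d)

include c


lemma nbr_K_split {x y : V} (h : G.Adj x y) :
    K G d y = (W G d x - d) + ∑ z ∈ (G.neighborFinset y).erase x, (W G d z - d) := by
  rw [K, add_comm]
  exact (sum_erase_add _ _ (mem_nbr.2 h.symm)).symm

/-- Split off one neighbour: `K y = (W x - d) + ∑_{others} ≤ W x - d + d (2 + 1/d)`, because
`deg y ≤ d + 1`. -/
lemma K_le_W_add {x y : V} (hy : y ∈ Vp G d) (h : G.Adj x y) :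
    K G d y ≤ W G d x + (d + 1) := by
  rw [c.nbr_K_split h]
  have hd := c.dR
  have h1 : ∑ z ∈ (G.neighborFinset y).erase x, (W G d z - d) ≤ (d : ℝ) * (2 + 1 / d) := by
    calc _ ≤ ∑ z ∈ (G.neighborFinset y).erase x, (2 + 1 / (d : ℝ)) :=
          sum_le_sum fun z _ => by linarith [c.W_le z]
      _ = (((G.neighborFinset y).erase x).card : ℝ) * (2 + 1 / d) := by
          rw [sum_const, nsmul_eq_mul]
      _ ≤ _ := by
          refine mul_le_mul_of_nonneg_right ?_ (by positivity)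
          have h2 : ((G.neighborFinset y).erase x).card ≤ d := by
            rw [card_erase_of_mem (mem_nbr.2 h.symm), SimpleGraph.card_neighborFinset_eq_degree]
            rw [mem_Vp] at hy
            omega
          exact_mod_cast h2
  have h2 : (d : ℝ) * (2 + 1 / d) = 2 * d + 1 := by field_simp
  linarith

/-- Two distinct small neighbours of `x` have `x` as their only common neighbour
(`common_unique`). -/
lemma Kc_eq_of_small {x t t' : V} (ht : t ∈ Vp G d) (ht' : t' ∈ Vp G d) (hne : t ≠ t')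
    (h : G.Adj x t) (h' : G.Adj x t') : Kc G d t t' = W G d x := by
  have h1 : G.neighborFinset t ∩ G.neighborFinset t' = {x} := by
    ext v
    rw [mem_inter, mem_nbr, mem_nbr, mem_singleton]
    constructor
    · rintro ⟨h3, h4⟩
      exact c.common_unique hne ht ht' h3.symm h4.symm h h'
    · rintro rfl
      exact ⟨h.symm, h'.symm⟩
  rw [Kc, h1, sum_singleton]

omit c in
lemma star_QB_add (f g h : V → ℝ) : QB G d (f + g) h = QB G d f h + QB G d g h := by
  have h1 : ∑ y, W G d y * (nb G (f + g) y * nb G h y) =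
      ∑ y, W G d y * (nb G f y * nb G h y) + ∑ y, W G d y * (nb G g y * nb G h y) := by
    rw [← sum_add_distrib]
    refine sum_congr rfl fun y _ => ?_
    rw [nb_add]; ring
  have h2 : ∑ x, (G.degree x : ℝ) * ((f + g) x * h x) =
      ∑ x, (G.degree x : ℝ) * (f x * h x) + ∑ x, (G.degree x : ℝ) * (g x * h x) := by
    rw [← sum_add_distrib]
    refine sum_congr rfl fun y _ => ?_
    rw [Pi.add_apply]; ring
  rw [QB, h1, h2, QB, QB]; ring

omit c in
lemma star_QB_sum (T : Finset V) (y : V) (hT : y ∉ T) :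
    QB G d (∑ t ∈ T, Pi.single t 1) (Pi.single y 1) = ∑ t ∈ T, Kc G d t y := by
  induction T using Finset.induction_on with
  | empty =>
    rw [sum_empty, sum_empty]
    have : (0 : V → ℝ) = (0 : ℝ) • (0 : V → ℝ) := by simp
    rw [this, QB_smul_left, zero_mul]
  | insert u T hu ih =>
    rw [mem_insert, not_or] at hT
    rw [sum_insert hu, sum_insert hu, star_QB_add, QB_single_single (Ne.symm hT.1), ih hT.2]

lemma star_Q_sum {x : V} (T : Finset V) (hT : ∀ t ∈ T, G.Adj x t ∧ t ∈ Vp G d) :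
    Q G d (∑ t ∈ T, Pi.single t 1) ≤
      T.card * (W G d x + (d + 1)) + T.card * (T.card - 1) * W G d x := by
  induction T using Finset.induction_on with
  | empty =>
    rw [sum_empty, card_empty]
    have h0 : (0 : V → ℝ) = (0 : ℝ) • (0 : V → ℝ) := by simp
    rw [h0, Q_smul]
    simp
  | insert u T hu ih =>
    have ih' := ih fun t ht => hT t (mem_insert_of_mem ht)
    obtain ⟨h1, h2⟩ := hT u (mem_insert_self u T)
    rw [sum_insert hu, add_comm, Q_add, Q_single, star_QB_sum T u hu, card_insert_of_notMem hu]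
    have h3 : ∑ t ∈ T, Kc G d t u = T.card * W G d x := by
      rw [← nsmul_eq_mul, ← sum_const]
      refine sum_congr rfl fun t ht => ?_
      obtain ⟨h4, h5⟩ := hT t (mem_insert_of_mem ht)
      exact c.Kc_eq_of_small h5 h2 (fun h => hu (h ▸ ht)) h4 h1
    have h6 := c.K_le_W_add h2 h1
    rw [h3]
    push_cast
    nlinarith

/-- **Star inequality.** Test function `f = δ_y - c ∑_{t ∈ T} δ_t`, with `r = |T|`,
`W = W x`, `c = W / (d + 1 + r W)`:
`0 ≤ Q f = K y - 2 c ∑ Kc y t + c² (∑ K t + ∑_{t ≠ t'} Kc t t')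
  ≤ K y - 2 c r W + c² (r (W + d + 1) + r (r - 1) W) = K y - r W² / (d + 1 + r W)`,
by `W_le_Kc`, `K_le_W_add`, `Kc_eq_of_small`.
Hint: expand `Q` with `Q_add`, `Q_smul`, `QB_smul_left`, `QB_single`, `Q_single`,
`QB_single_single`, or do an induction on `T` for `Q (δ_y - c ∑_{t∈T} δ_t)`. -/
lemma star_bound {x y : V} (hxy : G.Adj x y) {T : Finset V}
    (hT : ∀ t ∈ T, G.Adj x t ∧ t ∈ Vp G d ∧ t ≠ y) :
    (T.card : ℝ) * W G d x ^ 2 ≤ K G d y * ((d : ℝ) + 1 + T.card * W G d x) := by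
  have hW := c.W_pos x
  have hd := c.dR
  set r : ℝ := (T.card : ℝ) with hr
  have hr0 : 0 ≤ r := Nat.cast_nonneg _
  have hden : 0 < (d : ℝ) + 1 + r * W G d x := by positivity
  set s : ℝ := W G d x / ((d : ℝ) + 1 + r * W G d x) with hs
  have hs0 : 0 ≤ s := by positivity
  have hyT : y ∉ T := fun h => (hT y h).2.2 rfl
  have hQ := c.hQ ((-s) • (∑ t ∈ T, Pi.single t 1) + Pi.single y 1)
  rw [Q_add, Q_smul, Q_single, QB_smul_left, star_QB_sum T y hyT] at hQ
  have h1 := c.star_Q_sum (x := x) T (fun t ht => ⟨(hT t ht).1, (hT t ht).2.1⟩)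
  rw [← hr] at h1
  have h2 : r * W G d x ≤ ∑ t ∈ T, Kc G d t y := by
    rw [hr, ← nsmul_eq_mul, ← sum_const]
    exact sum_le_sum fun t ht => c.W_le_Kc (hT t ht).1 hxy
  have h3 : (-s) ^ 2 * Q G d (∑ t ∈ T, Pi.single t 1) ≤
      s ^ 2 * (r * (W G d x + (d + 1)) + r * (r - 1) * W G d x) := by
    rw [neg_sq]
    exact mul_le_mul_of_nonneg_left h1 (sq_nonneg s)
  have h4 : s * (r * W G d x) ≤ s * ∑ t ∈ T, Kc G d t y := mul_le_mul_of_nonneg_left h2 hs0
  have h5 : 0 ≤ K G d y - 2 * (s * (r * W G d x)) +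
      s ^ 2 * (r * ((d : ℝ) + 1 + r * W G d x)) := by
    have h6 : r * (W G d x + (d + 1)) + r * (r - 1) * W G d x =
        r * ((d : ℝ) + 1 + r * W G d x) := by ring
    rw [h6] at h3
    linarith
  have h7 : s * ((d : ℝ) + 1 + r * W G d x) = W G d x := by
    rw [hs]; field_simp
  have h8 : 2 * (s * (r * W G d x)) - s ^ 2 * (r * ((d : ℝ) + 1 + r * W G d x)) =
      r * W G d x * s := by
    have : s ^ 2 * (r * ((d : ℝ) + 1 + r * W G d x)) = s * r * (s * ((d : ℝ) + 1 + r * W G d x)) := by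
      ring
    rw [this, h7]; ring
  have h9 : r * W G d x * s ≤ K G d y := by linarith
  calc r * W G d x ^ 2 = r * W G d x * (s * ((d : ℝ) + 1 + r * W G d x)) := by rw [h7]; ring
    _ = (r * W G d x * s) * ((d : ℝ) + 1 + r * W G d x) := by ring
    _ ≤ K G d y * ((d : ℝ) + 1 + r * W G d x) := mul_le_mul_of_nonneg_right h9 hden.le

/-- The small vertex `x ~ y` contributes `W x - d` to `K y`, the other `sp y - 1` small
neighbours at most `2 + 1/d` each, the big ones at most `1/(d+2)` each. -/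
lemma K_le_of_adj {x y : V} (hx : x ∈ Vp G d) (hxy : G.Adj x y) :
    K G d y ≤ W G d x - d + ((sp G d y : ℝ) - 1) * (2 + 1 / d) +
      ((G.degree y : ℝ) - sp G d y) / (d + 2) := by
  have hxm : x ∈ G.neighborFinset y ∩ Vp G d := mem_inter.2 ⟨mem_nbr.2 hxy.symm, hx⟩
  have h0 : (G.neighborFinset y \ Vp G d).card + sp G d y = G.degree y := by
    rw [sp, card_sdiff_add_card_inter, SimpleGraph.card_neighborFinset_eq_degree]
  have h1 : K G d y = ∑ z ∈ G.neighborFinset y ∩ Vp G d, (W G d z - d) +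
      ∑ z ∈ G.neighborFinset y \ Vp G d, (W G d z - d) := by
    rw [K, ← sum_inter_add_sum_sdiff]
  have h2 : ∑ z ∈ G.neighborFinset y ∩ Vp G d, (W G d z - d) ≤
      W G d x - d + ((sp G d y : ℝ) - 1) * (2 + 1 / d) := by
    rw [← add_sum_erase _ _ hxm]
    have h4 : ∑ z ∈ (G.neighborFinset y ∩ Vp G d).erase x, (W G d z - d) ≤
        ((sp G d y : ℝ) - 1) * (2 + 1 / d) := by
      calc _ ≤ ∑ z ∈ (G.neighborFinset y ∩ Vp G d).erase x, (2 + 1 / (d : ℝ)) :=
            sum_le_sum fun z _ => by linarith [c.W_le z]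
        _ = ((sp G d y : ℝ) - 1) * (2 + 1 / d) := by
            rw [sum_const, nsmul_eq_mul, card_erase_of_mem hxm]
            have h5 : 1 ≤ (G.neighborFinset y ∩ Vp G d).card := card_pos.2 ⟨x, hxm⟩
            rw [Nat.cast_sub h5, sp, Nat.cast_one]
    linarith
  have h3 : ∑ z ∈ G.neighborFinset y \ Vp G d, (W G d z - d) ≤
      ((G.degree y : ℝ) - sp G d y) / (d + 2) := by
    calc _ ≤ ∑ z ∈ G.neighborFinset y \ Vp G d, (1 / ((d : ℝ) + 2)) := by
          refine sum_le_sum fun z hz => ?_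
          linarith [c.W_le_of_big (c.not_mem_Vp (mem_sdiff.1 hz).2)]
      _ = ((G.degree y : ℝ) - sp G d y) / (d + 2) := by
          rw [sum_const, nsmul_eq_mul, ← h0]
          push_cast
          ring
  linarith

end Cx

end Pool.Agent.H2.RG
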