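import Mathlib
import Pool.Agent.H2.RG.StarA

/-!
# Rigidity for `gap(G_{≥d})`: rich lines   [H2 RG StarB]

Notation in the comments: `a y = deg y`, `w y = W y - d`, `e y = a y - d`;
`w y = 2 + 1/d, 1, 1/(d+2)` for `e y = 0, 1, 2` and `w y ≤ -(d-1)/(d+3)` for `e y ≥ 3`
(`W_le`, `le_W_of_small`, `W_le_of_big`, `W_le_of_big3` of `Base`).  Small means `∈ Vp G d`.
-/

namespace Pool.Agent.H2.RG

open Finset Classical Pool.Agent.H17 Pool.Agent.H17.Exact

set_option linter.unusedSectionVars false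

variable {V : Type} [Fintype V] {G : SimpleGraph V} {d : ℕ}

namespace Cx

variable (c : Cx G d)

include c


lemma K_le_gen {y : V} (A : Finset V) (hA : A ⊆ G.neighborFinset y) (b : ℝ)
    (hb : ∀ z, G.Adj y z → z ∉ A → W G d z - d ≤ b) :
    K G d y ≤ A.card * (2 + 1 / d) + ((G.degree y : ℝ) - A.card) * b := by
  have h0 : (G.neighborFinset y \ A).card + A.card = G.degree y := by
    rw [card_sdiff_add_card_eq_card hA, SimpleGraph.card_neighborFinset_eq_degree]
  have h1 : K G d y = ∑ z ∈ G.neighborFinset y \ A, (W G d z - d) +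
      ∑ z ∈ A, (W G d z - d) := by
    rw [K, sum_sdiff hA]
  have h2 : ∑ z ∈ A, (W G d z - d) ≤ A.card * (2 + 1 / d) := by
    calc _ ≤ ∑ z ∈ A, (2 + 1 / (d : ℝ)) := sum_le_sum fun z _ => by linarith [c.W_le z]
      _ = _ := by rw [sum_const, nsmul_eq_mul]
  have h3 : ∑ z ∈ G.neighborFinset y \ A, (W G d z - d) ≤ ((G.degree y : ℝ) - A.card) * b := by
    calc _ ≤ ∑ z ∈ G.neighborFinset y \ A, b := by
          refine sum_le_sum fun z hz => ?_
          obtain ⟨h4, h5⟩ := mem_sdiff.1 hz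
          exact hb z (mem_nbr.1 h4) h5
      _ = _ := by
          rw [sum_const, nsmul_eq_mul, ← h0]
          push_cast
          ring
  linarith

/-- A small vertex has at least two small neighbours.
Proof: let `y` be small with `sp y ≤ 1`.  `K y ≤ (2 + 1/d) + d/(d+2)` (`K_le`, `deg y ≤ d + 1`).
* `y` has a neighbour `x'` of degree `d + 2` exactly: otherwise all neighbours but one have
  degree `≥ d + 3`, so `K y ≤ (2 + 1/d) - (d-1)(d-1)/(d+3) < 0`, against `K_pos`.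
* `x'` has a neighbour `y' ≠ y` of degree `≤ d + 2`: otherwise
  `K x' ≤ (2 + 1/d) - (d+1)(d-1)/(d+3) < 0`.
* `K y' ≤ (W x' - d) + (deg y' - 1)(2 + 1/d) ≤ 1/(d+2) + (d+1)(2 + 1/d)`.
* `W_sq_le`: `(W x')² ≤ K y K y'`, with `W x' = d + 1/(d+2) = (d+1)²/(d+2)`.  But
  `(2 + 1/d + d/(d+2)) (1/(d+2) + (d+1)(2 + 1/d)) < ((d+1)²/(d+2))²` for `d ≥ 7`: after
  multiplying by `d² (d+2)²/(d+1)` this is `(3d+2)(2d³+7d²+8d+2) < d² (d+1)³`, i.e.
  `0 < d⁵ - 3d⁴ - 22d³ - 37d² - 22d - 4` (equal to `87` at `d = 7`; put `d = 7 + t`). -/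
lemma two_le_sp {y : V} (hy : y ∈ Vp G d) : 2 ≤ sp G d y := by
  by_contra hsp
  have hsp1 : sp G d y ≤ 1 := by omega
  have hd := c.dR
  have hd0 := c.dpos
  have hdeg1 : (G.degree y : ℝ) ≤ d + 1 := by rw [mem_Vp] at hy; exact_mod_cast hy
  have hdeg0 := c.degR y
  have hsR : (sp G d y : ℝ) ≤ 1 := by exact_mod_cast hsp1
  have hs0 : (0 : ℝ) ≤ sp G d y := Nat.cast_nonneg _
  have hinv : (0 : ℝ) < 1 / d := by positivity
  have hinv1 : (1 / (d : ℝ)) ≤ 1 / 7 := by
    apply one_div_le_one_div_of_le (by norm_num) hd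
  -- a neighbour of degree `d + 2`
  obtain ⟨x', hyx', hx'⟩ : ∃ x', G.Adj y x' ∧ G.degree x' = d + 2 := by
    by_contra hcon
    push Not at hcon
    have h1 := c.K_le_gen (y := y) (G.neighborFinset y ∩ Vp G d) inter_subset_left
      (-(((d : ℝ) - 1) / (d + 3))) (by
        intro z hz hzA
        have hz1 : z ∉ Vp G d := fun h => hzA (mem_inter.2 ⟨mem_nbr.2 hz, h⟩)
        have hz2 := c.not_mem_Vp hz1
        have hz3 := hcon z hz
        have hz4 := c.W_le_of_big3 (y := z) (by omega)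
        linarith)
    have h2 : ((G.neighborFinset y ∩ Vp G d).card : ℝ) = sp G d y := rfl
    rw [h2] at h1
    have h3 := c.K_pos y
    have h4 : (0 : ℝ) < (d - 1) / (d + 3) := by
      apply div_pos <;> linarith
    have h5 : ((d : ℝ) - 1) * ((d - 1) / (d + 3)) ≤
        ((G.degree y : ℝ) - sp G d y) * ((d - 1) / (d + 3)) :=
      mul_le_mul_of_nonneg_right (by linarith) h4.le
    have h6 : (sp G d y : ℝ) * (2 + 1 / d) ≤ 1 * (2 + 1 / d) :=
      mul_le_mul_of_nonneg_right hsR (by positivity)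
    have h7 : (3 : ℝ) < ((d : ℝ) - 1) * ((d - 1) / (d + 3)) := by
      rw [← mul_div_assoc, lt_div_iff₀ (by linarith)]
      nlinarith
    linarith
  -- a second neighbour of `x'`
  obtain ⟨y', hx'y', hne, hy'⟩ : ∃ y', G.Adj x' y' ∧ y' ≠ y ∧ G.degree y' ≤ d + 2 := by
    by_contra hcon
    push Not at hcon
    have h1 := c.K_le_gen (y := x') {y} (singleton_subset_iff.2 (mem_nbr.2 hyx'.symm))
      (-(((d : ℝ) - 1) / (d + 3))) (by
        intro z hz hzA
        have hz3 := hcon z hz (fun h => hzA (mem_singleton.2 h))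
        have hz4 := c.W_le_of_big3 (y := z) (by omega)
        linarith)
    rw [card_singleton, hx'] at h1
    push_cast at h1
    have h3 := c.K_pos x'
    have h7 : (3 : ℝ) < ((d : ℝ) + 2 - 1) * ((d - 1) / (d + 3)) := by
      rw [← mul_div_assoc, lt_div_iff₀ (by linarith)]
      nlinarith
    linarith
  have hK1 : K G d y ≤ 2 + 1 / d + d / (d + 2) := by
    have h1 := c.K_le y
    have h2 : (2 + 1 / (d : ℝ)) * sp G d y + ((G.degree y : ℝ) - sp G d y) / (d + 2) ≤
        2 + 1 / d + d / (d + 2) := by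
      have h3 : ((G.degree y : ℝ) - sp G d y) / (d + 2) ≤ ((d : ℝ) + 1 - sp G d y) / (d + 2) := by
        gcongr
      have h4 : ((d : ℝ) + 1 - sp G d y) / (d + 2) = d / (d + 2) + (1 - sp G d y) / (d + 2) := by
        rw [← add_div]; congr 1; ring
      have h5 : (1 - (sp G d y : ℝ)) / (d + 2) ≤ (1 - sp G d y) * 1 := by
        rw [div_eq_mul_inv]
        apply mul_le_mul_of_nonneg_left _ (by linarith)
        apply inv_le_one_of_one_le₀
        linarith
      nlinarith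
    linarith
  have hK2 : K G d y' ≤ 1 / (d + 2) + (d + 1) * (2 + 1 / d) := by
    have h1 := c.nbr_K_split hx'y'
    have h2 := c.W_le_of_big (y := x') (by omega)
    have h3 : ∑ z ∈ (G.neighborFinset y').erase x', (W G d z - d) ≤ ((d : ℝ) + 1) * (2 + 1 / d) := by
      calc _ ≤ ∑ z ∈ (G.neighborFinset y').erase x', (2 + 1 / (d : ℝ)) :=
            sum_le_sum fun z _ => by linarith [c.W_le z]
        _ = (((G.neighborFinset y').erase x').card : ℝ) * (2 + 1 / d) := by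
            rw [sum_const, nsmul_eq_mul]
        _ ≤ _ := by
            refine mul_le_mul_of_nonneg_right ?_ (by positivity)
            have h2 : ((G.neighborFinset y').erase x').card ≤ d + 1 := by
              rw [card_erase_of_mem (mem_nbr.2 hx'y'.symm),
                SimpleGraph.card_neighborFinset_eq_degree]
              omega
            exact_mod_cast h2
    linarith
  have hW := c.W_sq_le (Ne.symm hne) hyx'.symm hx'y'
  have hW1 := c.W_ge_of_le (y := x') hx'.le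
  have hpos2 : (0 : ℝ) < 1 / ((d : ℝ) + 2) := by positivity
  have hW2 : ((d : ℝ) + 1 / (d + 2)) ^ 2 ≤ W G d x' ^ 2 :=
    pow_le_pow_left₀ (by positivity) hW1 2
  have hmul : K G d y * K G d y' ≤
      (2 + 1 / d + d / (d + 2)) * (1 / (d + 2) + (d + 1) * (2 + 1 / d)) :=
    mul_le_mul hK1 hK2 (c.K_pos y').le (by positivity)
  have hfin : (2 + 1 / (d : ℝ) + d / (d + 2)) * (1 / (d + 2) + (d + 1) * (2 + 1 / d)) <
      ((d : ℝ) + 1 / (d + 2)) ^ 2 := by
    have e1 : (2 + 1 / (d : ℝ) + d / (d + 2)) = (3 * d + 2) * (d + 1) / (d * (d + 2)) := by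
      field_simp; ring
    have e2 : (1 / ((d : ℝ) + 2) + (d + 1) * (2 + 1 / d)) =
        (2 * d ^ 3 + 7 * d ^ 2 + 8 * d + 2) / (d * (d + 2)) := by
      field_simp; ring
    have e3 : ((d : ℝ) + 1 / (d + 2)) ^ 2 = (d ^ 2 * (d + 1) ^ 4) / ((d * (d + 2)) * (d * (d + 2))) := by
      field_simp; ring
    rw [e1, e2, e3, div_mul_div_comm]
    apply div_lt_div_of_pos_right _ (by positivity)
    obtain ⟨t, ht⟩ : ∃ t : ℝ, (d : ℝ) = 7 + t := ⟨d - 7, by ring⟩
    have ht0 : 0 ≤ t := by linarith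
    rw [ht]
    have h1 : (3 * (7 + t) + 2) * (7 + t + 1) *
        (2 * (7 + t) ^ 3 + 7 * (7 + t) ^ 2 + 8 * (7 + t) + 2) + (7 + t + 1) *
        ((7 + t) ^ 5 - 3 * (7 + t) ^ 4 - 22 * (7 + t) ^ 3 - 37 * (7 + t) ^ 2 - 22 * (7 + t) - 4)
        = (7 + t) ^ 2 * (7 + t + 1) ^ 4 := by ring
    have h2 : (7 + t) ^ 5 - 3 * (7 + t) ^ 4 - 22 * (7 + t) ^ 3 - 37 * (7 + t) ^ 2 -
        22 * (7 + t) - 4 = 87 + 4115 * t + 2049 * t ^ 2 + 384 * t ^ 3 + 32 * t ^ 4 + t ^ 5 := by
      ring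
    rw [h2] at h1
    rw [← h1]
    have h3 : 0 < (7 + t + 1) *
        (87 + 4115 * t + 2049 * t ^ 2 + 384 * t ^ 3 + 32 * t ^ 4 + t ^ 5) := by positivity
    linarith
  linarith

/-- A line through the small vertex `x` which is not poor at `x` (`W x ≤ K y`) and has degree at
most `d + 2` has at least `(d+2)/2` small vertices.
Proof: by `K_le_of_adj`, `d ≤ (sp y - 1)(2 + 1/d) + (d + 2 - sp y)/(d+2)`; if `2 sp y ≤ d + 1`
the right side is at most `d - 1/(2d) + 1/(2(d+2)) < d`. -/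
lemma rich_sp {x y : V} (hx : x ∈ Vp G d) (hxy : G.Adj x y) (hK : W G d x ≤ K G d y)
    (hdeg : G.degree y ≤ d + 2) : d + 2 ≤ 2 * sp G d y := by
  by_contra hcon
  have hd := c.dR
  have hd0 := c.dpos
  have h1 := c.K_le_of_adj hx hxy
  have hs : (sp G d y : ℝ) ≤ ((d : ℝ) + 1) / 2 := by
    have : 2 * sp G d y ≤ d + 1 := by omega
    have h2 : 2 * (sp G d y : ℝ) ≤ d + 1 := by exact_mod_cast this
    linarith
  have hdegR : (G.degree y : ℝ) ≤ d + 2 := by exact_mod_cast hdeg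
  have h2 : ((G.degree y : ℝ) - sp G d y) / (d + 2) ≤ ((d : ℝ) + 2 - sp G d y) / (d + 2) := by
    gcongr
  have h3 : (d : ℝ) ≤ ((sp G d y : ℝ) - 1) * (2 + 1 / d) + ((d : ℝ) + 2 - sp G d y) / (d + 2) := by
    linarith
  have h4 : ((sp G d y : ℝ) - 1) * (2 + 1 / d) + ((d : ℝ) + 2 - sp G d y) / (d + 2) =
      (sp G d y : ℝ) * (2 + 1 / d - 1 / (d + 2)) - 1 - 1 / d := by
    field_simp
    ring
  have h5 : (1 : ℝ) / (d + 2) ≤ 1 := by
    rw [div_le_one (by linarith)]; linarith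
  have h6 : (0 : ℝ) < 1 / d := by positivity
  have h7 : (sp G d y : ℝ) * (2 + 1 / d - 1 / (d + 2)) ≤
      (((d : ℝ) + 1) / 2) * (2 + 1 / d - 1 / (d + 2)) :=
    mul_le_mul_of_nonneg_right hs (by linarith)
  have h8 : (((d : ℝ) + 1) / 2) * (2 + 1 / d - 1 / (d + 2)) - 1 - 1 / d =
      d - 1 / (2 * d) + 1 / (2 * (d + 2)) := by
    field_simp
    ring
  have h9 : (1 : ℝ) / (2 * (d + 2)) < 1 / (2 * d) := by
    apply one_div_lt_one_div_of_lt <;> linarith
  linarith

/-- Every small `x` has a small neighbour `y` which is not poor at `x`: it has two small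
neighbours (`two_le_sp`), not both poor (`poor_unique`); then use `rich_sp`. -/
lemma exists_rich {x : V} (hx : x ∈ Vp G d) :
    ∃ y, G.Adj x y ∧ y ∈ Vp G d ∧ W G d x ≤ K G d y ∧ d + 2 ≤ 2 * sp G d y := by
  have h1 := c.two_le_sp hx
  obtain ⟨y, hy, y', hy', hne⟩ := one_lt_card.1 (show 1 < (G.neighborFinset x ∩ Vp G d).card from h1)
  rw [mem_inter, mem_nbr] at hy hy'
  have key : ∀ z, G.Adj x z → z ∈ Vp G d → W G d x ≤ K G d z →
      ∃ y, G.Adj x y ∧ y ∈ Vp G d ∧ W G d x ≤ K G d y ∧ d + 2 ≤ 2 * sp G d y := by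
    intro z hz hzs hzK
    refine ⟨z, hz, hzs, hzK, c.rich_sp hx hz hzK ?_⟩
    rw [mem_Vp] at hzs
    omega
  rcases le_or_gt (W G d x) (K G d y) with h | h
  · exact key y hy.1 hy.2 h
  · rcases le_or_gt (W G d x) (K G d y') with h' | h'
    · exact key y' hy'.1 hy'.2 h'
    · exact absurd (c.poor_unique hy.1 hy'.1 h h') hne

end Cx

end Pool.Agent.H2.RG
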