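import Mathlib
import Pool.Agent.H2.RG.StarB

/-!
# Rigidity for `gap(G_{≥d})`: lower bounds for `K`   [H2 RG StarC1]

Notation in the comments: `a y = deg y`, `w y = W y - d`, `e y = a y - d`;
`w y = 2 + 1/d, 1, 1/(d+2)` for `e y = 0, 1, 2` and `w y ≤ -(d-1)/(d+3)` for `e y ≥ 3`
(`W_le`, `le_W_of_small`, `W_le_of_big`, `W_le_of_big3` of `Base`).  Small means `∈ Vp G d`.
-/

namespace Pool.Agent.H2.RG

open Finset Classical Pool.Agent.H17 Pool.Agent.H17.Exact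

set_option linter.unusedSectionVars false

variable {V : Type} [Fintype V] {G : SimpleGraph V} {d : ℕ}

namespace Cx

variable (c : Cx G d)

include c


omit c in
/-- monotonicity of `r W² / (a + r W)` in `r` and `W` (cross-multiplied) -/
lemma star_mono {a r r' w w' : ℝ} (ha : 0 < a) (hr' : 0 ≤ r') (hw' : 0 ≤ w') (hr : r' ≤ r)
    (hw : w' ≤ w) {k : ℝ} (h : r * w ^ 2 ≤ k * (a + r * w)) :
    r' * w' ^ 2 ≤ k * (a + r' * w') := by
  have hr0 : 0 ≤ r := hr'.trans hr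
  have hw0 : 0 ≤ w := hw'.trans hw
  have hden : 0 < a + r * w := by positivity
  have hden' : 0 < a + r' * w' := by positivity
  have hk : r * w ^ 2 / (a + r * w) ≤ k := (div_le_iff₀ hden).2 h
  have h1 : r' * w' ^ 2 / (a + r' * w') ≤ r * w ^ 2 / (a + r * w) := by
    rw [div_le_div_iff₀ hden' hden]
    have e1 : r' * w' ^ 2 ≤ r * w ^ 2 := by gcongr
    have e2 : r' * w' ^ 2 * (r * w) ≤ r * w ^ 2 * (r' * w') := by
      have : 0 ≤ r * w * (r' * w') * (w - w') := by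
        apply mul_nonneg _ (by linarith)
        positivity
      nlinarith
    nlinarith
  exact (div_le_iff₀ hden').1 (h1.trans hk)

/-- Let `y` be as in `exists_rich`, `W = W y`.  `star_bound` with centre `y`, the vertex `x` and
`T` = the small neighbours of `y` other than `x`, `r = |T| = sp y - 1 ≥ d/2`, gives
`K x ≥ r W²/(d + 1 + r W) ≥ d W²/(2 (d+1) + d W)`. -/
lemma K_small_ge' {x : V} (hx : x ∈ Vp G d) :
    ∃ y, G.Adj x y ∧ y ∈ Vp G d ∧ d + 2 ≤ 2 * sp G d y ∧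
      ((sp G d y : ℝ) - 1) * W G d y ^ 2 ≤
        K G d x * ((d : ℝ) + 1 + ((sp G d y : ℝ) - 1) * W G d y) := by
  obtain ⟨y, hxy, hy, -, hsp⟩ := c.exists_rich hx
  refine ⟨y, hxy, hy, hsp, ?_⟩
  have hxm : x ∈ G.neighborFinset y ∩ Vp G d := mem_inter.2 ⟨mem_nbr.2 hxy.symm, hx⟩
  have h1 := c.star_bound (x := y) (y := x) hxy.symm
    (T := (G.neighborFinset y ∩ Vp G d).erase x) (by
      intro t ht
      obtain ⟨h2, h3⟩ := mem_erase.1 ht
      obtain ⟨h4, h5⟩ := mem_inter.1 h3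
      exact ⟨mem_nbr.1 h4, h5, h2⟩)
  have h2 : ((((G.neighborFinset y ∩ Vp G d).erase x).card : ℕ) : ℝ) = (sp G d y : ℝ) - 1 := by
    have h5 : 1 ≤ (G.neighborFinset y ∩ Vp G d).card := card_pos.2 ⟨x, hxm⟩
    rw [card_erase_of_mem hxm, Nat.cast_sub h5, sp, Nat.cast_one]
  rw [h2] at h1
  exact h1

/-- `K x ≥ d (d+1)/(d+2)` for small `x`: in `K_small_ge'` the bound `r W²/(d+1+rW)` increases in
`r ≥ d/2` and in `W ≥ d + 1`. -/
lemma K_small_ge {x : V} (hx : x ∈ Vp G d) : (d : ℝ) * (d + 1) ≤ (d + 2) * K G d x := by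
  obtain ⟨y, -, hy, hsp, h⟩ := c.K_small_ge' hx
  have hd := c.dR
  have hW := c.le_W_of_small hy
  have hr : (d : ℝ) / 2 ≤ (sp G d y : ℝ) - 1 := by
    have : ((d + 2 : ℕ) : ℝ) ≤ ((2 * sp G d y : ℕ) : ℝ) := by exact_mod_cast hsp
    push_cast at this
    linarith
  have h1 := star_mono (a := (d : ℝ) + 1) (by linarith) (by linarith) (by linarith) hr hW h
  have h2 : (d : ℝ) / 2 * (d + 1) ^ 2 = ((d + 1) / 2) * (d * (d + 1)) := by ring
  have h3 : K G d x * ((d : ℝ) + 1 + d / 2 * (d + 1)) = ((d + 1) / 2) * ((d + 2) * K G d x) := by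
    ring
  rw [h2, h3] at h1
  exact le_of_mul_le_mul_left h1 (by linarith)

/-- `2 sp x ≥ d` for small `x`.
Proof: let `y` be as in `K_small_ge'`, `W = W y ∈ [d + 1, (d+1)²/d]`.  Suppose `2 sp x ≤ d - 1`.
`K_le_of_adj` (roles: `y` small, adjacent to `x`) gives
`K x ≤ W - d + (d-3)(2d+1)/(2d) + (d+3)/(2(d+2)) = W - 2 - 3/(2d) + 1/(2(d+2)) < W - 2`
(the right side of `K_le_of_adj` increases with `sp x`).  On the other hand
`K x ≥ d W²/(2(d+1) + d W) = W - 2 (d+1) W/(2 (d+1) + d W) ≥ W - 2 (d+1)²/(d (d+3)) ≥ W - 2`. -/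
lemma sp_small_ge {x : V} (hx : x ∈ Vp G d) : d ≤ 2 * sp G d x := by
  by_contra hcon
  obtain ⟨y, hxy, hy, hsp, h⟩ := c.K_small_ge' hx
  have hd := c.dR
  have hd0 := c.dpos
  have hW := c.le_W_of_small hy
  have hW2 := c.W_le y
  have hr : (d : ℝ) / 2 ≤ (sp G d y : ℝ) - 1 := by
    have : ((d + 2 : ℕ) : ℝ) ≤ ((2 * sp G d y : ℕ) : ℝ) := by exact_mod_cast hsp
    push_cast at this
    linarith
  have h1 := star_mono (a := (d : ℝ) + 1) (by linarith) (by linarith) (by linarith) hr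
    (le_refl (W G d y)) h
  have hs : (sp G d x : ℝ) ≤ ((d : ℝ) - 1) / 2 := by
    have : 2 * sp G d x + 1 ≤ d := by omega
    have h2 : 2 * (sp G d x : ℝ) + 1 ≤ d := by exact_mod_cast this
    linarith
  have h2 := c.K_le_of_adj hy hxy.symm
  have hdegR : (G.degree x : ℝ) ≤ d + 1 := by rw [mem_Vp] at hx; exact_mod_cast hx
  have h3 : ((G.degree x : ℝ) - sp G d x) / (d + 2) ≤ ((d : ℝ) + 1 - sp G d x) / (d + 2) := by
    gcongr
  have h4 : ((sp G d x : ℝ) - 1) * (2 + 1 / d) + ((d : ℝ) + 1 - sp G d x) / (d + 2) =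
      (sp G d x : ℝ) * (2 + 1 / d - 1 / (d + 2)) - 2 - 1 / d + (d + 1) / (d + 2) := by
    field_simp
    ring
  have h5 : (1 : ℝ) / (d + 2) ≤ 1 := by
    rw [div_le_one (by linarith)]; linarith
  have h6 : (0 : ℝ) < 1 / d := by positivity
  have h7 : (sp G d x : ℝ) * (2 + 1 / d - 1 / (d + 2)) ≤
      (((d : ℝ) - 1) / 2) * (2 + 1 / d - 1 / (d + 2)) :=
    mul_le_mul_of_nonneg_right hs (by linarith)
  have h8 : (((d : ℝ) - 1) / 2) * (2 + 1 / d - 1 / (d + 2)) - 2 - 1 / d + (d + 1) / (d + 2) =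
      d - 2 - 3 / (2 * d) + 1 / (2 * (d + 2)) := by
    field_simp
    ring
  have h9 : (1 : ℝ) / (2 * (d + 2)) < 3 / (2 * d) := by
    rw [div_lt_div_iff₀ (by positivity) (by positivity)]
    nlinarith
  have hK : K G d x < W G d y - 2 := by linarith
  -- lower bound
  have h10 : K G d x * ((d : ℝ) + 1 + d / 2 * W G d y) <
      (W G d y - 2) * ((d : ℝ) + 1 + d / 2 * W G d y) := by
    apply mul_lt_mul_of_pos_right hK
    nlinarith
  have hW3 : (d : ℝ) * W G d y ≤ (d + 1) ^ 2 := by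
    have : (d : ℝ) * (d + 2 + 1 / d) = (d + 1) ^ 2 := by field_simp; ring
    rw [← this]
    exact mul_le_mul_of_nonneg_left hW2 hd0.le
  nlinarith

end Cx

end Pool.Agent.H2.RG
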