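import Mathlib
import Pool.Agent.H2.RG.StarC1

/-!
# Rigidity for `gap(G_{≥d})`: lower bounds for `K`   [H2 RG StarC2]

Notation in the comments: `a y = deg y`, `w y = W y - d`, `e y = a y - d`;
`w y = 2 + 1/d, 1, 1/(d+2)` for `e y = 0, 1, 2` and `w y ≤ -(d-1)/(d+3)` for `e y ≥ 3`
(`W_le`, `le_W_of_small`, `W_le_of_big`, `W_le_of_big3` of `Base`).  Small means `∈ Vp G d`.
-/

namespace Pool.Agent.H2.RG

open Finset Classical Pool.Agent.H17 Pool.Agent.H17.Exact

set_option linter.unusedSectionVars false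

variable {V : Type} [Fintype V] {G : SimpleGraph V} {d : ℕ}

namespace Cx

variable (c : Cx G d)

include c


/-- Every vertex with a small neighbour satisfies `K y ≥ d (d+1)/(d+2)`: for small `y` this is
`K_small_ge`; for big `y ~ x`, `x` small, `star_bound` at `x` with `T` = all small neighbours of
`x` (`|T| = sp x ≥ d/2`, `y ∉ T`) and `W x ≥ d + 1`. -/
lemma K_ge_of_adj {x y : V} (hx : x ∈ Vp G d) (hxy : G.Adj x y) :
    (d : ℝ) * (d + 1) ≤ (d + 2) * K G d y := by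
  by_cases hy : y ∈ Vp G d
  · exact c.K_small_ge hy
  have hd := c.dR
  have h := c.star_bound (x := x) (y := y) hxy (T := G.neighborFinset x ∩ Vp G d) (by
    intro t ht
    obtain ⟨h4, h5⟩ := mem_inter.1 ht
    exact ⟨mem_nbr.1 h4, h5, fun h6 => hy (h6 ▸ h5)⟩)
  have hr0 : (d : ℝ) ≤ ((2 * sp G d x : ℕ) : ℝ) := by exact_mod_cast c.sp_small_ge hx
  have hr : (d : ℝ) / 2 ≤ ((G.neighborFinset x ∩ Vp G d).card : ℝ) := by
    rw [sp] at hr0
    push_cast at hr0
    linarith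
  have h1 := star_mono (a := (d : ℝ) + 1) (by linarith) (by linarith)
    (show (0 : ℝ) ≤ (d : ℝ) + 1 by linarith) hr (c.le_W_of_small hx) h
  have h2 : (d : ℝ) / 2 * (d + 1) ^ 2 = ((d + 1) / 2) * (d * (d + 1)) := by ring
  have h3 : K G d y * ((d : ℝ) + 1 + d / 2 * (d + 1)) = ((d + 1) / 2) * ((d + 2) * K G d y) := by
    ring
  rw [h2, h3] at h1
  exact le_of_mul_le_mul_left h1 (by linarith)

/-- A big vertex `y` with a neighbour `x` of degree `d` satisfies `K y ≥ (d+1)³/(d (d+3))`: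
`star_bound` at `x` with `T` = all small neighbours of `x`, `|T| ≥ d/2`, `W x = (d+1)²/d`. -/
lemma K_big_ge {x y : V} (hx : G.degree x = d) (hxy : G.Adj x y) (hy : y ∉ Vp G d) :
    ((d : ℝ) + 1) ^ 3 ≤ d * (d + 3) * K G d y := by
  have hxs : x ∈ Vp G d := by rw [mem_Vp]; omega
  have hd := c.dR
  have hd0 := c.dpos
  have h := c.star_bound (x := x) (y := y) hxy (T := G.neighborFinset x ∩ Vp G d) (by
    intro t ht
    obtain ⟨h4, h5⟩ := mem_inter.1 ht
    exact ⟨mem_nbr.1 h4, h5, fun h6 => hy (h6 ▸ h5)⟩)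
  have hr0 : (d : ℝ) ≤ ((2 * sp G d x : ℕ) : ℝ) := by exact_mod_cast c.sp_small_ge hxs
  have hr : (d : ℝ) / 2 ≤ ((G.neighborFinset x ∩ Vp G d).card : ℝ) := by
    rw [sp] at hr0
    push_cast at hr0
    linarith
  have hW : W G d x = ((d : ℝ) + 1) ^ 2 / d := by rw [W, hx]
  have h1 := star_mono (a := (d : ℝ) + 1) (by linarith) (by linarith)
    (c.W_pos x).le hr (le_refl _) h
  rw [hW] at h1
  have h2 : (d : ℝ) / 2 * (((d : ℝ) + 1) ^ 2 / d) ^ 2 = ((d + 1) / (2 * d)) * (d + 1) ^ 3 := by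
    field_simp
  have h3 : K G d y * ((d : ℝ) + 1 + d / 2 * (((d : ℝ) + 1) ^ 2 / d)) =
      ((d + 1) / (2 * d)) * (d * (d + 3) * K G d y) := by
    field_simp
    ring
  rw [h2, h3] at h1
  exact le_of_mul_le_mul_left h1 (by positivity)

/-- The (at most one) poor line through a small `x` is not very poor:
`K y ≥ W x - 2 (d+1)²/((d+2)(d-1))`.
Proof: `star_bound` at `x` with `T` = small neighbours of `x` other than `y`,
`r = |T| ≥ sp x - 1 ≥ (d-2)/2`:  `K y ≥ r W²/(d+1+rW) = W - (d+1) W/(d+1+rW)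
≥ W - 2 (d+1) W/(2(d+1) + (d-2) W)`, and this decreases... the subtracted term increases with
`W ≤ (d+1)²/d`, where it equals `2 (d+1)²/((d+2)(d-1))`. -/
lemma K_ge_sub {x y : V} (hx : x ∈ Vp G d) (hxy : G.Adj x y) :
    W G d x - 2 * ((d : ℝ) + 1) ^ 2 / ((d + 2) * (d - 1)) ≤ K G d y := by
  have hd := c.dR
  have hd0 := c.dpos
  have hW0 := c.W_pos x
  have hW2 := c.W_le x
  have h := c.star_bound (x := x) (y := y) hxy (T := (G.neighborFinset x ∩ Vp G d).erase y) (by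
    intro t ht
    obtain ⟨h2, h3⟩ := mem_erase.1 ht
    obtain ⟨h4, h5⟩ := mem_inter.1 h3
    exact ⟨mem_nbr.1 h4, h5, h2⟩)
  have hr0 : (d : ℝ) ≤ ((2 * sp G d x : ℕ) : ℝ) := by exact_mod_cast c.sp_small_ge hx
  have hr : ((d : ℝ) - 2) / 2 ≤ ((((G.neighborFinset x ∩ Vp G d).erase y).card : ℕ) : ℝ) := by
    have h1 : sp G d x - 1 ≤ ((G.neighborFinset x ∩ Vp G d).erase y).card :=
      pred_card_le_card_erase
    have h2 : sp G d x ≤ ((G.neighborFinset x ∩ Vp G d).erase y).card + 1 := by omega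
    have h3 : (sp G d x : ℝ) ≤ ((((G.neighborFinset x ∩ Vp G d).erase y).card : ℕ) : ℝ) + 1 := by
      exact_mod_cast h2
    push_cast at hr0
    linarith
  have h1 := star_mono (a := (d : ℝ) + 1) (by linarith) (by linarith)
    hW0.le hr (le_refl _) h
  have hW3 : (d : ℝ) * W G d x ≤ (d + 1) ^ 2 := by
    have : (d : ℝ) * (d + 2 + 1 / d) = (d + 1) ^ 2 := by field_simp; ring
    rw [← this]
    exact mul_le_mul_of_nonneg_left hW2 hd0.le
  have hP : (0 : ℝ) < 2 * (d + 1) + (d - 2) * W G d x := by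
    have : (0 : ℝ) < (d - 2) * W G d x := mul_pos (by linarith) hW0
    linarith
  have hkey : 2 * ((d : ℝ) + 1) * W G d x / (2 * (d + 1) + (d - 2) * W G d x) ≤
      2 * ((d : ℝ) + 1) ^ 2 / ((d + 2) * (d - 1)) := by
    have hQ : (0 : ℝ) < (d + 2) * (d - 1) := mul_pos (by linarith) (by linarith)
    rw [div_le_div_iff₀ hP hQ]
    have e1 : 2 * ((d : ℝ) + 1) ^ 2 * (2 * (d + 1) + (d - 2) * W G d x) -
        2 * ((d : ℝ) + 1) * W G d x * ((d + 2) * (d - 1)) =
        4 * (d + 1) * ((d + 1) ^ 2 - d * W G d x) := by ring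
    have e2 : 0 ≤ 4 * ((d : ℝ) + 1) * ((d + 1) ^ 2 - d * W G d x) :=
      mul_nonneg (by linarith) (by linarith)
    linarith
  have hlow : W G d x - 2 * ((d : ℝ) + 1) * W G d x / (2 * (d + 1) + (d - 2) * W G d x) ≤
      K G d y := by
    have e3 : W G d x - 2 * ((d : ℝ) + 1) * W G d x / (2 * (d + 1) + (d - 2) * W G d x) =
        ((d - 2) * W G d x ^ 2) / (2 * (d + 1) + (d - 2) * W G d x) := by
      rw [eq_div_iff hP.ne', sub_mul, div_mul_cancel₀ _ hP.ne']
      ring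
    rw [e3, div_le_iff₀ hP]
    linarith
  linarith

end Cx

end Pool.Agent.H2.RG
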