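import Mathlib
import Pool.Agent.H2.RG.StarC2

/-!
# Rigidity for `gap(G_{≥d})`: many small collinear vertices   [H2 RG NxA1]

`nx x` = number of small vertices collinear with `x`.  For small `x` the sets
`N(y) ∩ Vp \ {x}`, `y ~ x`, are disjoint (`common_unique`) with union `{u | HG.Adj x u}`, so
`nx x = ∑_{y ~ x} (sp y - 1)`.
-/

namespace Pool.Agent.H2.RG

open Finset Classical Pool.Agent.H17 Pool.Agent.H17.Exact

set_option linter.unusedSectionVars false

variable {V : Type} [Fintype V] {G : SimpleGraph V} {d : ℕ}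

namespace Cx

variable (c : Cx G d)

include c

/-- Compare `Ctx.sum_sp` in `Pool.Agent.H17.ExactG` (same counting). -/
lemma nx_eq {x : V} (hx : x ∈ Vp G d) :
    (nx G d x : ℝ) = ∑ y ∈ G.neighborFinset x, ((sp G d y : ℝ) - 1) := by
  have h1 : ∀ y ∈ G.neighborFinset x,
      (((G.neighborFinset y ∩ Vp G d).erase x).card : ℝ) = (sp G d y : ℝ) - 1 := by
    intro y hy
    have h2 : ((G.neighborFinset y ∩ Vp G d).erase x).card + 1 = sp G d y := by
      rw [card_erase_add_one, sp]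
      rw [mem_nbr] at hy
      rw [mem_inter, mem_nbr]
      exact ⟨hy.symm, hx⟩
    rw [← h2]
    push_cast
    ring
  rw [← sum_congr rfl h1, nx]
  have h3 : (univ.filter fun u => (HG G d).Adj x u) =
      (G.neighborFinset x).biUnion fun y => (G.neighborFinset y ∩ Vp G d).erase x := by
    ext u
    rw [mem_filter, mem_biUnion]
    constructor
    · rintro ⟨_, hne, _, hu, w, hw1, hw2⟩
      refine ⟨w, mem_nbr.2 hw1.symm, ?_⟩
      rw [mem_erase, mem_inter, mem_nbr]
      exact ⟨hne.symm, hw2, hu⟩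
    · rintro ⟨y, hy, hu⟩
      rw [mem_erase, mem_inter, mem_nbr] at hu
      rw [mem_nbr] at hy
      exact ⟨mem_univ _, hu.1.symm, hx, hu.2.2, y, hy.symm, hu.2.1⟩
  rw [h3, card_biUnion]
  · push_cast
    rfl
  · intro y hy y' hy' hne
    rw [Function.onFun, disjoint_left]
    intro w hw hw'
    rw [mem_erase, mem_inter, mem_nbr] at hw hw'
    have hy1 : G.Adj x y := mem_nbr.1 hy
    have hy2 : G.Adj x y' := mem_nbr.1 hy'
    exact hne (c.common_unique hw.1 hw.2.2 hx hw.2.1 hy1.symm hw'.2.1 hy2.symm)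

/-- The line inequality.  Let `k = sp y - 1 ≥ 0`, `a = deg y`, `λ = 2 + 1/d - 1/(d+2)
= 2 (d+1)²/(d(d+2))`, `ρ = 2 (d+1)²/((d+2)(d-1))`.  From `K_le_of_adj`, with `W x ≤ K y` or
(`K_ge_sub`) `W x - ρ ≤ K y`:
`d - [ρ] ≤ k (2 + 1/d) + (a - 1 - k)/(d+2)`, i.e. `λ k ≥ d - [ρ] - (a-1)/(d+2)`.
Claim: `λ k ≥ d (w y + d - 1)/(d+2) - [ρ]`, where `w y = W y - d = (d+1)²/a - d`.
If `a ≥ (d+1)²` the right side is `≤ 0`.  Otherwise
`d - (a-1)/(d+2) - d ((d+1)²/a - 1)/(d+2) = (a-d)((d+1)² - a)/(a (d+2)) ≥ 0`. -/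
lemma line_ineq {x y : V} (hx : x ∈ Vp G d) (hxy : G.Adj x y) :
    (d : ℝ) * (W G d y - 1) / (d + 2) -
      (if K G d y < W G d x then 2 * ((d : ℝ) + 1) ^ 2 / ((d + 2) * (d - 1)) else 0) ≤
      (2 + 1 / d - 1 / (d + 2)) * ((sp G d y : ℝ) - 1) := by
  have hd := c.dR
  have hd0 := c.dpos
  have ha := c.degR y
  have ha0 := c.degpos y
  have hsp : (1 : ℝ) ≤ (sp G d y : ℝ) := by
    have : 1 ≤ sp G d y := by
      rw [sp, Nat.one_le_iff_ne_zero, ← Nat.pos_iff_ne_zero, card_pos]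
      exact ⟨x, mem_inter.2 ⟨mem_nbr.2 hxy.symm, hx⟩⟩
    exact_mod_cast this
  have h1 := c.K_le_of_adj hx hxy
  have h2 := c.K_ge_sub hx hxy
  set k : ℝ := (sp G d y : ℝ) - 1 with hk
  set a : ℝ := (G.degree y : ℝ) with haa
  set ρ : ℝ := 2 * ((d : ℝ) + 1) ^ 2 / ((d + 2) * (d - 1)) with hρ
  have hρ0 : 0 ≤ ρ := by
    rw [hρ]
    apply div_nonneg (by positivity)
    apply mul_nonneg (by linarith) (by linarith)
  have hk0 : 0 ≤ k := by linarith
  have hlam : 0 ≤ (2 : ℝ) + 1 / d - 1 / (d + 2) := by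
    have : (1 : ℝ) / (d + 2) ≤ 1 := by
      rw [div_le_one (by linarith)]
      linarith
    have h4 : (0 : ℝ) ≤ 1 / d := by positivity
    linarith
  have h3 : (d : ℝ) - (if K G d y < W G d x then ρ else 0) - (a - 1) / (d + 2) ≤
      (2 + 1 / d - 1 / (d + 2)) * k := by
    have h5 : (a - sp G d y) / ((d : ℝ) + 2) = (a - 1) / (d + 2) - 1 / (d + 2) * k := by
      rw [hk]
      field_simp
      ring
    rw [h5] at h1
    split_ifs with h
    · nlinarith
    · push Not at h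
      nlinarith
  rcases le_total (((d : ℝ) + 1) ^ 2) a with h | h
  · have h6 : W G d y ≤ 1 := by
      rw [W, div_le_one ha0]
      exact h
    have h7 : (d : ℝ) * (W G d y - 1) / (d + 2) ≤ 0 := by
      apply div_nonpos_of_nonpos_of_nonneg _ (by linarith)
      nlinarith
    have h8 : 0 ≤ (if K G d y < W G d x then ρ else 0) := by
      split_ifs
      · exact hρ0
      · exact le_refl _
    have h9 := mul_nonneg hlam hk0
    linarith
  · have h6 : (d : ℝ) * (W G d y - 1) / (d + 2) ≤ d - (a - 1) / (d + 2) := by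
      have h7 : (d : ℝ) - (a - 1) / (d + 2) = (d * (d + 2) - (a - 1)) / (d + 2) := by
        field_simp
      rw [h7]
      apply div_le_div_of_nonneg_right _ (by linarith)
      have h8 : W G d y * a = ((d : ℝ) + 1) ^ 2 := by
        rw [W]
        exact div_mul_cancel₀ _ ha0.ne'
      have h9 : (a - d) * (a - ((d : ℝ) + 1) ^ 2) ≤ 0 :=
        mul_nonpos_of_nonneg_of_nonpos (by linarith) (by linarith)
      have h10 : 0 ≤ a * ((d : ℝ) * (d + 2) - (a - 1) - d * (W G d y - 1)) := by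
        have : a * ((d : ℝ) * (d + 2) - (a - 1) - d * (W G d y - 1)) =
            a * ((d : ℝ) * (d + 2) + 1 + d) - a ^ 2 - d * (W G d y * a) := by ring
        rw [this, h8]
        nlinarith
      have h11 := nonneg_of_mul_nonneg_right h10 ha0
      linarith
    linarith

end Cx

end Pool.Agent.H2.RG
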