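import Mathlib
import Pool.Agent.H2.RG.NxA1

/-!
# Rigidity for `gap(G_{≥d})`: many small collinear vertices   [H2 RG NxA2]

`nx x` = number of small vertices collinear with `x`.  For small `x` the sets
`N(y) ∩ Vp \ {x}`, `y ~ x`, are disjoint (`common_unique`) with union `{u | HG.Adj x u}`, so
`nx x = ∑_{y ~ x} (sp y - 1)`.
-/

namespace Pool.Agent.H2.RG

open Finset Classical Pool.Agent.H17 Pool.Agent.H17.Exact

set_option linter.unusedSectionVars false

variable {V : Type} [Fintype V] {G : SimpleGraph V} {d : ℕ}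

namespace Cx

variable (c : Cx G d)

include c

/-- Sum of `line_ineq` over `y ~ x`; at most one `y` is poor (`poor_unique`);
`∑ (W y - 1) = K x + (d - 1) deg x`, `K x ≥ d (d+1)/(d+2)` (`K_small_ge`), `deg x ≥ d`:
`λ nx ≥ d² (d² + 2d - 1)/(d+2)² - ρ`, hence
`2 nx ≥ d³ (d² + 2d - 1)/((d+1)² (d+2)) - 2d/(d-1) ≥ d² - 2d - 1` for `d ≥ 9`
(difference `62.7 - 62` at `d = 9`; put `d = 9 + t`). -/
lemma nx_ge (hd : 9 ≤ d) {x : V} (hx : x ∈ Vp G d) : d ^ 2 ≤ 2 * nx G d x + 2 * d + 1 := by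
  have hd9 : (9 : ℝ) ≤ d := by exact_mod_cast hd
  set D : ℝ := (d : ℝ) with hD
  set rho : ℝ := 2 * (D + 1) ^ 2 / ((D + 2) * (D - 1)) with hrho
  have hrho0 : 0 ≤ rho := div_nonneg (by positivity) (mul_nonneg (by linarith) (by linarith))
  -- sum of the line inequalities
  have h1 : ∑ y ∈ G.neighborFinset x, (D * (W G d y - 1) / (D + 2) -
      (if K G d y < W G d x then rho else 0)) ≤
      ∑ y ∈ G.neighborFinset x, (2 + 1 / D - 1 / (D + 2)) * ((sp G d y : ℝ) - 1) := by
    refine sum_le_sum fun y hy => ?_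
    exact c.line_ineq hx (by simpa using hy)
  rw [← mul_sum, ← c.nx_eq hx, sum_sub_distrib] at h1
  have h2 : ∑ y ∈ G.neighborFinset x, (if K G d y < W G d x then rho else 0) ≤ rho := by
    rw [← sum_filter, sum_const, nsmul_eq_mul]
    have h3 : ((G.neighborFinset x).filter fun y => K G d y < W G d x).card ≤ 1 := by
      rw [card_le_one]
      intro y hy y' hy'
      rw [mem_filter] at hy hy'
      exact c.poor_unique (by simpa using hy.1) (by simpa using hy'.1) hy.2 hy'.2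
    have h4 : (((G.neighborFinset x).filter fun y => K G d y < W G d x).card : ℝ) ≤ 1 := by
      exact_mod_cast h3
    nlinarith
  have h5 : ∑ y ∈ G.neighborFinset x, D * (W G d y - 1) / (D + 2) =
      D / (D + 2) * (K G d x + (D - 1) * G.degree x) := by
    have e1 : ∑ y ∈ G.neighborFinset x, (W G d y - 1) = K G d x + (D - 1) * G.degree x := by
      rw [K, sum_sub_distrib, sum_sub_distrib, sum_const, sum_const,
        SimpleGraph.card_neighborFinset_eq_degree, nsmul_eq_mul, nsmul_eq_mul]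
      ring
    rw [← e1, mul_sum]
    refine sum_congr rfl fun y _ => ?_
    ring
  have h6 := c.K_small_ge hx
  have h7 := c.degR x
  rw [← hD] at h6 h7
  have hK : D * (D + 1) / (D + 2) ≤ K G d x := by
    rw [div_le_iff₀ (by linarith)]
    linarith
  have h8 : D / (D + 2) * (D * (D + 1) / (D + 2) + (D - 1) * D) ≤
      D / (D + 2) * (K G d x + (D - 1) * G.degree x) := by
    apply mul_le_mul_of_nonneg_left _ (by positivity)
    have : (D - 1) * D ≤ (D - 1) * G.degree x :=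
      mul_le_mul_of_nonneg_left h7 (by linarith)
    linarith
  rw [h5] at h1
  have h9 : D / (D + 2) * (D * (D + 1) / (D + 2) + (D - 1) * D) - rho ≤
      (2 + 1 / D - 1 / (D + 2)) * (nx G d x : ℝ) := by linarith
  have hfac : (2 + 1 / D - 1 / (D + 2)) = 2 * (D + 1) ^ 2 / (D * (D + 2)) := by
    field_simp
    ring
  rw [hfac] at h9
  have h10 : 2 * (D + 1) ^ 2 / (D * (D + 2)) * (D ^ 2 - 2 * D - 1) ≤
      2 * (D / (D + 2) * (D * (D + 1) / (D + 2) + (D - 1) * D) - rho) := by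
    rw [hrho]
    have e2 : 2 * (D / (D + 2) * (D * (D + 1) / (D + 2) + (D - 1) * D) -
        2 * (D + 1) ^ 2 / ((D + 2) * (D - 1))) - 2 * (D + 1) ^ 2 / (D * (D + 2)) *
        (D ^ 2 - 2 * D - 1) = 2 * (D ^ 3 * (D ^ 2 + 2 * D - 1) * (D - 1) -
          2 * D * (D + 1) ^ 2 * (D + 2) - (D ^ 2 - 2 * D - 1) * (D + 1) ^ 2 * (D + 2) * (D - 1)) /
          (D * (D + 2) ^ 2 * (D - 1)) := by
      have hD1 : D - 1 ≠ 0 := by linarith
      have hD2 : D + 2 ≠ 0 := by linarith
      have hD0 : D ≠ 0 := by linarith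
      field_simp
      ring
    have e3 : 0 ≤ 2 * (D ^ 3 * (D ^ 2 + 2 * D - 1) * (D - 1) -
          2 * D * (D + 1) ^ 2 * (D + 2) - (D ^ 2 - 2 * D - 1) * (D + 1) ^ 2 * (D + 2) * (D - 1)) /
          (D * (D + 2) ^ 2 * (D - 1)) := by
      apply div_nonneg
      · obtain ⟨t, ht⟩ : ∃ t : ℝ, D = 9 + t := ⟨D - 9, by ring⟩
        have ht0 : 0 ≤ t := by linarith
        rw [ht]
        ring_nf
        positivity
      · apply mul_nonneg (by positivity)
        linarith
    linarith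
  have hpos : 0 < 2 * (D + 1) ^ 2 / (D * (D + 2)) := by positivity
  have h11 : 2 * (D + 1) ^ 2 / (D * (D + 2)) * (D ^ 2 - 2 * D - 1) ≤
      2 * (D + 1) ^ 2 / (D * (D + 2)) * (2 * (nx G d x : ℝ)) := by
    calc _ ≤ _ := h10
      _ ≤ 2 * (2 * (D + 1) ^ 2 / (D * (D + 2)) * (nx G d x : ℝ)) := by linarith
      _ = _ := by ring
  have h12 : D ^ 2 - 2 * D - 1 ≤ 2 * (nx G d x : ℝ) := le_of_mul_le_mul_left h11 hpos
  have h13 : (d : ℝ) ^ 2 ≤ 2 * (nx G d x : ℝ) + 2 * d + 1 := by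
    rw [← hD]
    linarith
  exact_mod_cast h13

end Cx

end Pool.Agent.H2.RG
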