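import Mathlib
import Pool.Agent.H2.RG.NxA2

/-!
# Rigidity for `gap(G_{≥d})`: many small collinear vertices   [H2 RG NxB]

`nx x` = number of small vertices collinear with `x`.  For small `x` the sets
`N(y) ∩ Vp \ {x}`, `y ~ x`, are disjoint (`common_unique`) with union `{u | HG.Adj x u}`, so
`nx x = ∑_{y ~ x} (sp y - 1)`.
-/

namespace Pool.Agent.H2.RG

open Finset Classical Pool.Agent.H17 Pool.Agent.H17.Exact

set_option linter.unusedSectionVars false

variable {V : Type} [Fintype V] {G : SimpleGraph V} {d : ℕ}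

private lemma NxB_W (y : V) : W G 7 y = 64 / G.degree y := by
  rw [W]
  norm_num

/-- the lower bound for `K x` -/
private lemma NxB_K (c : Cx G 7) {x : V} (hx : x ∈ Vp G 7) : (32 : ℝ) / 5 ≤ K G 7 x := by
  obtain ⟨y, -, hy, hsp, hK⟩ := c.K_small_ge' hx
  have hW := c.le_W_of_small hy
  push_cast at hW hK
  have hs : (5 : ℝ) ≤ sp G 7 y := by
    have : 5 ≤ sp G 7 y := by omega
    exact_mod_cast this
  set r : ℝ := (sp G 7 y : ℝ) - 1 with hr
  set w : ℝ := W G 7 y with hw
  have hr4 : 4 ≤ r := by linarith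
  have hw8 : 8 ≤ w := by linarith
  have hrw : 32 ≤ r * w := by nlinarith
  have hK0 := c.K_nonneg x
  have h1 : r * w * w ≤ K G 7 x * (5 / 4 * (r * w)) := by
    calc r * w * w = r * w ^ 2 := by ring
      _ ≤ K G 7 x * (7 + 1 + r * w) := hK
      _ ≤ K G 7 x * (5 / 4 * (r * w)) := by
        apply mul_le_mul_of_nonneg_left _ hK0
        linarith
  have h2 : r * w * w ≤ r * w * (5 / 4 * K G 7 x) := by linarith
  have h3 : w ≤ 5 / 4 * K G 7 x := le_of_mul_le_mul_left h2 (by linarith)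
  linarith

/-- `W x - K y ≤ 8 W x / (8 + t W x)` in the form needed -/
private lemma NxB_star {w t k m B : ℝ} (hw0 : 0 < w) (hw : w ≤ 64 / 7) (hm : 0 < m)
    (ht : m ≤ t) (h : t * w ^ 2 ≤ k * (7 + 1 + t * w))
    (hB : 8 * (64 / 7) ≤ B * (8 + m * (64 / 7))) (hB0 : 0 ≤ B) :
    w - B ≤ k := by
  have h1 : 0 < 7 + 1 + t * w := by nlinarith
  by_contra hcon
  rw [not_le] at hcon
  have h2 : k * (7 + 1 + t * w) < (w - B) * (7 + 1 + t * w) :=
    mul_lt_mul_of_pos_right hcon h1
  have h3 : t * w ^ 2 < (w - B) * (7 + 1 + t * w) := lt_of_le_of_lt h h2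
  have h4 : B * (8 + t * w) < 8 * w := by nlinarith
  have h5 : B * (8 + m * w) ≤ B * (8 + t * w) := by
    apply mul_le_mul_of_nonneg_left _ hB0
    nlinarith
  nlinarith

/-- the line inequality for `d = 7` -/
private lemma NxB_line (c : Cx G 7) {x y : V} (hx : x ∈ Vp G 7) (hxy : G.Adj x y) :
    (28 / 57 : ℝ) * (64 / G.degree y - 1) - (if K G 7 y < W G 7 x then (1 : ℝ) else 0) ≤
      (sp G 7 y : ℝ) - 1 := by
  have hK := c.K_le_of_adj hx hxy
  have hspy : 1 ≤ sp G 7 y := by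
    rw [sp]
    exact card_pos.2 ⟨x, mem_inter.2 ⟨(G.mem_neighborFinset y x).2 hxy.symm, hx⟩⟩
  obtain ⟨k, hk⟩ : ∃ k, sp G 7 y = k + 1 := ⟨sp G 7 y - 1, by omega⟩
  have hdy : 7 ≤ G.degree y := c.hdeg y
  have hspx : 4 ≤ sp G 7 x := by
    have := c.sp_small_ge hx
    omega
  have hWx : W G 7 x ≤ 64 / 7 := by
    have := c.W_le x
    norm_num at this
    linarith
  have hWx0 := c.W_pos x
  rw [hk] at hK ⊢
  push_cast at hK ⊢
  set a : ℝ := (G.degree y : ℝ) with ha
  have ha7 : (7 : ℝ) ≤ a := by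
    rw [ha]
    exact_mod_cast hdy
  have ha0 : 0 < a := by linarith
  have hk0 : (0 : ℝ) ≤ k := Nat.cast_nonneg k
  have hdiv : (28 / 57 : ℝ) * (64 / a - 1) = (28 * (64 - a)) / (57 * a) := by
    field_simp
  -- the goal without fractions
  have key : ∀ e : ℝ, 28 * (64 - a) ≤ 57 * (k + e) * a →
      (28 / 57 : ℝ) * (64 / a - 1) - e ≤ (k : ℝ) + 1 - 1 := by
    intro e he
    rw [hdiv]
    have h1 : (28 * (64 - a)) / (57 * a) ≤ k + e := by
      rw [div_le_iff₀ (by positivity)]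
      linarith
    linarith
  by_cases hp : K G 7 y < W G 7 x
  · rw [if_pos hp]
    apply key
    by_cases hy : y ∈ Vp G 7
    · -- y small
      set T : Finset V := (G.neighborFinset x ∩ Vp G 7).erase y with hT
      have hTc : 3 ≤ T.card := by
        rw [hT]
        have h1 := pred_card_le_card_erase (s := G.neighborFinset x ∩ Vp G 7) (a := y)
        have h2 : sp G 7 x = (G.neighborFinset x ∩ Vp G 7).card := rfl
        omega
      have hs := c.star_bound hxy (T := T) (by
        intro t ht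
        rw [hT, mem_erase, mem_inter, SimpleGraph.mem_neighborFinset] at ht
        exact ⟨ht.2.1, ht.2.2, ht.1⟩)
      push_cast at hs
      have hTc' : (3 : ℝ) ≤ T.card := by exact_mod_cast hTc
      have h3 := NxB_star (B := 64 / 31) hWx0 hWx (by norm_num) hTc' hs (by norm_num)
        (by norm_num)
      have ha8 : a ≤ 8 := by
        rw [mem_Vp] at hy
        rw [ha]
        exact_mod_cast hy
      have hk2 : (2 : ℝ) < k := by
        norm_num at hK
        linarith
      have hk3 : 3 ≤ k := by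
        have : 2 < k := by exact_mod_cast hk2
        omega
      have hk3' : (3 : ℝ) ≤ k := by exact_mod_cast hk3
      nlinarith
    · -- y big
      have hs := c.star_bound hxy (T := G.neighborFinset x ∩ Vp G 7) (by
        intro t ht
        rw [mem_inter, SimpleGraph.mem_neighborFinset] at ht
        exact ⟨ht.1, ht.2, fun h => hy (h ▸ ht.2)⟩)
      push_cast at hs
      have hTc' : (4 : ℝ) ≤ (G.neighborFinset x ∩ Vp G 7).card := by exact_mod_cast hspx
      have h3 := NxB_star (B := 64 / 39) hWx0 hWx (by norm_num) hTc' hs (by norm_num)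
        (by norm_num)
      have ha9 : (9 : ℝ) ≤ a := by
        have := c.not_mem_Vp hy
        rw [ha]
        exact_mod_cast this
      have h4 : (337 : ℝ) ≤ 128 * k + 7 * (a - 1) := by
        norm_num at hK
        linarith
      have hkcases : k = 0 ∨ k = 1 ∨ k = 2 ∨ 3 ≤ k := by omega
      rcases hkcases with rfl | rfl | rfl | h5
      · norm_num at h4 ⊢
        linarith
      · norm_num at h4 ⊢
        linarith
      · norm_num at h4 ⊢
        linarith
      · have h5' : (3 : ℝ) ≤ k := by exact_mod_cast h5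
        nlinarith
  · rw [if_neg hp]
    apply key
    rw [not_lt] at hp
    have h4 : (441 : ℝ) ≤ 128 * k + 7 * (a - 1) := by
      norm_num at hK
      linarith
    by_cases ha9 : 9 ≤ a
    · nlinarith
    · rw [not_le] at ha9
      have hk3 : (3 : ℝ) < k := by linarith
      have hk4 : 4 ≤ k := by
        have : 3 < k := by exact_mod_cast hk3
        omega
      have hk4' : (4 : ℝ) ≤ k := by exact_mod_cast hk4
      nlinarith

namespace Cx

variable (c : Cx G d)

include c

/-- The case `d = 7`: `nx x ≥ 23`.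
Here `W y = 64/a`, `2 + 1/d = 15/7`.
(1) `K x ≥ 32/5` for small `x`: in `K_small_ge'`, `sp y ≥ 5`, so `r ≥ 4` and
`K x ≥ 4 W²/(8 + 4 W) = W²/(2+W)`, `W ≥ 8`, which is `≥ 64/10`.
(2) `sp x ≥ 4` for small `x` (`sp_small_ge`).
(3) For `y ~ x`, with `k = sp y - 1`, `a = deg y`:  `k ≥ (28/57)(64/a - 1) - [y poor at x]`.
  - not poor: `7 ≤ k·15/7 + (a-1-k)/9`, i.e. `k ≥ 7 (64 - a)/128`.  `k = 0`: `a ≥ 64`;
    `k = 1`: `a ≥ 46`, right side `≤ 0.2`; `k = 2`: `a ≥ 28`, right side `≤ 0.64`;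
    `k = 3`: `a ≥ 10`, right side `≤ 2.66`; `k ≥ 4`: right side `≤ 4` as `a ≥ 7`.
  - poor and `y` big (`a ≥ 9`): `star_bound` at `x` with all `sp x ≥ 4` small neighbours:
    `K y ≥ W²/(2+W)`, `W x - K y ≤ 2W/(2+W) ≤ 64/39`; so
    `7 - 64/39 ≤ k·15/7 + (a-1-k)/9`.  `k = 0`: `a ≥ 49`; `k = 1`: `a ≥ 31`;
    `k = 2`: `a ≥ 13`; the claim is clear; `k ≥ 3`: right side `≤ (28/57)(64/9-1) - 1 ≤ 2.01`.
  - poor and `y` small (`a ∈ {7, 8}`): `star_bound` at `x` with the `≥ 3` other small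
    neighbours: `K y ≥ 3W²/(8+3W)`, `W x - K y ≤ 8W/(8+3W) ≤ 64/31`;
    `7 - 64/31 ≤ k·15/7 + (a-1-k)/9` gives `k ≥ 3`, and the right side is `≤ 4 - 1 = 3`.
(4) Sum: `nx x ≥ (28/57)(K x + 6 a(x)) - 1 ≥ (28/57)(32/5 + 42) - 1 > 22` (`= 22.77`), since
`∑ (64/a - 1) = K x + 6 deg x` and at most one `y` is poor. -/
lemma nx_ge_seven (hd : d = 7) {x : V} (hx : x ∈ Vp G d) : 23 ≤ nx G d x := by
  subst hd
  have hdx : (7 : ℝ) ≤ G.degree x := by
    have := c.degR x
    exact_mod_cast this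
  have hK : (32 : ℝ) / 5 ≤ K G 7 x := NxB_K c hx
  have hWy : ∀ y, W G 7 y = 64 / G.degree y := NxB_W
  -- the sum of the line inequalities
  have h1 : ∑ y ∈ G.neighborFinset x, ((28 / 57 : ℝ) * (64 / G.degree y - 1) -
      (if K G 7 y < W G 7 x then (1 : ℝ) else 0)) ≤
      ∑ y ∈ G.neighborFinset x, ((sp G 7 y : ℝ) - 1) :=
    sum_le_sum fun y hy => NxB_line c hx ((G.mem_neighborFinset x y).1 hy)
  rw [← c.nx_eq hx, sum_sub_distrib, ← mul_sum] at h1
  have h2 : ∑ y ∈ G.neighborFinset x, ((64 : ℝ) / G.degree y - 1) =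
      K G 7 x + 6 * G.degree x := by
    have h3 : ∀ y ∈ G.neighborFinset x, ((64 : ℝ) / G.degree y - 1) =
        (W G 7 y - ((7 : ℕ) : ℝ)) + 6 := by
      intro y _
      rw [hWy]
      push_cast
      ring
    rw [sum_congr rfl h3, sum_add_distrib, sum_const,
      SimpleGraph.card_neighborFinset_eq_degree, nsmul_eq_mul, K]
    ring
  have h4 : ∑ y ∈ G.neighborFinset x, (if K G 7 y < W G 7 x then (1 : ℝ) else 0) ≤ 1 := by
    rw [← sum_filter, sum_const, nsmul_eq_mul, mul_one]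
    have : (filter (fun y => K G 7 y < W G 7 x) (G.neighborFinset x)).card ≤ 1 := by
      refine card_le_one.2 fun y hy y' hy' => ?_
      rw [mem_filter, SimpleGraph.mem_neighborFinset] at hy hy'
      exact c.poor_unique hy.1 hy'.1 hy.2 hy'.2
    exact_mod_cast this
  rw [h2] at h1
  have h5 : (22 : ℝ) < nx G 7 x := by linarith
  have h6 : 22 < nx G 7 x := by exact_mod_cast h5
  omega

end Cx

end Pool.Agent.H2.RG
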