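import Mathlib
import Pool.Agent.H2.RG.NxB

/-!
# Rigidity for `gap(G_{≥d})`: many small collinear vertices   [H2 RG NxC]

`nx x` = number of small vertices collinear with `x`.  For small `x` the sets
`N(y) ∩ Vp \ {x}`, `y ~ x`, are disjoint (`common_unique`) with union `{u | HG.Adj x u}`, so
`nx x = ∑_{y ~ x} (sp y - 1)`.
-/

namespace Pool.Agent.H2.RG

open Finset Classical Pool.Agent.H17 Pool.Agent.H17.Exact

set_option linter.unusedSectionVars false

variable {V : Type} [Fintype V] {G : SimpleGraph V} {d : ℕ}

namespace Cx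

variable (c : Cx G d)

include c

/-- What is used for the cluster structure. -/
lemma nx_ge_three (hd : d = 7 ∨ 9 ≤ d) {x : V} (hx : x ∈ Vp G d) :
    3 * d + 2 ≤ nx G d x := by
  rcases hd with h | h
  · have := c.nx_ge_seven h hx
    omega
  · have h1 := c.nx_ge h hx
    nlinarith

end Cx

end Pool.Agent.H2.RG
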