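import Mathlib
import Pool.Agent.H2.RG.NxC
import Pool.Agent.H2.RG.LocalB3
import Pool.Agent.H17.ExactF

/-!
# Rigidity for `gap(G_{≥d})`: clusters of small vertices
-/

namespace Pool.Agent.H2.RG

open Finset Classical Pool.Agent.H17 Pool.Agent.H17.Exact

set_option linter.unusedSectionVars false

variable {V : Type} [Fintype V] {G : SimpleGraph V} {d : ℕ}

/-- `Cx` and transitivity of collinearity of small vertices -/
structure Ct (G : SimpleGraph V) (d : ℕ) : Prop extends Cx G d where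
  trans : ∀ x y z, (HG G d).Adj x y → (HG G d).Adj y z → x ≠ z → (HG G d).Adj x z

lemma Cx.toCt (c : Cx G d) (hd : d = 7 ∨ 9 ≤ d) : Ct G d := by
  refine { toCx := c, trans := ?_ }
  intro x y z hxy hyz hne
  have h1 : Clq (HG G d) (NH (HG G d) y) :=
    nbr_clique c.hd c.psd (c.nx_ge_three hd hyz.2.1)
      (fun u hu => c.nx_ge_three hd hu.2.2.1)
  exact h1 x (mem_NH.2 hxy.symm) z (mem_NH.2 hyz) hne

lemma mem_cl_self (z : V) : z ∈ cl G d z := by rw [mem_cl]; exact Or.inl rfl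

lemma card_cl (z : V) : (cl G d z).card = nx G d z + 1 := by
  rw [cl, card_insert_of_notMem, nx]
  simp

namespace Ct

variable (c : Ct G d)

include c

lemma cl_clq (z : V) : Clq (HG G d) (cl G d z) := by
  intro x hx y hy hxy
  rw [mem_cl] at hx hy
  rcases hx with rfl | hx
  · rcases hy with rfl | hy
    · exact absurd rfl hxy
    · exact hy
  · rcases hy with rfl | hy
    · exact hx.symm
    · exact c.trans x z y hx.symm hy hxy

lemma cl_sub {z x : V} (hz : z ∈ Vp G d) (hx : x ∈ cl G d z) : x ∈ Vp G d := by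
  rw [mem_cl] at hx
  rcases hx with rfl | h
  · exact hz
  · exact h.2.2.1

lemma cl_closed {z x w : V} (hx : x ∈ cl G d z) (hxw : (HG G d).Adj x w) : w ∈ cl G d z := by
  rw [mem_cl] at hx ⊢
  by_cases h : w = z
  · exact Or.inl h
  · rcases hx with rfl | hx
    · exact Or.inr hxw
    · exact Or.inr (c.trans z x w hx hxw (Ne.symm h))

/-- the small neighbours of a line meeting the cluster are in the cluster -/
lemma line_sub {z x y w : V} (hz : z ∈ Vp G d) (hx : x ∈ cl G d z) (hyx : G.Adj y x)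
    (hyw : G.Adj y w) (hw : w ∈ Vp G d) : w ∈ cl G d z := by
  by_cases h : x = w
  · rw [← h]; exact hx
  · exact c.cl_closed hx ⟨h, c.cl_sub hz hx, hw, y, hyx, hyw⟩

/-- the points of a line meeting the cluster -/
lemma nbr_inter {z x y : V} (hz : z ∈ Vp G d) (hx : x ∈ cl G d z) (hyx : G.Adj y x) :
    G.neighborFinset y ∩ cl G d z = G.neighborFinset y ∩ Vp G d := by
  ext w
  rw [mem_inter, mem_inter, mem_nbr]
  exact ⟨fun h => ⟨h.1, c.cl_sub hz h.2⟩, fun h => ⟨h.1, c.line_sub hz hx hyx h.1 h.2⟩⟩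

lemma cn_cl {z x x' : V} (hz : z ∈ Vp G d) (hx : x ∈ cl G d z) (hx' : x' ∈ cl G d z)
    (hne : x ≠ x') : Seven.cn G x x' = 1 := by
  rw [c.cn_HG hne (c.cl_sub hz hx) (c.cl_sub hz hx'), if_pos (c.cl_clq z x hx x' hx' hne)]

lemma exists_of_sp_pos {u : V} (h : 1 ≤ sp G d u) : ∃ x, G.Adj u x ∧ x ∈ Vp G d := by
  obtain ⟨x, hx⟩ := card_pos.1 h
  rw [mem_inter, mem_nbr] at hx
  exact ⟨x, hx⟩

lemma sp_pos_of_adj {u x : V} (h : G.Adj u x) (hx : x ∈ Vp G d) : 1 ≤ sp G d u :=
  card_pos.2 ⟨x, mem_inter.2 ⟨mem_nbr.2 h, hx⟩⟩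

lemma sp_lt_card {u x : V} (hux : G.Adj u x) (hx : x ∈ Vp G d) :
    (∃ w ∈ cl G d x, ¬ G.Adj u w) ∧ sp G d u < (cl G d x).card ∧ sp G d u ≤ d + 1 := by
  have hsub : G.neighborFinset u ∩ Vp G d ⊆ cl G d x := by
    intro w hw
    rw [mem_inter, mem_nbr] at hw
    exact c.line_sub hx (mem_cl_self x) hux hw.1 hw.2
  obtain ⟨y, hy, hyu⟩ : ∃ y ∈ G.neighborFinset x ∩ Vp G d, y ≠ u := by
    have : 1 < (G.neighborFinset x ∩ Vp G d).card := c.two_le_sp hx
    exact exists_mem_ne this u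
  rw [mem_inter, mem_nbr] at hy
  have h1 : 1 < (G.neighborFinset y ∩ Vp G d).card := c.two_le_sp hy.2
  obtain ⟨a, ha, b, hb, hab⟩ := one_lt_card.1 h1
  rw [mem_inter, mem_nbr] at ha hb
  have ha' : a ∈ cl G d x := c.line_sub hx (mem_cl_self x) hy.1.symm ha.1 ha.2
  have hb' : b ∈ cl G d x := c.line_sub hx (mem_cl_self x) hy.1.symm hb.1 hb.2
  obtain ⟨w, hw, hwu⟩ : ∃ w ∈ cl G d x, ¬ G.Adj u w := by
    by_contra hcon
    push Not at hcon
    exact hyu (c.common_unique hab ha.2 hb.2 ha.1 hb.1 (hcon a ha') (hcon b hb'))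
  have hwV := c.cl_sub hx hw
  refine ⟨⟨w, hw, hwu⟩, ?_, ?_⟩
  · apply card_lt_card
    refine ⟨hsub, fun h2 => ?_⟩
    have h3 := h2 hw
    rw [mem_inter, mem_nbr] at h3
    exact hwu h3.1
  · have key : ∀ a ∈ G.neighborFinset u ∩ Vp G d, ∃ v, G.Adj v a ∧ G.Adj v w := by
      intro a ha
      have h2 := hsub ha
      have hne : a ≠ w := by
        rintro rfl
        rw [mem_inter, mem_nbr] at ha
        exact hwu ha.1
      obtain ⟨_, _, _, v, h3, h4⟩ := c.cl_clq x a h2 w hw hne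
      exact ⟨v, h3, h4⟩
    choose! φ hφ1 hφ2 using key
    have h2 : sp G d u ≤ (G.neighborFinset w).card := by
      refine card_le_card_of_injOn φ (fun a ha => ?_) ?_
      · exact mem_nbr.2 (hφ2 a ha).symm
      · intro a ha b hb hab
        have ha' : a ∈ G.neighborFinset u ∩ Vp G d := ha
        have hb' : b ∈ G.neighborFinset u ∩ Vp G d := hb
        by_contra hne
        have h3 := hφ1 a ha'
        have h4 := hφ1 b hb'
        have h5 := hφ2 a ha'
        rw [← hab] at h4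
        rw [mem_inter, mem_nbr] at ha' hb'
        have h6 := c.common_unique hne ha'.2 hb'.2 h3 h4 ha'.1 hb'.1
        rw [h6] at h5
        exact hwu h5
    rw [SimpleGraph.card_neighborFinset_eq_degree] at h2
    rw [mem_Vp] at hwV
    omega

end Ct

end Pool.Agent.H2.RG
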