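import Mathlib
import Pool.Agent.H2.RG.Clusters

/-!
# Rigidity for `gap(G_{≥d})`: test functions on a cluster   [H2 RG Zform]

`lam y = d + 2 + 1/d - W y` (`Pool.Agent.H17.ExactF`).
-/

namespace Pool.Agent.H2.RG

open Finset Classical Pool.Agent.H17 Pool.Agent.H17.Exact

set_option linter.unusedSectionVars false

variable {V : Type} [Fintype V] {G : SimpleGraph V} {d : ℕ}

/-- the coefficient of a point: `d - 1 - 1/d` in degree `d`, `d + 1` in degree `d + 1` -/
noncomputable def cf (G : SimpleGraph V) (d : ℕ) (x : V) : ℝ :=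
  (G.degree x : ℝ) * (2 + 1 / d) - (d + 2 + 1 / d)

namespace Ct

variable (c : Ct G d)

include c

lemma cf_of_deg {x : V} (h : G.degree x = d) : cf G d x = d - 1 - 1 / d := by
  have := c.dpos
  rw [cf, h]
  field_simp
  ring

lemma cf_of_deg' {x : V} (h : G.degree x = d + 1) : cf G d x = d + 1 := by
  have := c.dpos
  rw [cf, h]
  push_cast
  field_simp
  ring

lemma cf_le {x : V} (h : x ∈ Vp G d) : cf G d x ≤ d + 1 := by
  have h1 := c.dpos
  rw [mem_Vp] at h
  have h2 : (G.degree x : ℝ) ≤ d + 1 := by exact_mod_cast h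
  have h3 : (G.degree x : ℝ) * (2 + 1 / d) ≤ (d + 1) * (2 + 1 / d) :=
    mul_le_mul_of_nonneg_right h2 (by positivity)
  have h4 : ((d : ℝ) + 1) * (2 + 1 / d) = 2 * d + 3 + 1 / d := by
    field_simp
    ring
  rw [cf]
  linarith

lemma lam_nonneg (y : V) : 0 ≤ lam G d y := by
  have := c.W_le y
  rw [lam]; linarith

/-- The exact Z-form.  Adapt `Pool.Agent.H17.Exact.Ctx.zform` (in `ExactE`): there the last sum is
estimated by `(d + 1) ∑ f²`, here it is kept. -/
lemma zform {z : V} (hz : z ∈ Vp G d) (f : V → ℝ) (hf : ∀ x, x ∉ cl G d z → f x = 0) :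
    Q G d f + ∑ y, lam G d y * (nb G f y) ^ 2 =
      (d + 2 + 1 / d) * (∑ x, f x) ^ 2 + ∑ x, cf G d x * f x ^ 2 := by
  have h1 : Q G d f + ∑ y, lam G d y * (nb G f y) ^ 2 =
      (d + 2 + 1 / d) * ∑ y, (nb G f y) ^ 2 - d * ∑ x, (G.degree x : ℝ) * f x ^ 2 := by
    rw [Q, mul_sum univ (fun y => (nb G f y) ^ 2)]
    have : ∑ y, W G d y * (nb G f y) ^ 2 + ∑ y, lam G d y * (nb G f y) ^ 2 =
        ∑ y, ((d : ℝ) + 2 + 1 / d) * (nb G f y) ^ 2 := by
      rw [← sum_add_distrib]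
      exact sum_congr rfl fun y _ => by rw [lam]; ring
    linarith
  have h2 : ∑ y, (nb G f y) ^ 2 = (∑ x, f x) ^ 2 + ∑ x, ((G.degree x : ℝ) - 1) * f x ^ 2 := by
    rw [c.sum_nb_sq, sq, sum_mul_sum, ← sum_add_distrib]
    refine sum_congr rfl fun x _ => ?_
    have h3 : ∀ x', f x * f x' * (Seven.cn G x x' : ℝ) = f x * f x' +
        if x = x' then ((G.degree x : ℝ) - 1) * f x ^ 2 else 0 := by
      intro x'
      by_cases hxx : x = x'
      · subst hxx
        rw [c.cn_self, if_pos rfl]; ring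
      · rw [if_neg hxx]
        by_cases hx : x ∈ cl G d z
        · by_cases hx' : x' ∈ cl G d z
          · rw [c.cn_cl hz hx hx' hxx]; simp
          · rw [hf x' hx']; ring
        · rw [hf x hx]; ring
    rw [sum_congr rfl fun x' _ => h3 x', sum_add_distrib]
    simp
  rw [h1, h2, mul_add, mul_sum, mul_sum]
  have h3 : ∑ x, ((d : ℝ) + 2 + 1 / d) * (((G.degree x : ℝ) - 1) * f x ^ 2) -
      ∑ x, (d : ℝ) * ((G.degree x : ℝ) * f x ^ 2) = ∑ x, cf G d x * f x ^ 2 := by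
    rw [← sum_sub_distrib]
    refine sum_congr rfl fun x _ => ?_
    rw [cf]
    ring
  linarith

/-- `∑ cf f² ≤ (d + 1) ∑ f²` and `∑ lam (nb f)² ≥ 0`. -/
lemma zform_le {z : V} (hz : z ∈ Vp G d) (f : V → ℝ) (hf : ∀ x, x ∉ cl G d z → f x = 0) :
    Q G d f ≤ (d + 2 + 1 / d) * (∑ x, f x) ^ 2 + (d + 1) * ∑ x, f x ^ 2 := by
  have h1 := c.zform hz f hf
  have h2 : 0 ≤ ∑ y, lam G d y * (nb G f y) ^ 2 :=
    sum_nonneg fun y _ => mul_nonneg (c.lam_nonneg y) (sq_nonneg _)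
  have h3 : ∑ x, cf G d x * f x ^ 2 ≤ (d + 1) * ∑ x, f x ^ 2 := by
    rw [mul_sum]
    refine sum_le_sum fun x _ => ?_
    by_cases hx : x ∈ cl G d z
    · exact mul_le_mul_of_nonneg_right (c.cf_le (c.cl_sub hz hx)) (sq_nonneg _)
    · rw [hf x hx]; simp
  linarith

/-- (Z)  `x` small, `y ~ x`, `S = N(y) ∩ Vp ⊆ cl x` (`nbr_inter`), `p = |S| = sp y`,
`m = |cl x| > p`.  `zform` with `f = (m - p) 1_S - p 1_{cl x \ S}`: `∑ f = 0`,
`nb f y = p (m - p)`, `Q f ≥ 0`, so
`lam y p² (m-p)² ≤ (m-p)² ∑_{v ∈ S} cf v + p² (m - p) (d + 1)`; divide by `m - p`. -/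
lemma Z_ineq {x y : V} (hx : x ∈ Vp G d) (hyx : G.Adj y x) :
    lam G d y * (sp G d y : ℝ) ^ 2 * ((cl G d x).card - sp G d y) ≤
      ((cl G d x).card - sp G d y) * ∑ v ∈ G.neighborFinset y ∩ Vp G d, cf G d v +
        (d + 1) * (sp G d y : ℝ) ^ 2 := by
  set S := G.neighborFinset y ∩ Vp G d with hS
  set p : ℝ := (sp G d y : ℝ) with hp
  set m : ℝ := ((cl G d x).card : ℝ) with hm
  have hSsub : S ⊆ cl G d x := by
    rw [hS, ← c.nbr_inter hx (mem_cl_self x) hyx]
    exact inter_subset_right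
  have hpm : p < m := by
    rw [hp, hm]
    exact_mod_cast (c.sp_lt_card hyx hx).2.1
  have hp0 : 0 ≤ p := by rw [hp]; positivity
  have hScard : (S.card : ℝ) = p := rfl
  have hTcard : (((cl G d x) \ S).card : ℝ) = m - p := by
    have h1 : ((cl G d x) \ S).card + S.card = (cl G d x).card := by
      rw [card_sdiff_add_card_eq_card hSsub]
    have h2 : (((cl G d x) \ S).card : ℝ) + (S.card : ℝ) = m := by
      rw [hm]
      exact_mod_cast h1
    linarith
  set f : V → ℝ := fun v => if v ∈ S then m - p else if v ∈ cl G d x then -p else 0 with hf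
  have hfS : ∀ v ∈ S, f v = m - p := fun v hv => by simp only [hf, if_pos hv]
  have hfT : ∀ v ∈ (cl G d x) \ S, f v = -p := fun v hv => by
    rw [mem_sdiff] at hv
    simp only [hf, if_neg hv.2, if_pos hv.1]
  have hf0 : ∀ v, v ∉ cl G d x → f v = 0 := fun v hv => by
    have h1 : v ∉ S := fun h => hv (hSsub h)
    simp only [hf, if_neg h1, if_neg hv]
  have hsplit : ∀ F : V → ℝ, (∀ v, v ∉ cl G d x → F v = 0) →
      ∑ v, F v = ∑ v ∈ S, F v + ∑ v ∈ (cl G d x) \ S, F v := by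
    intro F hF
    rw [← sum_subset (subset_univ (cl G d x)) (fun v _ hv => hF v hv), ← sum_sdiff hSsub, add_comm]
  have hsum : ∑ v, f v = 0 := by
    rw [hsplit f hf0, sum_congr rfl hfS, sum_congr rfl hfT, sum_const, sum_const, nsmul_eq_mul,
      nsmul_eq_mul, hScard, hTcard]
    ring
  have hnb : nb G f y = p * (m - p) := by
    rw [nb]
    have h1 : ∑ v ∈ G.neighborFinset y, f v = ∑ v ∈ S, f v := by
      symm
      apply sum_subset
      · rw [hS]; exact inter_subset_left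
      · intro v hv hvS
        apply hf0
        intro hvc
        apply hvS
        rw [hS, ← c.nbr_inter hx (mem_cl_self x) hyx]
        exact mem_inter.2 ⟨hv, hvc⟩
    rw [h1, sum_congr rfl hfS, sum_const, nsmul_eq_mul, hScard]
  have hcf : ∑ v, cf G d v * f v ^ 2 ≤
      (m - p) ^ 2 * ∑ v ∈ S, cf G d v + p ^ 2 * ((m - p) * (d + 1)) := by
    rw [hsplit (fun v => cf G d v * f v ^ 2) (fun v hv => by rw [hf0 v hv]; ring)]
    have h1 : ∑ v ∈ S, cf G d v * f v ^ 2 = (m - p) ^ 2 * ∑ v ∈ S, cf G d v := by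
      rw [mul_sum]
      refine sum_congr rfl fun v hv => ?_
      rw [hfS v hv]; ring
    have h2 : ∑ v ∈ (cl G d x) \ S, cf G d v * f v ^ 2 ≤ p ^ 2 * ((m - p) * (d + 1)) := by
      calc ∑ v ∈ (cl G d x) \ S, cf G d v * f v ^ 2 ≤ ∑ v ∈ (cl G d x) \ S, ((d : ℝ) + 1) * p ^ 2 := by
            refine sum_le_sum fun v hv => ?_
            rw [hfT v hv, neg_sq]
            rw [mem_sdiff] at hv
            exact mul_le_mul_of_nonneg_right (c.cf_le (c.cl_sub hx hv.1)) (sq_nonneg _)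
        _ = p ^ 2 * ((m - p) * (d + 1)) := by
            rw [sum_const, nsmul_eq_mul, hTcard]
            ring
    linarith
  have hz := c.zform hx f hf0
  have hQ := c.hQ f
  have hlam : lam G d y * (nb G f y) ^ 2 ≤ ∑ y, lam G d y * (nb G f y) ^ 2 :=
    single_le_sum (f := fun y => lam G d y * (nb G f y) ^ 2)
      (fun y _ => mul_nonneg (c.lam_nonneg y) (sq_nonneg _)) (mem_univ y)
  rw [hsum] at hz
  rw [hnb] at hlam
  have hmain : (m - p) * (lam G d y * p ^ 2 * (m - p)) ≤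
      (m - p) * ((m - p) * ∑ v ∈ S, cf G d v + (d + 1) * p ^ 2) := by
    have e1 : (m - p) * (lam G d y * p ^ 2 * (m - p)) = lam G d y * (p * (m - p)) ^ 2 := by ring
    have e2 : (m - p) * ((m - p) * ∑ v ∈ S, cf G d v + (d + 1) * p ^ 2) =
        (m - p) ^ 2 * ∑ v ∈ S, cf G d v + p ^ 2 * ((m - p) * (d + 1)) := by ring
    rw [e1, e2]
    have e3 : ((d : ℝ) + 2 + 1 / d) * (0 : ℝ) ^ 2 = 0 := by ring
    rw [e3] at hz
    linarith
  exact le_of_mul_le_mul_left hmain (by linarith)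

/-- (Z')  From (Z) and `cf ≤ d + 1`, dividing by `p = sp y ≥ 1`. -/
lemma Z_ineq' {x y : V} (hx : x ∈ Vp G d) (hyx : G.Adj y x) :
    lam G d y * (sp G d y * ((cl G d x).card - sp G d y)) ≤ (d + 1) * (cl G d x).card := by
  have h1 := c.Z_ineq hx hyx
  have hp1 : (1 : ℝ) ≤ sp G d y := by exact_mod_cast c.sp_pos_of_adj hyx hx
  have hpm : (sp G d y : ℝ) < (cl G d x).card := by exact_mod_cast (c.sp_lt_card hyx hx).2.1
  have h2 : ∑ v ∈ G.neighborFinset y ∩ Vp G d, cf G d v ≤ (sp G d y : ℝ) * (d + 1) := by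
    calc ∑ v ∈ G.neighborFinset y ∩ Vp G d, cf G d v
        ≤ ∑ v ∈ G.neighborFinset y ∩ Vp G d, ((d : ℝ) + 1) :=
          sum_le_sum fun v hv => c.cf_le (mem_inter.1 hv).2
      _ = (sp G d y : ℝ) * (d + 1) := by rw [sum_const, nsmul_eq_mul, sp]
  set p : ℝ := (sp G d y : ℝ) with hp
  set m : ℝ := ((cl G d x).card : ℝ) with hm
  have h3 := mul_le_mul_of_nonneg_left h2 (by linarith : 0 ≤ m - p)
  have h4 : p * (lam G d y * (p * (m - p))) ≤ p * ((d + 1) * m) := by
    have e1 : p * (lam G d y * (p * (m - p))) = lam G d y * p ^ 2 * (m - p) := by ring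
    have e2 : p * ((d + 1) * m) = (m - p) * (p * (d + 1)) + (d + 1) * p ^ 2 := by ring
    rw [e1, e2]
    linarith
  exact le_of_mul_le_mul_left h4 (by linarith)

end Ct

end Pool.Agent.H2.RG
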