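import Mathlib
import Pool.Agent.H2.RG.Zform
import Pool.Agent.H2.RG.Cnt

/-!
# Rigidity for `gap(G_{≥d})`, `d ≥ 11`: big vertices with a small neighbour   [H2 RG BigA1]

Notation: `p = sp y`, `m = |cl x|`, `2 m ≥ (d - 1)²`.
-/

namespace Pool.Agent.H2.RG

open Finset Classical Pool.Agent.H17 Pool.Agent.H17.Exact

set_option linter.unusedSectionVars false

variable {V : Type} [Fintype V] {G : SimpleGraph V} {d : ℕ}

namespace Ct

variable (c : Ct G d)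

include c

/-- `nx_ge` and `card_cl`. -/
lemma card_cl_ge (h9 : 9 ≤ d) {x : V} (hx : x ∈ Vp G d) :
    ((d : ℝ) - 1) ^ 2 ≤ 2 * (cl G d x).card := by
  have h1 := c.toCx.nx_ge h9 hx
  have h2 : ((d ^ 2 : ℕ) : ℝ) ≤ ((2 * nx G d x + 2 * d + 1 : ℕ) : ℝ) := by exact_mod_cast h1
  rw [card_cl]
  push_cast at h2 ⊢
  nlinarith

/-- `lam y ≥ λ₂ = 2 (d+1)²/(d (d+2))` for big `y`. -/
lemma lam_big {y : V} (hy : y ∉ Vp G d) : 2 * ((d : ℝ) + 1) ^ 2 / (d * (d + 2)) ≤ lam G d y := by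
  have h0 := c.dR
  have h1 := c.not_mem_Vp hy
  have h2 : ((d : ℝ) + 2) ≤ G.degree y := by exact_mod_cast h1
  have h3 : W G d y ≤ ((d : ℝ) + 1) ^ 2 / (d + 2) :=
    div_le_div_of_nonneg_left (by positivity) (by linarith) h2
  have h4 : (d : ℝ) + 2 + 1 / d = ((d : ℝ) + 1) ^ 2 / d := by
    have := c.dpos
    field_simp
    ring
  have h5 : 2 * ((d : ℝ) + 1) ^ 2 / (d * (d + 2)) =
      ((d : ℝ) + 1) ^ 2 / d - ((d : ℝ) + 1) ^ 2 / (d + 2) := by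
    have := c.dpos
    field_simp
    ring
  rw [lam, h4, h5]
  linarith

/-- `lam y = (d+1)² (a - d)/(d a)`, `a = deg y`. -/
lemma lam_eq (y : V) :
    lam G d y = ((d : ℝ) + 1) ^ 2 * (G.degree y - d) / (d * G.degree y) := by
  have h0 := c.dpos
  have h1 := c.degpos y
  rw [lam, W]
  field_simp
  ring

/-- (5.1)  From `Z_ineq'` and `lam_big`: `2 (d+1) p (m-p) ≤ d (d+2) m`, i.e.
`2 (d+1) (p - p²/m) ≤ d (d+2)`, with `p ≤ d + 1` (`sp_lt_card`), `2 m ≥ (d-1)²`.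
Suppose `2p ≥ d + 3`.  `p - p²/m ≥ p - 2p²/(d-1)²`, concave in `p`, so at least the minimum of its
values at `(d+3)/2` and `d + 1`:
* `2 (d+1) ((d+3)/2 - (d+3)²/(2 (d-1)²)) > d (d+2)` because
  `(2d+3)(d-1)² - (d+1)(d+3)² = d³ - 8d² - 19d - 6 > 0` (`148` at `d = 11`);
* `2 (d+1) ((d+1) - 2 (d+1)²/(d-1)²) > d (d+2)` (`218 > 143` at `d = 11`). -/
lemma sp_big_le (h11 : 11 ≤ d) {y : V} (hy : y ∉ Vp G d) : 2 * sp G d y ≤ d + 2 := by
  by_contra hcon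
  push Not at hcon
  have hp1 : 1 ≤ sp G d y := by omega
  obtain ⟨x, hyx, hx⟩ := c.exists_of_sp_pos hp1
  obtain ⟨_, hlt, hle⟩ := c.sp_lt_card hyx hx
  have hZ := c.Z_ineq' hx hyx
  have hlam := c.lam_big hy
  have hm := c.card_cl_ge (by omega) hx
  have hD : (11 : ℝ) ≤ d := by exact_mod_cast h11
  have hp2 : (d : ℝ) + 3 ≤ 2 * (sp G d y : ℝ) := by exact_mod_cast hcon
  have hp3 : (sp G d y : ℝ) ≤ d + 1 := by exact_mod_cast hle
  have hp4 : (sp G d y : ℝ) < (cl G d x).card := by exact_mod_cast hlt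
  generalize (sp G d y : ℝ) = P at *
  generalize ((cl G d x).card : ℝ) = m at *
  generalize lam G d y = L at *
  generalize (d : ℝ) = D at *
  have hP0 : 0 < P := by linarith
  have h1 : 0 ≤ P * (m - P) := mul_nonneg hP0.le (by linarith)
  have h2 : 2 * (D + 1) ^ 2 / (D * (D + 2)) * (P * (m - P)) ≤ (D + 1) * m :=
    le_trans (mul_le_mul_of_nonneg_right hlam h1) hZ
  have h3 : 2 * (D + 1) * (P * (m - P)) ≤ D * (D + 2) * m := by
    rw [div_mul_eq_mul_div, div_le_iff₀ (by positivity)] at h2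
    have h4 : (D + 1) * (2 * (D + 1) * (P * (m - P))) ≤ (D + 1) * (D * (D + 2) * m) := by
      nlinarith
    exact le_of_mul_le_mul_left h4 (by linarith)
  have hc : 0 < 2 * (D + 1) * P - D * (D + 2) := by nlinarith
  have h4 : m * (2 * (D + 1) * P - D * (D + 2)) ≤ 2 * (D + 1) * P ^ 2 := by nlinarith
  have h5 : (D - 1) ^ 2 * (2 * (D + 1) * P - D * (D + 2)) ≤ 4 * (D + 1) * P ^ 2 := by
    have := mul_le_mul_of_nonneg_right hm hc.le
    linarith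
  have hfa : 0 < D ^ 3 - 8 * D ^ 2 - 19 * D - 6 := by
    obtain ⟨t, rfl⟩ : ∃ t, D = 11 + t := ⟨D - 11, by ring⟩
    have ht : 0 ≤ t := by linarith
    ring_nf
    positivity
  have hfb : 0 < (D - 1) ^ 2 * (2 * (D + 1) ^ 2 - D * (D + 2)) - 4 * (D + 1) ^ 3 := by
    obtain ⟨t, rfl⟩ : ∃ t, D = 11 + t := ⟨D - 11, by ring⟩
    have ht : 0 ≤ t := by linarith
    ring_nf
    positivity
  have hid : (D - 1) * ((D - 1) ^ 2 * (2 * (D + 1) * P - D * (D + 2)) - 4 * (D + 1) * P ^ 2) =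
      (D ^ 3 - 8 * D ^ 2 - 19 * D - 6) * (2 * (D + 1 - P)) +
      ((D - 1) ^ 2 * (2 * (D + 1) ^ 2 - D * (D + 2)) - 4 * (D + 1) ^ 3) * (2 * P - (D + 3)) +
      2 * (D + 1) * (D - 1) * ((2 * P - (D + 3)) * (D + 1 - P)) := by ring
  have e1 : 0 ≤ (D ^ 3 - 8 * D ^ 2 - 19 * D - 6) * (2 * (D + 1 - P)) :=
    mul_nonneg hfa.le (by linarith)
  have e2 : 0 ≤ ((D - 1) ^ 2 * (2 * (D + 1) ^ 2 - D * (D + 2)) - 4 * (D + 1) ^ 3) *
      (2 * P - (D + 3)) := mul_nonneg hfb.le (by linarith)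
  have e3 : 0 ≤ 2 * (D + 1) * (D - 1) * ((2 * P - (D + 3)) * (D + 1 - P)) :=
    mul_nonneg (mul_nonneg (by linarith) (by linarith)) (mul_nonneg (by linarith) (by linarith))
  have e4 : (D - 1) * ((D - 1) ^ 2 * (2 * (D + 1) * P - D * (D + 2)) - 4 * (D + 1) * P ^ 2) ≤ 0 :=
    mul_nonpos_of_nonneg_of_nonpos (by linarith) (by linarith)
  rcases hp3.lt_or_eq with h | h
  · have e5 : 0 < (D ^ 3 - 8 * D ^ 2 - 19 * D - 6) * (2 * (D + 1 - P)) :=
      mul_pos hfa (by linarith)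
    linarith
  · have e5 : 0 < ((D - 1) ^ 2 * (2 * (D + 1) ^ 2 - D * (D + 2)) - 4 * (D + 1) ^ 3) *
      (2 * P - (D + 3)) := mul_pos hfb (by linarith)
    linarith

/-- (5.2)  `K_le` increases with `sp y ≤ (d+2)/2`. -/
lemma K_big_le (h11 : 11 ≤ d) {y : V} (hy : y ∉ Vp G d) (hdeg : G.degree y ≤ d + 2) :
    K G d y ≤ d + 3 + 1 / d := by
  have h0 := c.dR
  have h1 := c.not_mem_Vp hy
  have h2 : G.degree y = d + 2 := by omega
  have h3 := c.K_le y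
  have h4 := c.sp_big_le h11 hy
  have h5 : 2 * (sp G d y : ℝ) ≤ d + 2 := by exact_mod_cast h4
  have h6 : (G.degree y : ℝ) = d + 2 := by rw [h2]; push_cast; ring
  rw [h6] at h3
  have h7 : (2 + 1 / (d : ℝ)) * sp G d y + ((d : ℝ) + 2 - sp G d y) / (d + 2) =
      (2 + 1 / (d : ℝ) - 1 / (d + 2)) * sp G d y + 1 := by
    have := c.dpos
    field_simp
    ring
  have h8 : 0 ≤ 2 + 1 / (d : ℝ) - 1 / (d + 2) := by
    have e1 : 1 / ((d : ℝ) + 2) ≤ 1 := by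
      rw [div_le_one (by linarith)]
      linarith
    have e2 : 0 ≤ 1 / (d : ℝ) := by positivity
    linarith
  have h9 : (2 + 1 / (d : ℝ) - 1 / (d + 2)) * sp G d y ≤
      (2 + 1 / (d : ℝ) - 1 / (d + 2)) * ((d + 2) / 2) :=
    mul_le_mul_of_nonneg_left (by linarith) h8
  have h10 : (2 + 1 / (d : ℝ) - 1 / (d + 2)) * (((d : ℝ) + 2) / 2) + 1 = d + 3 + 1 / d := by
    have := c.dpos
    field_simp
    ring
  linarith

end Ct

end Pool.Agent.H2.RG
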