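import Mathlib
import Pool.Agent.H2.RG.BigA1

/-!
# Rigidity for `gap(G_{≥d})`, `d ≥ 11`: big vertices with a small neighbour   [H2 RG BigA2]

Notation: `p = sp y`, `m = |cl x|`, `2 m ≥ (d - 1)²`.
-/

namespace Pool.Agent.H2.RG

open Finset Classical Pool.Agent.H17 Pool.Agent.H17.Exact

set_option linter.unusedSectionVars false

variable {V : Type} [Fintype V] {G : SimpleGraph V} {d : ℕ}

namespace Ct

variable (c : Ct G d)

include c

/-- (5.3a)  Suppose `deg y ≥ 2d + 1`.  `lam y ≥ (d+1)³/(d (2d+1))` (`lam_eq`, increasing in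
`deg y`), so `Z_ineq'` gives `p (m - p) (d+1)² ≤ d (2d+1) m`.
* `p = 2`: `2 (d+1)²/(d (2d+1)) = 1 + (3d+2)/(d (2d+1))` and
  `m/(m-2) = 1 + 2/(m-2) ≤ 1 + 4/((d-3)(d+1))`; `(3d+2)(d-3)(d+1) > 4 d (2d+1)`.
* `p ≥ 3`: `p (d+1)²/(d (2d+1)) > 3/2 ≥ m/(m-p)` because `(d+1)²/(d(2d+1)) > 1/2` and
  `3p ≤ 3 (d+2)/2 ≤ (d-1)²/2 ≤ m` (`sp_big_le`). -/
lemma deg_le_of_two_le (h11 : 11 ≤ d) {y : V} (h2 : 2 ≤ sp G d y) : G.degree y ≤ 2 * d := by
  by_contra hcon
  push Not at hcon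
  obtain ⟨x, hx⟩ : (G.neighborFinset y ∩ Vp G d).Nonempty := by
    rw [← card_pos]
    change 0 < sp G d y
    omega
  rw [mem_inter, mem_nbr] at hx
  have hyV : y ∉ Vp G d := by
    rw [mem_Vp]
    omega
  have hz := c.Z_ineq' hx.2 hx.1
  rw [c.lam_eq] at hz
  have hsp := c.sp_big_le h11 hyV
  have hm := c.card_cl_ge (by omega) hx.2
  have hd11 : (11 : ℝ) ≤ (d : ℝ) := by exact_mod_cast h11
  have hp2 : (2 : ℝ) ≤ (sp G d y : ℝ) := by exact_mod_cast h2
  have hp3 : 2 * (sp G d y : ℝ) ≤ (d : ℝ) + 2 := by exact_mod_cast hsp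
  have ha : 2 * (d : ℝ) + 1 ≤ (G.degree y : ℝ) := by exact_mod_cast hcon
  set p : ℝ := (sp G d y : ℝ) with hp
  set m : ℝ := ((cl G d x).card : ℝ) with hmm
  set a : ℝ := (G.degree y : ℝ) with haa
  set D : ℝ := (d : ℝ) with hD
  have hD0 : 0 < D := by linarith
  have ha0 : 0 < a := by linarith
  have hmp : 0 < m - p := by nlinarith
  have hm0 : 0 < m := by linarith
  -- replace the coefficient by its value at `2 d + 1`
  have h3 : (D + 1) ^ 3 / (D * (2 * D + 1)) ≤ (D + 1) ^ 2 * (a - D) / (D * a) := by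
    rw [div_le_div_iff₀ (by positivity) (by positivity)]
    have h4 : (D + 1) * a ≤ (a - D) * (2 * D + 1) := by nlinarith
    have h5 := mul_le_mul_of_nonneg_left h4 (show 0 ≤ (D + 1) ^ 2 * D by positivity)
    nlinarith
  have h4 : (D + 1) ^ 3 / (D * (2 * D + 1)) * (p * (m - p)) ≤ (D + 1) * m :=
    (mul_le_mul_of_nonneg_right h3 (by positivity)).trans hz
  rw [div_mul_eq_mul_div, div_le_iff₀ (by positivity)] at h4
  have h5 : (D + 1) ^ 2 * (p * (m - p)) ≤ m * (D * (2 * D + 1)) := by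
    have h6 : (D + 1) * ((D + 1) ^ 2 * (p * (m - p))) ≤ (D + 1) * (m * (D * (2 * D + 1))) := by
      nlinarith
    exact le_of_mul_le_mul_left h6 (by linarith)
  -- `m ((D+1)^2 p - D (2D+1)) ≤ (D+1)^2 p^2`
  have h6 : 0 ≤ (D + 1) ^ 2 * p - D * (2 * D + 1) := by nlinarith [sq_nonneg (D + 1)]
  have h7 : m * ((D + 1) ^ 2 * p - D * (2 * D + 1)) ≤ (D + 1) ^ 2 * p ^ 2 := by nlinarith
  have h8 : (D - 1) ^ 2 * ((D + 1) ^ 2 * p - D * (2 * D + 1)) ≤ 2 * ((D + 1) ^ 2 * p ^ 2) := by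
    have := mul_le_mul_of_nonneg_right hm h6
    linarith
  have h9 : 0 ≤ (p - 2) * ((D + 2) - 2 * p) := mul_nonneg (by linarith) (by linarith)
  have h10 : (D + 1) ^ 2 * (2 * p ^ 2) ≤ (D + 1) ^ 2 * (p * (D + 6) - 2 * (D + 2)) := by
    apply mul_le_mul_of_nonneg_left _ (by positivity)
    nlinarith
  have h11' : 0 < (D + 1) ^ 2 * ((D - 1) ^ 2 - (D + 6)) := by
    apply mul_pos (by positivity)
    nlinarith
  have h12 : (D + 1) ^ 2 * ((D - 1) ^ 2 - (D + 6)) * 2 ≤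
      (D + 1) ^ 2 * ((D - 1) ^ 2 - (D + 6)) * p :=
    mul_le_mul_of_nonneg_left hp2 h11'.le
  obtain ⟨t, ht⟩ : ∃ t, D = 11 + t := ⟨D - 11, by ring⟩
  have ht0 : 0 ≤ t := by linarith
  have h13 : 0 < (D - 1) ^ 2 * (3 * D + 2) - 8 * (D + 1) ^ 2 := by
    rw [ht]
    have : (11 + t - 1) ^ 2 * (3 * (11 + t) + 2) - 8 * (11 + t + 1) ^ 2 =
      2348 + 808 * t + 87 * t ^ 2 + 3 * t ^ 3 := by ring
    rw [this]
    positivity
  nlinarith

omit c in
/-- (5.3b), arithmetic.  `e = deg y - d`, `K = K y`.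
`h1` gives (as `1 - p/m ≥ 1 - (d+2)/(d-1)² = (d² - 3d - 1)/(d-1)²`)
`(d+1) e p (d² - 3d - 1) ≤ d (d+e) (d-1)²`.  With `M = (d-1)²/(d² - 3d - 1)`, `h2` gives
`(d+2) K ≤ (d+e) (2 (d+1) M/e + 1) ≤ (d+3) (2 (d+1) M/3 + 1)`, the last step because the
difference is `(e-3) (2 (d+1) M d/(3e) - 1) ≥ 0` for `3 ≤ e ≤ d`.  But
`d (d+3)² (2 (d+1) M/3 + 1) < (d+2)(d+1)³` for `d ≥ 11` (`21981 < 22464` at `d = 11`;
put `d = 11 + t`). -/
lemma num3 {d e p m K : ℝ} (hd : 11 ≤ d) (he : 3 ≤ e) (hed : e ≤ d) (hp : 0 ≤ p)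
    (hp2 : 2 * p ≤ d + 2) (hm : (d - 1) ^ 2 ≤ 2 * m)
    (h1 : (d + 1) * e * (p * (m - p)) ≤ d * (d + e) * m)
    (h2 : K ≤ (2 + 1 / d) * p + (d + e - p) / (d + 2))
    (h3 : (d + 1) ^ 3 ≤ d * (d + 3) * K) : False := by
  have hd0 : 0 < d := by linarith
  have he0 : 0 < e := by linarith
  have hm0 : 0 < m := by nlinarith
  set q : ℝ := d ^ 2 - 3 * d - 1 with hq
  set s : ℝ := (d - 1) ^ 2 with hs
  have hq0 : 0 < q := by rw [hq]; nlinarith
  have hs0 : 0 < s := by rw [hs]; nlinarith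
  have hqs : q ≤ s := by rw [hq, hs]; nlinarith
  -- P : (d+1) e p q ≤ d (d+e) s
  have h4 : p * s ≤ m * (d + 2) := by
    have h5 : p * s ≤ p * (2 * m) := mul_le_mul_of_nonneg_left hm hp
    have h6 : (2 * p) * m ≤ (d + 2) * m := mul_le_mul_of_nonneg_right hp2 hm0.le
    linarith
  have h5 : m * q ≤ (m - p) * s := by
    have : (m - p) * s = m * q + (m * (d + 2) - p * s) := by
      rw [hq, hs]
      ring
    linarith
  have h6 : (d + 1) * e * p * q ≤ d * (d + e) * s := by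
    have h7 : (d + 1) * e * p * (m * q) ≤ (d + 1) * e * p * ((m - p) * s) :=
      mul_le_mul_of_nonneg_left h5 (by positivity)
    have h8 : ((d + 1) * e * (p * (m - p))) * s ≤ (d * (d + e) * m) * s :=
      mul_le_mul_of_nonneg_right h1 hs0.le
    have h9 : m * ((d + 1) * e * p * q) ≤ m * (d * (d + e) * s) := by nlinarith
    exact le_of_mul_le_mul_left h9 hm0
  -- K
  have h7 : d * (d + 2) * K ≤ 2 * (d + 1) ^ 2 * p + d * (d + e) := by
    have e1 : d * (d + 2) * ((2 + 1 / d) * p + (d + e - p) / (d + 2)) =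
        2 * (d + 1) ^ 2 * p + d * (d + e) := by
      field_simp
      ring
    rw [← e1]
    exact mul_le_mul_of_nonneg_left h2 (by positivity)
  have h8 : e * q * ((d + 2) * K) ≤ (d + e) * (2 * (d + 1) * s + e * q) := by
    have h9 : e * q * (d * (d + 2) * K) ≤ e * q * (2 * (d + 1) ^ 2 * p + d * (d + e)) :=
      mul_le_mul_of_nonneg_left h7 (by positivity)
    have h10 : 2 * (d + 1) * ((d + 1) * e * p * q) ≤ 2 * (d + 1) * (d * (d + e) * s) :=
      mul_le_mul_of_nonneg_left h6 (by positivity)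
    have h11 : d * (e * q * ((d + 2) * K)) ≤ d * ((d + e) * (2 * (d + 1) * s + e * q)) := by
      nlinarith
    exact le_of_mul_le_mul_left h11 hd0
  have h9 : 3 * ((d + e) * (2 * (d + 1) * s + e * q)) ≤ e * ((d + 3) * (2 * (d + 1) * s + 3 * q)) := by
    have e1 : e * ((d + 3) * (2 * (d + 1) * s + 3 * q)) - 3 * ((d + e) * (2 * (d + 1) * s + e * q)) =
        (e - 3) * (2 * d * (d + 1) * s - 3 * e * q) := by ring
    have h10 : 3 * e * q ≤ 2 * d * (d + 1) * s := by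
      have h11 : 3 * e * q ≤ 3 * d * s := by
        have : e * q ≤ d * s := mul_le_mul hed hqs hq0.le hd0.le
        linarith
      have h12 : 3 * d * s ≤ 2 * d * (d + 1) * s := by
        apply mul_le_mul_of_nonneg_right _ hs0.le
        nlinarith
      linarith
    have h11 := mul_nonneg (show 0 ≤ e - 3 by linarith) (show 0 ≤ 2 * d * (d + 1) * s - 3 * e * q by linarith)
    linarith
  have h10 : 3 * q * ((d + 2) * K) ≤ (d + 3) * (2 * (d + 1) * s + 3 * q) := by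
    have h11 : e * (3 * q * ((d + 2) * K)) ≤ e * ((d + 3) * (2 * (d + 1) * s + 3 * q)) := by
      nlinarith
    exact le_of_mul_le_mul_left h11 he0
  have h11 : 3 * q * (d + 2) * (d + 1) ^ 3 ≤ d * (d + 3) ^ 2 * (2 * (d + 1) * s + 3 * q) := by
    have h12 : 3 * q * (d + 2) * (d + 1) ^ 3 ≤ 3 * q * (d + 2) * (d * (d + 3) * K) :=
      mul_le_mul_of_nonneg_left h3 (by positivity)
    have h13 : d * (d + 3) * (3 * q * ((d + 2) * K)) ≤
        d * (d + 3) * ((d + 3) * (2 * (d + 1) * s + 3 * q)) :=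
      mul_le_mul_of_nonneg_left h10 (by positivity)
    nlinarith
  obtain ⟨t, ht⟩ : ∃ t, d = 11 + t := ⟨d - 11, by ring⟩
  have ht0 : 0 ≤ t := by linarith
  have h12 : 3 * q * (d + 2) * (d + 1) ^ 3 - d * (d + 3) ^ 2 * (2 * (d + 1) * s + 3 * q) =
      125988 + 267116 * t + 101221 * t ^ 2 + 16637 * t ^ 3 + 1396 * t ^ 4 + 59 * t ^ 5 + t ^ 6 := by
    rw [hq, hs, ht]
    ring
  have h13 : 0 < 125988 + 267116 * t + 101221 * t ^ 2 + 16637 * t ^ 3 + 1396 * t ^ 4 +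
      59 * t ^ 5 + t ^ 6 := by positivity
  linarith

/-- (5.3b)  A vertex `y` with `deg y ≥ d + 3` has at most one small neighbour.
Suppose `p = sp y ≥ 2`; `deg y ≤ 2d`.
* If `y` has a neighbour of degree `d`: `K_big_ge` and `num3` (`h1` from `Z_ineq'` and `lam_eq`,
  `h2` from `K_le`).
* Otherwise `n0 y = 0` and `K y ≤ p + (deg y - p)/(d+2) ≤ (d+2)/2 + 2d/(d+2)` (`K_le_n`), less
  than `d (d+1)/(d+2) ≤ K y` (`K_ge_of_adj`), since `d² - 5d - 2 > 0`. -/
lemma sp_le_one (h11 : 11 ≤ d) {y : V} (hy : d + 3 ≤ G.degree y) : sp G d y ≤ 1 := by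
  by_contra hcon
  push Not at hcon
  have h2 : 2 ≤ sp G d y := hcon
  have hdeg := c.deg_le_of_two_le h11 h2
  have hyV : y ∉ Vp G d := by
    rw [mem_Vp]
    omega
  have hsp := c.sp_big_le h11 hyV
  have hd11 : (11 : ℝ) ≤ (d : ℝ) := by exact_mod_cast h11
  have hp3 : 2 * (sp G d y : ℝ) ≤ (d : ℝ) + 2 := by exact_mod_cast hsp
  have ha1 : (d : ℝ) + 3 ≤ (G.degree y : ℝ) := by exact_mod_cast hy
  have ha2 : (G.degree y : ℝ) ≤ 2 * (d : ℝ) := by exact_mod_cast hdeg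
  have hd0 : (0 : ℝ) < (d : ℝ) := by linarith
  by_cases h0 : n0 G d y = 0
  · obtain ⟨x, hx⟩ : (G.neighborFinset y ∩ Vp G d).Nonempty := by
      rw [← card_pos]
      change 0 < sp G d y
      omega
    rw [mem_inter, mem_nbr] at hx
    have h3 := c.K_ge_of_adj hx.2 hx.1.symm
    have h4 := c.K_le_n y
    have h5 := c.n0_add_n1 y
    have h6 : (n1 G d y : ℝ) = (sp G d y : ℝ) := by
      have : n1 G d y = sp G d y := by omega
      exact_mod_cast this
    rw [h0, h6] at h4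
    have h7 : ((d : ℝ) + 2) * K G d y ≤ (d + 2) * sp G d y + (G.degree y - sp G d y) := by
      have e1 : ((d : ℝ) + 2) * ((2 + 1 / d) * ((0 : ℕ) : ℝ) + sp G d y +
          (G.degree y - sp G d y) / (d + 2)) =
          (d + 2) * sp G d y + (G.degree y - sp G d y) := by
        field_simp
        push_cast
        ring
      rw [← e1]
      exact mul_le_mul_of_nonneg_left h4 (by positivity)
    nlinarith
  · obtain ⟨x, hyx, hx⟩ := c.exists_of_n0 h0
    have hxV : x ∈ Vp G d := by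
      rw [mem_Vp]
      omega
    have h3 := c.K_big_ge hx hyx.symm hyV
    have hz := c.Z_ineq' hxV hyx
    rw [c.lam_eq] at hz
    have hm := c.card_cl_ge (by omega) hxV
    have hK := c.K_le y
    have ha0 : (0 : ℝ) < (G.degree y : ℝ) := by linarith
    refine num3 (d := (d : ℝ)) (e := (G.degree y : ℝ) - d) (p := (sp G d y : ℝ))
      (m := ((cl G d x).card : ℝ)) (K := K G d y) hd11 (by linarith) (by linarith)
      (Nat.cast_nonneg _) hp3 hm ?_ ?_ h3
    · rw [div_mul_eq_mul_div, div_le_iff₀ (by positivity)] at hz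
      have h4 : ((d : ℝ) + 1) * (((d : ℝ) + 1) * ((G.degree y : ℝ) - d) *
          (sp G d y * (((cl G d x).card : ℝ) - sp G d y))) ≤
          ((d : ℝ) + 1) * (d * (d + ((G.degree y : ℝ) - d)) * ((cl G d x).card : ℝ)) := by
        nlinarith
      exact le_of_mul_le_mul_left h4 (by linarith)
    · have e1 : (d : ℝ) + ((G.degree y : ℝ) - d) - sp G d y = G.degree y - sp G d y := by ring
      rw [e1]
      exact hK

end Ct

end Pool.Agent.H2.RG
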