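import Mathlib
import Pool.Agent.H2.RG.BigA2

/-!
# Rigidity for `gap(G_{≥d})`, `d ≥ 11`: big vertices with a small neighbour   [H2 RG BigA3]

Notation: `p = sp y`, `m = |cl x|`, `2 m ≥ (d - 1)²`.
-/

namespace Pool.Agent.H2.RG

open Finset Classical Pool.Agent.H17 Pool.Agent.H17.Exact

set_option linter.unusedSectionVars false

variable {V : Type} [Fintype V] {G : SimpleGraph V} {d : ℕ}

namespace Ct

variable (c : Ct G d)

include c

/-- (5.3)  A vertex `y` with `A = deg y ≥ d + 3` has no small neighbour.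
Suppose `sp y = 1` (`sp_le_one`).  `κ = d (d+1)/(d+2) ≤ K y` (`K_ge_of_adj`) and
`K y ≤ (2 + 1/d) + (A-1)/(d+2)` (`K_le`), so `A ≥ d² - d - 4 - 2/d` and
`W y = (d+1)²/A ≤ 2`.  Since `κ > 2 + 1/d`, `y` has a neighbour `z` of degree `d + 2`
(`exists_nbr_two`).  `K_le_of_big_adj` (`deg z = d + 2`):
`K z ≤ (W y - d) + (2 + 1/d) sp z + (d + 1 - sp z)/(d+2)`.
* `sp z = 0`: `K z ≤ 2 - d + 1 < 0`, against `K_pos`.
* `sp z ≥ 1`: `2 sp z ≤ d + 2` (`sp_big_le`), so `K z ≤ 5 + 1/d < κ ≤ K z` (`K_ge_of_adj`). -/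
lemma sp_eq_zero (h11 : 11 ≤ d) {y : V} (hy : d + 3 ≤ G.degree y) : sp G d y = 0 := by
  have hle := c.sp_le_one h11 hy
  by_contra hne
  have h1 : sp G d y = 1 := by omega
  have hD : (11 : ℝ) ≤ d := by exact_mod_cast h11
  have hDpos : (0 : ℝ) < d := by linarith
  have hinv : (1 : ℝ) / d * d = 1 := by field_simp
  have hinv0 : (0 : ℝ) < 1 / d := by positivity
  have hinv1 : (1 : ℝ) / d ≤ 1 := by
    rw [div_le_one hDpos]; linarith
  have hyV : y ∉ Vp G d := by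
    rw [mem_Vp]; omega
  -- a small neighbour of `y`
  have hpos : 0 < (G.neighborFinset y ∩ Vp G d).card := by
    rw [sp] at h1; omega
  obtain ⟨x, hx⟩ := card_pos.1 hpos
  rw [mem_inter, mem_nbr] at hx
  have hK := c.K_ge_of_adj hx.2 hx.1.symm
  have hK2 := c.K_le y
  rw [h1] at hK2
  push_cast at hK2
  have hA : (0 : ℝ) < G.degree y := c.degpos y
  have hK3 : ((d : ℝ) + 2) * K G d y ≤ (d + 2) * (2 + 1 / d) + (G.degree y - 1) := by
    have h3 : ((d : ℝ) + 2) * ((2 + 1 / d) * 1 + ((G.degree y : ℝ) - 1) / (d + 2)) =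
        (d + 2) * (2 + 1 / d) + (G.degree y - 1) := by
      field_simp
    calc ((d : ℝ) + 2) * K G d y
        ≤ ((d : ℝ) + 2) * ((2 + 1 / d) * 1 + ((G.degree y : ℝ) - 1) / (d + 2)) :=
          mul_le_mul_of_nonneg_left hK2 (by linarith)
      _ = _ := h3
  have hA2 : ((d : ℝ) + 1) ^ 2 ≤ 2 * G.degree y := by nlinarith
  have hW : W G d y ≤ 2 := by
    rw [W, div_le_iff₀ hA]
    exact hA2
  have hKy : (2 + 1 / (d : ℝ)) * sp G d y < K G d y := by
    rw [h1]
    push_cast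
    nlinarith
  obtain ⟨z, hyz, hz⟩ := c.exists_nbr_two hKy
  have hzK := c.K_le_of_big_adj hyV hyz.symm
  rw [hz] at hzK
  push_cast at hzK
  have hzpos := c.K_pos z
  rcases Nat.eq_zero_or_pos (sp G d z) with hs | hs
  · rw [hs] at hzK
    push_cast at hzK
    have h4 : ((d : ℝ) + 2 - 1 - 0) / (d + 2) ≤ 1 := by
      rw [div_le_one (by linarith)]; linarith
    linarith
  · have hzV : z ∉ Vp G d := by
      rw [mem_Vp]; omega
    have hs2 : (2 : ℝ) * sp G d z ≤ d + 2 := by exact_mod_cast c.sp_big_le h11 hzV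
    have hs0 : (0 : ℝ) ≤ sp G d z := Nat.cast_nonneg _
    have h4 : ((d : ℝ) + 2 - 1 - sp G d z) / (d + 2) ≤ 1 := by
      rw [div_le_one (by linarith)]; linarith
    have h5 : (1 : ℝ) / d * sp G d z ≤ 1 := by
      have h6 : (sp G d z : ℝ) ≤ d := by linarith
      calc (1 : ℝ) / d * sp G d z ≤ 1 / d * d := mul_le_mul_of_nonneg_left h6 hinv0.le
        _ = 1 := hinv
    have h7 : K G d z ≤ 6 := by nlinarith
    obtain ⟨w, hw⟩ := card_pos.1 (show 0 < (G.neighborFinset z ∩ Vp G d).card by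
      rw [sp] at hs; exact hs)
    rw [mem_inter, mem_nbr] at hw
    have h8 := c.K_ge_of_adj hw.2 hw.1.symm
    nlinarith

end Ct

end Pool.Agent.H2.RG
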