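import Mathlib
import Pool.Agent.H2.RG.BigA3

/-!
# Rigidity for `gap(G_{≥d})`, `d ≥ 11`: all degrees are at most `d + 2`   [H2 RG BigB1]
-/

namespace Pool.Agent.H2.RG

open Finset Classical Pool.Agent.H17 Pool.Agent.H17.Exact

set_option linter.unusedSectionVars false

variable {V : Type} [Fintype V] {G : SimpleGraph V} {d : ℕ}

namespace Ct

variable (c : Ct G d)

include c

/-- Every vertex `z` of degree at most `d + 2` has a small neighbour: for small `z` `two_le_sp`.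
If `deg z = d + 2` and `sp z = 0`, take `u, z'` from `exists_far`; `deg z' ≤ d + 2` by
`sp_eq_zero`, so `d² ≤ W u² ≤ K z' ≤ (d + 2)(2 + 1/d)` (`K_le_deg`), impossible. -/
lemma one_le_sp_of_deg (h11 : 11 ≤ d) {z : V} (hz : G.degree z ≤ d + 2) : 1 ≤ sp G d z := by
  by_contra hcon
  have h0 : sp G d z = 0 := by omega
  by_cases hs : z ∈ Vp G d
  · have := c.two_le_sp hs
    omega
  · have hdz : G.degree z = d + 2 := le_antisymm hz (c.not_mem_Vp hs)
    obtain ⟨u, z', hu, hz', hK⟩ := c.exists_far hdz h0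
    have hz2 : G.degree z' ≤ d + 2 := by
      by_contra hcon2
      have := c.sp_eq_zero h11 (y := z') (by omega)
      omega
    have h1 := c.W_ge_of_le (y := u) hu.le
    have h2 := c.K_le_deg z'
    have h11' : (11 : ℝ) ≤ d := by exact_mod_cast h11
    have hz3 : (G.degree z' : ℝ) ≤ d + 2 := by exact_mod_cast hz2
    have h3 : (d : ℝ) ≤ W G d u := by
      have : 0 < 1 / ((d : ℝ) + 2) := by positivity
      linarith
    have h4 : (d : ℝ) ^ 2 ≤ W G d u ^ 2 := by
      have : (0 : ℝ) ≤ d := by positivity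
      gcongr
    have h5 : (G.degree z' : ℝ) * (2 + 1 / d) ≤ (d + 2) * (2 + 1 / d) :=
      mul_le_mul_of_nonneg_right hz3 (by positivity)
    have h6 : 1 / (d : ℝ) ≤ 1 := by
      rw [div_le_one (by linarith)]
      linarith
    have h7 : ((d : ℝ) + 2) * (2 + 1 / d) ≤ (d + 2) * 3 :=
      mul_le_mul_of_nonneg_left (by linarith) (by linarith)
    nlinarith

/-- Every vertex `y` has a small neighbour.  Suppose `sp y = 0`; `y` is big, with a neighbour `z`
of degree `≤ d + 2` (`exists_nbr_le`), which is not small, so `deg z = d + 2`,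
`W z = (d+1)²/(d+2)`.  `z` has a small neighbour `y' ≠ y` (`one_le_sp_of_deg`).
`K y' ≤ W z + (d + 1) = (d+1)(2d+3)/(d+2)` (`K_le_W_add`) and `W z² ≤ K y K y'` (`W_sq_le`) give
`K y ≥ (d+1)³/((d+2)(2d+3))`; `K y ≤ deg y/(d+2)` (`K_le`), so `deg y ≥ (d+1)³/(2d+3)` and
`W y ≤ (2d+3)/(d+1) = 2 + 1/(d+1)`.  `K_le_of_big_adj` for `z` with `2 sp z ≤ d + 2`
(`sp_big_le`): `K z ≤ W y - d + (2 + 1/d)(d+2)/2 + d/(2(d+2)) < W y + 3 + 1/d < 6`, against
`K z ≥ d (d+1)/(d+2) ≥ 10` (`K_ge_of_adj`). -/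
lemma one_le_sp (h11 : 11 ≤ d) (y : V) : 1 ≤ sp G d y := by
  by_contra hcon
  have h0 : sp G d y = 0 := by omega
  have hyd : d + 3 ≤ G.degree y := by
    by_contra hcon2
    have := c.one_le_sp_of_deg h11 (z := y) (by omega)
    omega
  have hyV : y ∉ Vp G d := by
    rw [mem_Vp]
    omega
  obtain ⟨z, hyz, hz⟩ := c.exists_nbr_le y
  have hzV : z ∉ Vp G d := by
    intro h
    have := c.sp_pos_of_adj hyz h
    omega
  have hdz : G.degree z = d + 2 := le_antisymm hz (c.not_mem_Vp hzV)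
  obtain ⟨y', hzy', hy'⟩ := c.exists_of_sp_pos (c.one_le_sp_of_deg h11 hz)
  have hne : y ≠ y' := by
    rintro rfl
    exact hyV hy'
  have h1 := c.K_le_W_add hy' hzy'
  have h2 := c.W_sq_le hne hyz.symm hzy'
  have h3 := c.K_le y
  have h4 := c.K_le_of_big_adj hyV hyz.symm
  have h5 := c.sp_big_le h11 hzV
  have h6 := c.K_ge_of_adj hy' hzy'.symm
  have h7 := c.K_pos y
  have h8 := c.degpos y
  rw [h0] at h3
  rw [hdz] at h4
  have hd : (11 : ℝ) ≤ d := by exact_mod_cast h11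
  have h5' : 2 * (sp G d z : ℝ) ≤ d + 2 := by exact_mod_cast h5
  have hWz : W G d z = ((d : ℝ) + 1) ^ 2 / (d + 2) := by
    rw [W, hdz]
    push_cast
    rfl
  have hWz2 : W G d z * (d + 2) = ((d : ℝ) + 1) ^ 2 := by
    rw [hWz]
    field_simp
  have hWy2 : W G d y * G.degree y = ((d : ℝ) + 1) ^ 2 := by
    rw [W]
    field_simp
  have hWzp := c.W_pos z
  have hWyp := c.W_pos y
  push_cast at h3 h4
  have h3' : K G d y * (d + 2) ≤ G.degree y := by
    have : K G d y ≤ (G.degree y : ℝ) / (d + 2) := by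
      have e : (2 + 1 / (d : ℝ)) * 0 + ((G.degree y : ℝ) - 0) / (d + 2) =
        (G.degree y : ℝ) / (d + 2) := by ring
      linarith
    rwa [le_div_iff₀ (by positivity)] at this
  have hK' : K G d y' * (d + 2) ≤ (d + 1) * (2 * d + 3) := by nlinarith
  have hdeg : ((d : ℝ) + 1) ^ 3 ≤ G.degree y * (2 * d + 3) := by
    have e1 : ((d : ℝ) + 1) ^ 4 ≤ (K G d y * (d + 2)) * (K G d y' * (d + 2)) := by
      have e2 : ((d : ℝ) + 1) ^ 4 = W G d z ^ 2 * (d + 2) ^ 2 := by
        calc ((d : ℝ) + 1) ^ 4 = (((d : ℝ) + 1) ^ 2) ^ 2 := by ring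
          _ = _ := by rw [← hWz2]; ring
      rw [e2]
      calc W G d z ^ 2 * ((d : ℝ) + 2) ^ 2 ≤ (K G d y * K G d y') * (d + 2) ^ 2 :=
            mul_le_mul_of_nonneg_right h2 (by positivity)
        _ = _ := by ring
    have e3 : (K G d y * (d + 2)) * (K G d y' * (d + 2)) ≤
        G.degree y * ((d + 1) * (2 * d + 3)) := by
      apply mul_le_mul h3' hK' _ h8.le
      have := c.K_nonneg y'
      positivity
    have e4 : ((d : ℝ) + 1) * ((d : ℝ) + 1) ^ 3 ≤ (d + 1) * (G.degree y * (2 * d + 3)) := by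
      calc _ = ((d : ℝ) + 1) ^ 4 := by ring
        _ ≤ _ := e1.trans e3
        _ = _ := by ring
    exact le_of_mul_le_mul_left e4 (by positivity)
  have hWy : W G d y * (d + 1) ≤ 2 * d + 3 := by
    have e1 : (W G d y * (d + 1)) * (((d : ℝ) + 1) ^ 2 * G.degree y) ≤
        (2 * d + 3) * (((d : ℝ) + 1) ^ 2 * G.degree y) := by
      calc _ = (W G d y * G.degree y) * ((d : ℝ) + 1) ^ 3 := by ring
        _ = ((d : ℝ) + 1) ^ 2 * ((d : ℝ) + 1) ^ 3 := by rw [hWy2]
        _ ≤ ((d : ℝ) + 1) ^ 2 * (G.degree y * (2 * d + 3)) :=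
          mul_le_mul_of_nonneg_left hdeg (by positivity)
        _ = _ := by ring
    exact le_of_mul_le_mul_right e1 (by positivity)
  have hWy3 : W G d y ≤ 3 := by nlinarith
  have hsz : (2 + 1 / (d : ℝ)) * sp G d z + ((d : ℝ) + 2 - 1 - sp G d z) / (d + 2) ≤ d + 4 := by
    have e0 : (0 : ℝ) ≤ sp G d z := by positivity
    have e1 : (sp G d z : ℝ) / d ≤ 1 := by
      rw [div_le_one (by linarith)]
      linarith
    have e2 : (2 + 1 / (d : ℝ)) * sp G d z = 2 * sp G d z + sp G d z / d := by ring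
    have e3 : ((d : ℝ) + 2 - 1 - sp G d z) / (d + 2) ≤ 1 := by
      rw [div_le_one (by linarith)]
      linarith
    linarith
  have hKz : K G d z ≤ 7 := by linarith
  nlinarith

/-- `sp_eq_zero` and `one_le_sp`. -/
lemma deg_le (h11 : 11 ≤ d) (y : V) : G.degree y ≤ d + 2 := by
  by_contra hcon
  have h1 := c.sp_eq_zero h11 (y := y) (by omega)
  have h2 := c.one_le_sp h11 y
  omega

/-- `deg_le` and `W_ge_of_le`. -/
lemma d_le_W (h11 : 11 ≤ d) (y : V) : (d : ℝ) ≤ W G d y := by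
  have h1 := c.W_ge_of_le (c.deg_le h11 y)
  have h2 : 0 < 1 / ((d : ℝ) + 2) := by positivity
  linarith

end Ct

end Pool.Agent.H2.RG
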