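import Mathlib
import Pool.Agent.H2.RG.BigB1

/-!
# Rigidity for `gap(G_{≥d})`, `d ≥ 11`: all degrees are at most `d + 2`   [H2 RG BigB2]
-/

namespace Pool.Agent.H2.RG

open Finset Classical Pool.Agent.H17 Pool.Agent.H17.Exact

set_option linter.unusedSectionVars false

variable {V : Type} [Fintype V] {G : SimpleGraph V} {d : ℕ}

namespace Ct

variable (c : Ct G d)

include c

/-- `2 sp y ≥ d` for all `y`.  Small `y`: `sp_small_ge`.  Big `y` (degree `d + 2`): suppose
`2 sp y ≤ d - 1`.  If `y` has a neighbour of degree `d`, `K_big_ge` gives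
`K y ≥ (d+1)³/(d (d+3)) = d + 3/(d+3) + 1/(d (d+3))`, but `K_le` gives
`K y ≤ (2 + 1/d)(d-1)/2 + (d+5)/(2(d+2)) = d - 1/(2d) + 3/(2(d+2))`.
Otherwise `n0 y = 0` and `K y ≤ sp y + (d + 2 - sp y)/(d+2) ≤ (d-1)/2 + 1 < d (d+1)/(d+2)`
(`K_le_n`), against `K_ge_of_adj`. -/
lemma sp_ge (h11 : 11 ≤ d) (y : V) : d ≤ 2 * sp G d y := by
  by_cases hy : y ∈ Vp G d
  · exact c.sp_small_ge hy
  · by_contra hcon
    have hlt : 2 * sp G d y + 1 ≤ d := by omega
    have hdeg : G.degree y = d + 2 :=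
      le_antisymm (c.deg_le h11 y) (c.not_mem_Vp hy)
    have hdegR : (G.degree y : ℝ) = d + 2 := by rw [hdeg]; push_cast; ring
    have hd : (11 : ℝ) ≤ d := by exact_mod_cast h11
    have hs : 2 * (sp G d y : ℝ) + 1 ≤ d := by exact_mod_cast hlt
    have hs0 : (0 : ℝ) ≤ sp G d y := Nat.cast_nonneg _
    by_cases h0 : n0 G d y = 0
    · have h1 := c.K_le_n y
      have h2 := c.n0_add_n1 y
      rw [h0, zero_add] at h2
      rw [h0, h2, hdegR] at h1
      obtain ⟨x, hx, hxV⟩ := c.exists_of_sp_pos (c.one_le_sp h11 y)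
      have h3 := c.K_ge_of_adj hxV hx.symm
      have h4 : ((d : ℝ) + 2 - sp G d y) / (d + 2) ≤ 1 := by
        rw [div_le_one (by linarith)]; linarith
      have h5 : K G d y ≤ (d + 1) / 2 := by
        push_cast at h1
        linarith
      nlinarith
    · obtain ⟨x, hx, hxd⟩ := c.exists_of_n0 h0
      have h3 := c.K_big_ge hxd hx.symm hy
      have h1 := c.K_le y
      rw [hdegR] at h1
      set s : ℝ := (sp G d y : ℝ) with hsdef
      have hd0 : (0 : ℝ) < d := by linarith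
      have h4 : ((d : ℝ) + 2) * (d * (d + 3) * ((2 + 1 / d) * s + (d + 2 - s) / (d + 2))) =
          (d + 3) * (2 * (d + 1) ^ 2 * s + d * (d + 2)) := by
        field_simp
        ring
      have h5 : ((d : ℝ) + 2) * (d * (d + 3) * K G d y) ≤
          ((d : ℝ) + 2) * (d * (d + 3) * ((2 + 1 / d) * s + (d + 2 - s) / (d + 2))) := by
        gcongr
      have h6 : ((d : ℝ) + 2) * (d + 1) ^ 3 ≤ ((d : ℝ) + 2) * (d * (d + 3) * K G d y) := by
        gcongr
      have h7 : 2 * ((d : ℝ) + 1) ^ 2 * s ≤ (d + 1) ^ 2 * (d - 1) := by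
        have : (0 : ℝ) ≤ (d + 1) ^ 2 := by positivity
        nlinarith
      have h8 : ((d : ℝ) + 3) * (2 * (d + 1) ^ 2 * s + d * (d + 2)) ≤
          (d + 3) * ((d + 1) ^ 2 * (d - 1) + d * (d + 2)) := by
        gcongr
      have h9 : ((d : ℝ) + 3) * ((d + 1) ^ 2 * (d - 1) + d * (d + 2)) <
          (d + 2) * (d + 1) ^ 3 := by
        nlinarith
      linarith

/-- (5.6)  A big vertex `y` has at most one common neighbour with any other vertex: two common
neighbours give `Kc y y' ≥ 2 d` (`d_le_W`), but `Kc y y' ² ≤ K y K y'` (`Kc_sq_le`),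
`K y ≤ d + 3 + 1/d` (`K_big_le`), `K y' ≤ 2d + 3 + 1/d` (`K_big_le` or `K_le_deg`) and
`(d + 3 + 1/d)(2d + 3 + 1/d) = 2d² + 9d + 12 + 6/d + 1/d² < 4d²`. -/
lemma common_unique' (h11 : 11 ≤ d) {y y' v v' : V} (hy : y ∉ Vp G d) (hne : y ≠ y')
    (h1 : G.Adj v y) (h2 : G.Adj v y') (h3 : G.Adj v' y) (h4 : G.Adj v' y') : v = v' := by
  by_contra hv
  have hd : (11 : ℝ) ≤ d := by exact_mod_cast h11
  have hKy := c.K_big_le h11 hy (c.deg_le h11 y)
  have hr0 : (0 : ℝ) < 1 / d := by positivity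
  have hr1 : 1 / (d : ℝ) ≤ 1 / 10 := by
    apply one_div_le_one_div_of_le <;> linarith
  have hKy' : K G d y' ≤ 2 * d + 3 + 1 / d := by
    by_cases hs : y' ∈ Vp G d
    · have e1 := c.K_le_deg y'
      rw [mem_Vp] at hs
      have e2 : (G.degree y' : ℝ) ≤ d + 1 := by exact_mod_cast hs
      have e3 : (G.degree y' : ℝ) * (2 + 1 / d) ≤ (d + 1) * (2 + 1 / d) :=
        mul_le_mul_of_nonneg_right e2 (by positivity)
      have e4 : ((d : ℝ) + 1) * (2 + 1 / d) = 2 * d + 3 + 1 / d := by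
        field_simp
        ring
      linarith
    · have e1 := c.K_big_le h11 hs (c.deg_le h11 y')
      linarith
  have hKc : 2 * (d : ℝ) ≤ Kc G d y y' := by
    have e1 : ({v, v'} : Finset V) ⊆ G.neighborFinset y ∩ G.neighborFinset y' := by
      intro w hw
      simp only [mem_insert, mem_singleton] at hw
      rw [mem_inter, mem_nbr, mem_nbr]
      rcases hw with rfl | rfl
      · exact ⟨h1.symm, h2.symm⟩
      · exact ⟨h3.symm, h4.symm⟩
    have e2 : ∑ w ∈ ({v, v'} : Finset V), W G d w ≤ Kc G d y y' := by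
      rw [Kc]
      exact sum_le_sum_of_subset_of_nonneg e1 fun w _ _ => (c.W_pos w).le
    rw [sum_pair hv] at e2
    have e3 := c.d_le_W h11 v
    have e4 := c.d_le_W h11 v'
    linarith
  have hsq := c.Kc_sq_le hne
  have hK0 := c.K_nonneg y
  have hK0' := c.K_nonneg y'
  have e5 : K G d y * K G d y' ≤ (d + 31 / 10) * (2 * d + 31 / 10) := by
    apply mul_le_mul
    · linarith
    · linarith
    · exact hK0'
    · linarith
  have e6 : (2 * (d : ℝ)) ^ 2 ≤ Kc G d y y' ^ 2 := by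
    apply pow_le_pow_left₀ (by linarith) hKc
  nlinarith

end Ct

end Pool.Agent.H2.RG
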