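import Mathlib
import Pool.Agent.H2.RG.BigB2

/-!
# Rigidity for `gap(G_{≥d})`, `d ≥ 11`: all degrees are at most `d + 2`   [H2 RG BigB3]
-/

namespace Pool.Agent.H2.RG

open Finset Classical Pool.Agent.H17 Pool.Agent.H17.Exact

set_option linter.unusedSectionVars false

variable {V : Type} [Fintype V] {G : SimpleGraph V} {d : ℕ}

private lemma bigB3_num {d D K : ℝ} (hd : 11 ≤ d) (hD : D = (2 * d ^ 2 + 11 * d + 9) / (4 * d))
    (hK : K ≤ d + 3 + 1 / d) (h : 0 ≤ (D / d) ^ 2 * K + D - 2 * (D / d) * d) : False := by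
  have hd0 : (0 : ℝ) < d := by linarith
  have hDpos : 0 < D := by
    rw [hD]
    positivity
  have h1 : (D / d) ^ 2 * K ≤ (D / d) ^ 2 * (d + 3 + 1 / d) :=
    mul_le_mul_of_nonneg_left hK (by positivity)
  have h2 : 2 * (D / d) * d = 2 * D := by
    field_simp
  have h3 : 0 ≤ (D / d) ^ 2 * (d + 3 + 1 / d) - D := by linarith
  have h4 : (D / d) ^ 2 * (d + 3 + 1 / d) - D = D * ((2 * d ^ 2 + 11 * d + 9) *
      (d ^ 2 + 3 * d + 1) - 4 * d ^ 4) / (4 * d ^ 4) := by
    have e1 : (D / d) ^ 2 * (d + 3 + 1 / d) - D =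
        D * ((D * (d + 3 + 1 / d)) / d ^ 2 - 1) := by
      field_simp
    rw [e1]
    conv_lhs => rw [show (D * (d + 3 + 1 / d)) / d ^ 2 - 1 =
      ((2 * d ^ 2 + 11 * d + 9) / (4 * d) * (d + 3 + 1 / d)) / d ^ 2 - 1 by rw [← hD]]
    field_simp
  rw [h4] at h3
  have h5 : (2 * d ^ 2 + 11 * d + 9) * (d ^ 2 + 3 * d + 1) - 4 * d ^ 4 < 0 := by
    obtain ⟨t, rfl⟩ : ∃ t, d = 11 + t := ⟨d - 11, by ring⟩
    have ht : 0 ≤ t := by linarith
    nlinarith [pow_nonneg ht 2, pow_nonneg ht 3, pow_nonneg ht 4]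
  have h6 : D * ((2 * d ^ 2 + 11 * d + 9) *
      (d ^ 2 + 3 * d + 1) - 4 * d ^ 4) / (4 * d ^ 4) < 0 :=
    div_neg_of_neg_of_pos (mul_neg_of_pos_of_neg hDpos h5) (by positivity)
  linarith

namespace Ct

variable (c : Ct G d)

include c

/-- (P2)  A big vertex `z` adjacent to a vertex `y` (any `y`) is collinear with all points of the
cluster `Z = cl x` of a small neighbour `x` of `y`.
Proof.  `T` = the points of `Z` collinear with `z`, `t = |T| ≥ sp y ≥ d/2` (`T` contains the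
small neighbours of `y`, `line_sub`, `sp_ge`).  Suppose `s' = |Z \ T| ≥ 1`.  Put
`g = -(1/t) 1_T + (1/(2 s')) 1_{Z \ T}`, `D = (d + 2 + 1/d)/4 + (d + 1)(2/d + 1/4)`.
`zform_le`: `Q g ≤ (d + 2 + 1/d)/4 + (d+1)(1/t + 1/(4 s')) ≤ D`.
`QB (δ_z) g ≤ -d`: by `QB_single` (`g z = 0`) it is `∑_{u ~ z} W u * nb g u`, and
`nb g u = -(1/t) |N(u) ∩ T|` since `N(u) ∩ Z ⊆ T` for `u ~ z`; `W u ≥ d` (`d_le_W`) and
`∑_{u ~ z} |N(u) ∩ T| ≥ t` by definition of `T`.
So `0 ≤ Q (δ_z + b g) ≤ K z - 2 b d + b² D` for `b = d/D`, i.e. `d² ≤ D K z`.  But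
`K z ≤ d + 3 + 1/d` (`K_big_le`), `D = d/2 + 11/4 + 9/(4d)`,
`D (d + 3 + 1/d) = d²/2 + (17/4) d + 11 + 19/(2d) + 9/(4d²) < d²` (`119.2 < 121` at `d = 11`).
Compare `Ctx.collinear` in `Pool.Agent.H17.ExactG`. -/
lemma collinear_all (h11 : 11 ≤ d) {z y x : V} (hz : z ∉ Vp G d) (hyz : G.Adj y z)
    (hx : x ∈ Vp G d) (hyx : G.Adj y x) {v : V} (hv : v ∈ cl G d x) :
    ∃ u, G.Adj u z ∧ G.Adj u v := by
  obtain ⟨Z, hZ⟩ : ∃ Z, Z = cl G d x := ⟨_, rfl⟩
  obtain ⟨T, hT⟩ : ∃ T, T = Z.filter fun v => ∃ u, G.Adj u z ∧ G.Adj u v := ⟨_, rfl⟩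
  rw [← hZ] at hv
  by_contra hcon
  have hvT : v ∈ Z \ T := by
    rw [mem_sdiff, hT, mem_filter]
    exact ⟨hv, fun h => hcon h.2⟩
  have hTZ : T ⊆ Z := by
    rw [hT]
    exact filter_subset _ _
  have hd : (11 : ℝ) ≤ d := by exact_mod_cast h11
  have hspT : sp G d y ≤ T.card := by
    refine card_le_card fun w hw => ?_
    rw [mem_inter, mem_nbr] at hw
    rw [hT, mem_filter]
    refine ⟨?_, y, hyz, hw.1⟩
    rw [hZ]
    exact c.line_sub hx (mem_cl_self x) hyx hw.1 hw.2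
  obtain ⟨t, ht⟩ : ∃ t : ℝ, t = (T.card : ℝ) := ⟨_, rfl⟩
  obtain ⟨s', hs'⟩ : ∃ s' : ℝ, s' = ((Z \ T).card : ℝ) := ⟨_, rfl⟩
  have ht2 : (d : ℝ) ≤ 2 * t := by
    have h1 := c.sp_ge h11 y
    have h2 : d ≤ 2 * T.card := by omega
    rw [ht]
    exact_mod_cast h2
  have hs1 : 1 ≤ s' := by
    rw [hs']
    exact_mod_cast card_pos.2 ⟨v, hvT⟩
  have ht0 : 0 < t := by linarith
  have hs0 : 0 < s' := by linarith
  obtain ⟨f, hf⟩ : ∃ f : V → ℝ, f = fun w => (if w ∈ T then -(1 / t) else 0) +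
    (if w ∈ Z \ T then 1 / (2 * s') else 0) := ⟨_, rfl⟩
  have hfz : ∀ w, w ∉ Z → f w = 0 := by
    intro w hw
    have h1 : w ∉ T := fun h => hw (hTZ h)
    have h2 : w ∉ Z \ T := fun h => hw (mem_sdiff.1 h).1
    rw [hf]
    simp only [if_neg h1, if_neg h2]
    ring
  have h1 := c.zform_le hx f (by rw [← hZ]; exact hfz)
  have e1 : ∀ u, nb G f u = -(1 / t) * ((G.neighborFinset u ∩ T).card : ℝ) +
      1 / (2 * s') * ((G.neighborFinset u ∩ (Z \ T)).card : ℝ) := by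
    intro u
    simp only [nb, hf, sum_add_distrib, sum_ite_mem, sum_const, nsmul_eq_mul]
    ring
  have e2 : ∑ x, f x = -(1 / 2) := by
    simp only [hf, sum_add_distrib, sum_ite_mem, univ_inter, sum_const, nsmul_eq_mul]
    rw [← ht, ← hs']
    field_simp
    norm_num
  have e3 : ∑ x, f x ^ 2 = 1 / t + 1 / (4 * s') := by
    have : ∀ x, f x ^ 2 = (if x ∈ T then (1 / t) ^ 2 else 0) +
        (if x ∈ Z \ T then (1 / (2 * s')) ^ 2 else 0) := by
      intro x
      rw [hf]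
      by_cases h3 : x ∈ T
      · have h4 : x ∉ Z \ T := fun h => (mem_sdiff.1 h).2 h3
        simp only [if_pos h3, if_neg h4]; ring
      · by_cases h4 : x ∈ Z \ T
        · simp only [if_neg h3, if_pos h4]; ring
        · simp only [if_neg h3, if_neg h4]; ring
    rw [sum_congr rfl fun x _ => this x, sum_add_distrib]
    simp only [sum_ite_mem, univ_inter, sum_const, nsmul_eq_mul, ← ht, ← hs']
    field_simp
    ring
  have hzZ : z ∉ Z := by
    rw [hZ]
    exact fun h => hz (c.cl_sub hx h)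
  have h4 : QB G d (Pi.single z 1) f ≤ -d := by
    rw [QB_single, hfz z hzZ, mul_zero, mul_zero, sub_zero]
    have h5 : ∀ u ∈ G.neighborFinset z, W G d u * nb G f u =
        -(1 / t) * (W G d u * ((G.neighborFinset u ∩ T).card : ℝ)) := by
      intro u hu
      rw [mem_nbr] at hu
      have h6 : G.neighborFinset u ∩ (Z \ T) = ∅ := by
        ext w
        rw [mem_inter, mem_nbr, mem_sdiff, hT, mem_filter]
        simp only [notMem_empty, iff_false, not_and]
        intro h7 h8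
        exact fun h9 => h9 h8 ⟨u, hu.symm, h7⟩
      rw [e1, h6, card_empty]
      push_cast
      ring
    rw [sum_congr rfl h5, ← mul_sum]
    have h7 : (d : ℝ) * t ≤ ∑ u ∈ G.neighborFinset z,
        W G d u * ((G.neighborFinset u ∩ T).card : ℝ) := by
      calc (d : ℝ) * t ≤ d * ∑ u ∈ G.neighborFinset z,
            ((G.neighborFinset u ∩ T).card : ℝ) := by
            refine mul_le_mul_of_nonneg_left ?_ (by linarith)
            have h6 : T ⊆ (G.neighborFinset z).biUnion fun u => G.neighborFinset u ∩ T := by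
              intro w hw
              rw [mem_biUnion]
              have hw' := hw
              rw [hT, mem_filter] at hw'
              obtain ⟨_, u, h7, h8⟩ := hw'
              exact ⟨u, mem_nbr.2 h7.symm, mem_inter.2 ⟨mem_nbr.2 h8, hw⟩⟩
            have h7 := (card_le_card h6).trans card_biUnion_le
            rw [ht]
            exact_mod_cast h7
        _ = ∑ u ∈ G.neighborFinset z, (d : ℝ) * ((G.neighborFinset u ∩ T).card : ℝ) := by
            rw [mul_sum]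
        _ ≤ ∑ u ∈ G.neighborFinset z, W G d u * ((G.neighborFinset u ∩ T).card : ℝ) :=
            sum_le_sum fun u _ => mul_le_mul_of_nonneg_right (c.d_le_W h11 u) (by positivity)
    have h8 : (1 / t) * ((d : ℝ) * t) ≤ (1 / t) * ∑ u ∈ G.neighborFinset z,
        W G d u * ((G.neighborFinset u ∩ T).card : ℝ) :=
      mul_le_mul_of_nonneg_left h7 (by positivity)
    have h9 : (1 / t) * ((d : ℝ) * t) = d := by field_simp
    linarith
  have hKz := c.K_big_le h11 hz (c.deg_le h11 z)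
  obtain ⟨D, hD⟩ : ∃ D : ℝ, D = (2 * (d : ℝ) ^ 2 + 11 * d + 9) / (4 * d) := ⟨_, rfl⟩
  have hDp : 0 < D := by
    rw [hD]
    have : (0 : ℝ) < d := by linarith
    positivity
  have hQf : Q G d f ≤ D := by
    rw [e2, e3] at h1
    have i1 : 1 / t ≤ 2 / d := by
      rw [div_le_div_iff₀ ht0 (by linarith)]
      linarith
    have i2 : 1 / (4 * s') ≤ 1 / 4 := by
      apply one_div_le_one_div_of_le (by norm_num)
      linarith
    have i3 : ((d : ℝ) + 1) * (1 / t + 1 / (4 * s')) ≤ (d + 1) * (2 / d + 1 / 4) :=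
      mul_le_mul_of_nonneg_left (by linarith) (by linarith)
    have i4 : ((d : ℝ) + 2 + 1 / d) * (-(1 / 2)) ^ 2 + (d + 1) * (2 / d + 1 / 4) = D := by
      rw [hD]
      field_simp
      ring
    linarith
  have h5 := c.Q_nonneg ((D / d) • Pi.single z 1 + f)
  rw [Q_add, Q_smul, QB_smul_left, Q_single] at h5
  have hDd : 0 ≤ D / d := by
    have : (0 : ℝ) < d := by linarith
    positivity
  have h6 := mul_le_mul_of_nonneg_left h4 hDd
  exact bigB3_num hd hD hKz (by linarith)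

end Ct

end Pool.Agent.H2.RG
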