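import Mathlib
import Pool.Agent.H2.RG.BigB3

/-!
# Rigidity for `gap(G_{≥d})`, `d ≥ 11`: all degrees are at most `d + 2`   [H2 RG BigB4]
-/

namespace Pool.Agent.H2.RG

open Finset Classical Pool.Agent.H17 Pool.Agent.H17.Exact

set_option linter.unusedSectionVars false

variable {V : Type} [Fintype V] {G : SimpleGraph V} {d : ℕ}

namespace Ct

variable (c : Ct G d)

include c

/-- All vertices are small.  Suppose `y` is big, `x` a small neighbour, `w ∈ cl x` not adjacent
to `y` (`sp_lt_card`).  Every neighbour `v` of `y` is collinear with `w`: for small `v` because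
`v ∈ cl x` (`line_sub`) and `cl_clq`; for big `v` by `collinear_all`.  Let `φ v` be a common
neighbour of `v` and `w`; `φ v ≠ y`.  `φ` is injective on `N(y)`: if `φ v = φ v' = u`, then
`v, v'` are common neighbours of `y` and `u ≠ y`, so `v = v'` (`common_unique'`).  Hence
`d + 2 ≤ deg y ≤ deg w`, but `w` is small. -/
theorem mem_Vp_all (h11 : 11 ≤ d) (y : V) : y ∈ Vp G d := by
  by_contra hy
  obtain ⟨x, hyx, hx⟩ := c.exists_of_sp_pos (c.one_le_sp h11 y)
  obtain ⟨⟨w, hw, hwy⟩, _, _⟩ := c.sp_lt_card hyx hx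
  have hwV := c.cl_sub hx hw
  have key : ∀ v ∈ G.neighborFinset y, ∃ u, G.Adj u v ∧ G.Adj u w := by
    intro v hv
    rw [mem_nbr] at hv
    by_cases hvV : v ∈ Vp G d
    · have h1 : v ∈ cl G d x := c.line_sub hx (mem_cl_self x) hyx hv hvV
      have hne : v ≠ w := by
        rintro rfl
        exact hwy hv
      obtain ⟨_, _, _, u, h3, h4⟩ := c.cl_clq x v h1 w hw hne
      exact ⟨u, h3, h4⟩
    · exact c.collinear_all h11 hvV hv hx hyx hw
  choose! φ hφ1 hφ2 using key
  have h1 : (G.neighborFinset y).card ≤ (G.neighborFinset w).card := by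
    refine card_le_card_of_injOn φ (fun v hv => ?_) ?_
    · have := hφ2 v hv
      exact mem_coe.2 (mem_nbr.2 this.symm)
    · intro v hv v' hv' h
      have hv1 := mem_coe.1 hv
      have hv1' := mem_coe.1 hv'
      have h2 : G.Adj y v := mem_nbr.1 hv1
      have h2' : G.Adj y v' := mem_nbr.1 hv1'
      have hne : y ≠ φ v := by
        intro h3
        have h4 := hφ2 v hv1
        rw [← h3] at h4
        exact hwy h4
      have h3' : G.Adj (φ v) v' := by
        rw [h]
        exact hφ1 v' hv1'
      exact c.common_unique' h11 hy hne h2.symm (hφ1 v hv1).symm h2'.symm h3'.symm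
  rw [SimpleGraph.card_neighborFinset_eq_degree, SimpleGraph.card_neighborFinset_eq_degree] at h1
  have h2 := c.not_mem_Vp hy
  rw [mem_Vp] at hwV
  omega

end Ct

end Pool.Agent.H2.RG
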