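import Mathlib
import Pool.Agent.H2.RG.Zform
import Pool.Agent.H2.RG.Cnt

/-!
# Rigidity for `gap(G_{≥d})`, `d = 7`: no big vertices   [H2 RG BigS1]

`W y = 64/deg y`, `lam y = 64/7 - 64/deg y`, `m = |cl x| ≥ 24` (`nx_ge_seven`, `card_cl`),
`cf = 41/7` in degree `7`, `8` in degree `8`.
-/

namespace Pool.Agent.H2.RG

open Finset Classical Pool.Agent.H17 Pool.Agent.H17.Exact

set_option linter.unusedSectionVars false

variable {V : Type} [Fintype V] {G : SimpleGraph V} {d : ℕ}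

namespace Ct

variable (c : Ct G d)

include c

/-- Sum of `cf` over the small neighbours of a line. -/
lemma sum_cf (y : V) : ∑ v ∈ G.neighborFinset y ∩ Vp G d, cf G d v =
    (d - 1 - 1 / d) * n0 G d y + (d + 1) * n1 G d y := by
  have h1 : ∀ v ∈ G.neighborFinset y ∩ Vp G d, cf G d v =
      (if G.degree v = d then ((d : ℝ) - 1 - 1 / d) else 0) +
        (if G.degree v = d + 1 then ((d : ℝ) + 1) else 0) := by
    intro v hv
    rw [mem_inter, mem_Vp] at hv
    have h2 := c.hdeg v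
    rcases Nat.lt_or_ge d (G.degree v) with h3 | h3
    · have h4 : G.degree v = d + 1 := by omega
      rw [if_neg (by omega), if_pos h4, c.cf_of_deg' h4]
      ring
    · have h4 : G.degree v = d := by omega
      rw [if_pos h4, if_neg (by omega), c.cf_of_deg h4]
      ring
  rw [sum_congr rfl h1, sum_add_distrib, ← sum_filter, ← sum_filter, sum_const, sum_const,
    nsmul_eq_mul, nsmul_eq_mul, n0, n1]
  ring

/-- `star_bound` at the small neighbour `x` of the big vertex `y`, with `T` = all small neighbours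
of `x`, `|T| = sp x ≥ 4` (`sp_small_ge`): `K y ≥ 4 W²/(8 + 4 W) = W²/(2 + W)`, `W = W x ≥ 8`. -/
lemma K_ge_seven (h7 : d = 7) {x y : V} (hx : x ∈ Vp G d) (hxy : G.Adj x y) (hy : y ∉ Vp G d) :
    32 / 5 ≤ K G d y := by
  have h1 := c.star_bound hxy (T := G.neighborFinset x ∩ Vp G d) (fun t ht => by
    rw [mem_inter, mem_nbr] at ht
    exact ⟨ht.1, ht.2, fun h => hy (h ▸ ht.2)⟩)
  have h2 : d ≤ 2 * sp G d x := c.sp_small_ge hx
  have h3 : 4 ≤ sp G d x := by omega
  have h4 : (4 : ℝ) ≤ ((G.neighborFinset x ∩ Vp G d).card : ℝ) := by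
    have : 4 ≤ (G.neighborFinset x ∩ Vp G d).card := h3
    exact_mod_cast this
  have h5 := c.le_W_of_small hx
  have h6 : (d : ℝ) = 7 := by rw [h7]; norm_num
  rw [h6] at h1 h5
  set r : ℝ := ((G.neighborFinset x ∩ Vp G d).card : ℝ) with hr
  have h8 : 32 ≤ r * W G d x := by nlinarith
  have h9 : 32 / 5 * (7 + 1 + r * W G d x) ≤ r * W G d x ^ 2 := by nlinarith
  by_contra hcon
  push Not at hcon
  have h10 : K G d y * (7 + 1 + r * W G d x) < 32 / 5 * (7 + 1 + r * W G d x) :=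
    mul_lt_mul_of_pos_right hcon (by linarith)
  linarith

/-- The same with `W x = 64/7`: `K y ≥ 2048/273 = 7.5018…`. -/
lemma K_ge_seven' (h7 : d = 7) {x y : V} (hx : G.degree x = d) (hxy : G.Adj x y)
    (hy : y ∉ Vp G d) : 2048 / 273 ≤ K G d y := by
  have hxV : x ∈ Vp G d := by
    rw [mem_Vp]
    omega
  have h1 := c.star_bound hxy (T := G.neighborFinset x ∩ Vp G d) (fun t ht => by
    rw [mem_inter, mem_nbr] at ht
    exact ⟨ht.1, ht.2, fun h => hy (h ▸ ht.2)⟩)
  have h2 : d ≤ 2 * sp G d x := c.sp_small_ge hxV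
  have h3 : 4 ≤ sp G d x := by omega
  have h4 : (4 : ℝ) ≤ ((G.neighborFinset x ∩ Vp G d).card : ℝ) := by
    have : 4 ≤ (G.neighborFinset x ∩ Vp G d).card := h3
    exact_mod_cast this
  have h6 : (d : ℝ) = 7 := by rw [h7]; norm_num
  have h5 : W G d x = 64 / 7 := by
    rw [W, hx, h6]
    norm_num
  rw [h5, h6] at h1
  set r : ℝ := ((G.neighborFinset x ∩ Vp G d).card : ℝ) with hr
  have h9 : 2048 / 273 * (7 + 1 + r * (64 / 7)) ≤ r * (64 / 7 : ℝ) ^ 2 := by nlinarith
  by_contra hcon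
  push Not at hcon
  have h10 : K G d y * (7 + 1 + r * (64 / 7)) < 2048 / 273 * (7 + 1 + r * (64 / 7)) :=
    mul_lt_mul_of_pos_right hcon (by linarith)
  linarith

/-- (Z) for `d = 7`, with `m` replaced by `24` (for `m ≥ 24` it implies the inequality for `24`,
because `p²/(m-p)` decreases in `m`; `p = sp y ≤ 8` by `sp_lt_card`). -/
lemma Z_seven (h7 : d = 7) {x y : V} (hx : x ∈ Vp G d) (hyx : G.Adj y x) :
    sp G d y ≤ 8 ∧ (24 - (sp G d y : ℝ)) * (lam G d y * (sp G d y : ℝ) ^ 2 -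
      (41 / 7 * n0 G d y + 8 * n1 G d y)) ≤ 8 * (sp G d y : ℝ) ^ 2 := by
  have h1 := c.Z_ineq hx hyx
  have h2 := c.sum_cf y
  have h3 := (c.sp_lt_card hyx hx).2.2
  have h4 := c.nx_ge_seven h7 hx
  have h5 : 24 ≤ (cl G d x).card := by
    rw [card_cl]
    omega
  have h6 : (d : ℝ) = 7 := by rw [h7]; norm_num
  have h8 : sp G d y ≤ 8 := by omega
  have h9 : (24 : ℝ) ≤ (cl G d x).card := by exact_mod_cast h5
  have h10 : (sp G d y : ℝ) ≤ 8 := by exact_mod_cast h8
  refine ⟨h8, ?_⟩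
  rw [h2, h6] at h1
  set X : ℝ := lam G d y * (sp G d y : ℝ) ^ 2 - (41 / 7 * n0 G d y + 8 * n1 G d y) with hX
  set p : ℝ := (sp G d y : ℝ) with hp
  set m : ℝ := ((cl G d x).card : ℝ) with hm
  have h11 : (m - p) * X ≤ 8 * p ^ 2 := by
    rw [hX]
    linarith
  rcases le_or_gt X 0 with h12 | h12
  · have h13 : (24 - p) * X ≤ 0 := mul_nonpos_of_nonneg_of_nonpos (by linarith) h12
    have h14 : 0 ≤ 8 * p ^ 2 := by positivity
    linarith
  · have h13 : (24 - p) * X ≤ (m - p) * X := mul_le_mul_of_nonneg_right (by linarith) h12.le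
    linarith

end Ct

end Pool.Agent.H2.RG
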