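import Mathlib
import Pool.Agent.H2.RG.BigS1

/-!
# Rigidity for `gap(G_{≥d})`, `d = 7`: no big vertices   [H2 RG BigS2]

`W y = 64/deg y`, `lam y = 64/7 - 64/deg y`, `m = |cl x| ≥ 24` (`nx_ge_seven`, `card_cl`),
`cf = 41/7` in degree `7`, `8` in degree `8`.
-/

namespace Pool.Agent.H2.RG

open Finset Classical Pool.Agent.H17 Pool.Agent.H17.Exact

set_option linter.unusedSectionVars false

private lemma sp_nine_num (a b : ℕ) (hab : a + b ≤ 8) (hpos : 1 ≤ a + b)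
    (hZ : (24 - ((a + b : ℕ) : ℝ)) * (128 / 63 * ((a + b : ℕ) : ℝ) ^ 2 -
      (41 / 7 * (a : ℝ) + 8 * (b : ℝ))) ≤ 8 * ((a + b : ℕ) : ℝ) ^ 2)
    (hK1 : 32 / 5 ≤ 15 / 7 * (a : ℝ) + b + (9 - ((a + b : ℕ) : ℝ)) / 9)
    (hK2 : a ≠ 0 → 2048 / 273 ≤ 15 / 7 * (a : ℝ) + b + (9 - ((a + b : ℕ) : ℝ)) / 9) : False := by
  have ha : a ≤ 8 := by omega
  interval_cases a
  all_goals
    have hb : b ≤ 8 := by omega
    interval_cases b
  all_goals first
    | omega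
    | (exfalso; revert hZ; norm_num; done)
    | (exfalso; revert hK1; norm_num; done)
    | (exfalso; have h := hK2 (by norm_num); revert h; norm_num)

variable {V : Type} [Fintype V] {G : SimpleGraph V} {d : ℕ}

namespace Ct

variable (c : Ct G d)

include c

lemma sp_nine (h7 : d = 7) {y : V} (hy : G.degree y = 9) : sp G d y = 0 := by
  by_contra hsp
  have hdR : (d : ℝ) = 7 := by rw [h7]; norm_num
  have hyR : (G.degree y : ℝ) = 9 := by rw [hy]; norm_num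
  -- a small neighbour
  have hne : (G.neighborFinset y ∩ Vp G d).Nonempty := by
    rw [← Finset.card_pos]
    exact Nat.pos_of_ne_zero hsp
  obtain ⟨x, hx⟩ := hne
  rw [mem_inter, mem_nbr] at hx
  obtain ⟨hyx, hxs⟩ := hx
  have hyb : y ∉ Vp G d := by
    rw [mem_Vp, hy, h7]
    norm_num
  obtain ⟨h8, hZ⟩ := c.Z_seven h7 hxs hyx
  have hsum := c.n0_add_n1 y
  have hlam : lam G d y = 128 / 63 := by
    rw [lam, W, hyR, hdR]
    norm_num
  have hKle := c.K_le_n y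
  have hK1 := c.K_ge_seven h7 hxs hyx.symm hyb
  have hK2 : n0 G d y ≠ 0 → 2048 / 273 ≤ K G d y := by
    intro h0
    obtain ⟨u, hu, hud⟩ := c.exists_of_n0 h0
    exact c.K_ge_seven' h7 hud hu.symm hyb
  rw [hyR, hdR, ← hsum] at hKle
  rw [hlam, ← hsum] at hZ
  rw [← hsum] at h8 hsp
  have e1 : (2 + 1 / (7 : ℝ)) * (n0 G d y : ℝ) + n1 G d y +
      (9 - ((n0 G d y + n1 G d y : ℕ) : ℝ)) / (7 + 2) = 15 / 7 * (n0 G d y : ℝ) + n1 G d y +
      (9 - ((n0 G d y + n1 G d y : ℕ) : ℝ)) / 9 := by norm_num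
  rw [e1] at hKle
  exact sp_nine_num (n0 G d y) (n1 G d y) h8 (Nat.pos_of_ne_zero hsp) hZ (hK1.trans hKle)
    (fun h => (hK2 h).trans hKle)

end Ct

end Pool.Agent.H2.RG
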