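import Mathlib
import Pool.Agent.H2.RG.BigS2

/-!
# Rigidity for `gap(G_{≥d})`, `d = 7`: no big vertices   [H2 RG BigS3]

`W y = 64/deg y`, `lam y = 64/7 - 64/deg y`, `m = |cl x| ≥ 24` (`nx_ge_seven`, `card_cl`),
`cf = 41/7` in degree `7`, `8` in degree `8`.
-/

namespace Pool.Agent.H2.RG

open Finset Classical Pool.Agent.H17 Pool.Agent.H17.Exact

set_option linter.unusedSectionVars false

variable {V : Type} [Fintype V] {G : SimpleGraph V} {d : ℕ}

namespace Ct

variable (c : Ct G d)

include c

lemma sp_ten (h7 : d = 7) {y : V} (hy : 10 ≤ G.degree y) : sp G d y = 0 := by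
  by_contra hsp
  have hdR : (d : ℝ) = 7 := by rw [h7]; norm_num
  set A : ℝ := (G.degree y : ℝ) with hA
  have hA10 : (10 : ℝ) ≤ A := by rw [hA]; exact_mod_cast hy
  have hA0 : 0 < A := by linarith
  -- a small neighbour
  have hne : (G.neighborFinset y ∩ Vp G d).Nonempty := by
    rw [← Finset.card_pos]
    exact Nat.pos_of_ne_zero hsp
  obtain ⟨x, hx⟩ := hne
  rw [mem_inter, mem_nbr] at hx
  obtain ⟨hyx, hxs⟩ := hx
  have hyb : y ∉ Vp G d := by
    rw [mem_Vp, h7]
    omega
  obtain ⟨h8, hZ⟩ := c.Z_seven h7 hxs hyx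
  have hsum := c.n0_add_n1 y
  have hW : W G d y = 64 / A := by
    rw [W, hdR, ← hA]
    norm_num
  have hlam : lam G d y = 64 / 7 - 64 / A := by
    rw [lam, hW, hdR]
    norm_num
  have hinv : 64 / A ≤ 32 / 5 := by
    rw [div_le_iff₀ hA0]
    linarith
  have hKle := c.K_le_n y
  have hK1 := c.K_ge_seven h7 hxs hyx.symm hyb
  have hK2 : n0 G d y ≠ 0 → 2048 / 273 ≤ K G d y := by
    intro h0
    obtain ⟨u, hu, hud⟩ := c.exists_of_n0 h0
    exact c.K_ge_seven' h7 hud hu.symm hyb
  rw [← hA, hdR] at hKle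
  rw [hlam] at hZ
  have hn0 : (0 : ℝ) ≤ n0 G d y := Nat.cast_nonneg _
  have hn1 : (0 : ℝ) ≤ n1 G d y := Nat.cast_nonneg _
  have hsumR : (n0 G d y : ℝ) + n1 G d y = sp G d y := by exact_mod_cast hsum
  have hlam0 : 96 / 35 ≤ 64 / 7 - 64 / A := by linarith
  generalize hp : sp G d y = p at *
  generalize ha : n0 G d y = a at *
  generalize hb : n1 G d y = b at *
  generalize hl : 64 / 7 - 64 / A = l at *
  -- simplified (Z)
  have hcf : 41 / 7 * (a : ℝ) + 8 * b ≤ 8 * p := by linarith
  have hp8 : (p : ℝ) ≤ 8 := by exact_mod_cast h8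
  have hZ' : (24 - (p : ℝ)) * (l * (p : ℝ) ^ 2 - 8 * p) ≤ 8 * (p : ℝ) ^ 2 := by
    refine le_trans ?_ hZ
    apply mul_le_mul_of_nonneg_left _ (by linarith)
    linarith
  have hp1 : 1 ≤ p := Nat.pos_of_ne_zero hsp
  interval_cases p
  · -- p = 1
    have hA38 : (39 : ℝ) ≤ A := by
      have hb1 : (b : ℝ) = 1 - a := by push_cast at hsumR; linarith
      have ha1 : (a : ℝ) ≤ 1 := by push_cast at hsumR; linarith
      push_cast at hKle
      linarith
    have hex : (2 + 1 / (d : ℝ)) * sp G d y < K G d y := by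
      rw [hp, hdR]
      push_cast
      linarith
    obtain ⟨u, hu, hud⟩ := c.exists_nbr_two hex
    rw [h7] at hud
    have hsu := c.sp_nine h7 hud
    have h1 := c.K_le_of_big_adj hyb hu.symm
    have h2 := c.K_pos u
    rw [hsu, hud, hdR, hW] at h1
    have h3 : 64 / A ≤ 64 / 39 := div_le_div_of_nonneg_left (by norm_num) (by norm_num) hA38
    push_cast at h1
    linarith
  · -- p = 2
    have h1 : 64 / A = 64 / 7 - l := by linarith
    have h2 : A ≤ 14 := by
      by_contra hcon
      push Not at hcon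
      have h3 : 64 / A ≤ 64 / 14 := div_le_div_of_nonneg_left (by norm_num) (by norm_num) hcon.le
      push_cast at hZ'
      linarith
    have ha2 : (a : ℝ) ≤ 2 := by push_cast at hsumR; linarith
    push_cast at hKle hsumR
    linarith
  · -- p = 3
    have h2 : A ≤ 21 / 2 := by
      by_contra hcon
      push Not at hcon
      have h3 : 64 / A ≤ 64 / (21 / 2) := div_le_div_of_nonneg_left (by norm_num) (by norm_num) hcon.le
      have h4 : 64 / A < 64 / (21 / 2) := div_lt_div_of_pos_left (by norm_num) (by norm_num) hcon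
      push_cast at hZ'
      linarith
    have ha3 : (a : ℝ) ≤ 3 := by push_cast at hsumR; linarith
    push_cast at hKle hsumR
    by_cases h0 : a = 0
    · rw [h0] at hKle hsumR
      push_cast at hKle hsumR
      linarith
    · have := hK2 h0
      linarith
  · push_cast at hZ'
    linarith
  · push_cast at hZ'
    linarith
  · push_cast at hZ'
    linarith
  · push_cast at hZ'
    linarith
  · push_cast at hZ'
    linarith

theorem mem_Vp_seven (h7 : d = 7) (hconn : G.Connected) (y : V) : y ∈ Vp G d := by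
  have step : ∀ x y : V, x ∈ Vp G d → G.Adj x y → y ∈ Vp G d := by
    intro x y hx hxy
    by_contra hy
    have h1 := c.not_mem_Vp hy
    have h2 : sp G d y ≠ 0 := by
      rw [sp]
      apply Finset.card_ne_zero_of_mem (a := x)
      rw [mem_inter, mem_nbr]
      exact ⟨hxy.symm, hx⟩
    rcases Nat.lt_or_ge (G.degree y) 10 with h3 | h3
    · exact h2 (c.sp_nine h7 (by omega))
    · exact h2 (c.sp_ten h7 h3)
  have : Nonempty V := hconn.nonempty
  obtain ⟨x, hx⟩ := c.exists_small
  obtain ⟨w⟩ := hconn.preconnected x y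
  induction w with
  | nil => exact hx
  | cons h _ ih => exact ih (step _ _ hx h)

end Ct

end Pool.Agent.H2.RG
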