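import Mathlib
import Pool.Agent.H2.RG.Fin
import Pool.Agent.H17.ExactJ

/-!
# Rigidity for `gap(G_{≥d})`: final results
-/

namespace Pool.Agent.H2.RG

open Finset Classical Pool.Agent.H17 Pool.Agent.H17.Exact

set_option linter.unusedSectionVars false

/-- Planes over finite fields. -/
theorem planeExists_primePow (p k : ℕ) (hp : p.Prime) (hk : k ≠ 0) : PlaneExists (p ^ k) := by
  have : Fact p.Prime := ⟨hp⟩
  let K := GaloisField p k
  let _ : Fintype (Projectivization K (Fin 3 → K)) := Fintype.ofFinite _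
  let _ : DecidableEq K := Classical.decEq K
  refine ⟨Projectivization K (Fin 3 → K), Projectivization K (Fin 3 → K),
    inferInstance, inferInstance, inferInstance, inferInstance, ?_⟩
  have hK : Nat.card K = p ^ k := GaloisField.card p k hk
  have h1 : Fintype.card (Projectivization K (Fin 3 → K)) = (p ^ k) ^ 2 + p ^ k + 1 := by
    rw [← Nat.card_eq_fintype_card, Projectivization.card_of_finrank K (Fin 3 → K) (n := 3)]
    · simp only [hK, Finset.sum_range_succ]
      simp
      ring
    · simp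
  have h2 := Configuration.ProjectivePlane.card_points
    (Projectivization K (Fin 3 → K)) (Projectivization K (Fin 3 → K))
  rw [h1] at h2
  nlinarith

variable {V : Type} [Fintype V] {G : SimpleGraph V} {d : ℕ}

lemma cx_of_gap (hd : 7 ≤ d) (hG : InMinDegree d G) (hgap : √(d : ℝ) / (d + 1) ≤ gap G) :
    Cx G d := by
  refine ⟨hd, hG.2.2, fun f => ?_⟩
  have h1 := quad_of_le_gap (fun v => InMinDegree.pos G (by omega) hG v) (by positivity) hgap f
  rw [div_pow, Real.sq_sqrt (by positivity)] at h1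
  have hd' : (0 : ℝ) < (d + 1) ^ 2 := by positivity
  have h2 : Exact.Q G d f = (d + 1) ^ 2 *
      (∑ v, (1 / (G.degree v : ℝ)) * (∑ w ∈ G.neighborFinset v, f w) ^ 2 -
        d / (d + 1) ^ 2 * ∑ v, (G.degree v : ℝ) * f v ^ 2) := by
    have e1 : ∑ y, Exact.W G d y * (Exact.nb G f y) ^ 2 = (d + 1) ^ 2 *
        ∑ v, (1 / (G.degree v : ℝ)) * (∑ w ∈ G.neighborFinset v, f w) ^ 2 := by
      rw [mul_sum]
      refine sum_congr rfl fun y _ => ?_
      rw [Exact.W, Exact.nb]
      ring
    rw [Exact.Q, e1]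
    field_simp
  rw [h2]
  exact mul_nonneg hd'.le (by linarith)

/-- Rigidity of graphs with large gap. -/
theorem rigidity (hd : d = 7 ∨ 11 ≤ d) (hG : InMinDegree d G) :
    √(d : ℝ) / (d + 1) ≤ gap G ↔
      IsPlaneIncidenceGraph (d - 1) G ∨ IsPlaneIncidenceGraph d G := by
  constructor
  · intro h
    have c : Ct G d := (cx_of_gap (by omega) hG h).toCt (by omega)
    have hall : ∀ u, u ∈ Vp G d := by
      rcases hd with h7 | h11
      · exact c.mem_Vp_seven h7 hG.2.1
      · exact c.mem_Vp_all h11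
    obtain ⟨n, hn | hn, h2⟩ := c.structure_thm (by omega) hall hG.2.1
    · subst hn; exact Or.inl h2
    · subst hn; exact Or.inr h2
  · rintro (h | h)
    · rw [h.gap_eq]; exact sqrt_mono_planes (by omega)
    · rw [h.gap_eq]

/-- The orders `2, 3, 4, 5, 7, 8, 9` are orders of planes. -/
lemma large_of_no_plane (hd : 3 ≤ d) (hno : ¬ PlaneExists (d - 1)) : d = 7 ∨ 11 ≤ d := by
  by_contra hcon
  apply hno
  have h1 : d = 3 ∨ d = 4 ∨ d = 5 ∨ d = 6 ∨ d = 8 ∨ d = 9 ∨ d = 10 := by omega
  rcases h1 with rfl | rfl | rfl | rfl | rfl | rfl | rfl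
  · exact planeExists_primePow 2 1 (by norm_num) (by norm_num)
  · exact planeExists_primePow 3 1 (by norm_num) (by norm_num)
  · exact planeExists_primePow 2 2 (by norm_num) (by norm_num)
  · exact planeExists_primePow 5 1 (by norm_num) (by norm_num)
  · exact planeExists_primePow 7 1 (by norm_num) (by norm_num)
  · exact planeExists_primePow 2 3 (by norm_num) (by norm_num)
  · exact planeExists_primePow 3 2 (by norm_num) (by norm_num)

theorem gap_le_of_no_plane (hd : 3 ≤ d) (hno : ¬ PlaneExists (d - 1)) (hG : InMinDegree d G) :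
    gap G ≤ √(d : ℝ) / (d + 1) := by
  by_contra hcon
  push Not at hcon
  rcases (rigidity (large_of_no_plane hd hno) hG).1 hcon.le with h | h
  · exact hno h.planeExists
  · rw [h.gap_eq] at hcon
    exact lt_irrefl _ hcon

theorem gap_eq_iff_of_no_plane (hd : 3 ≤ d) (hno : ¬ PlaneExists (d - 1))
    (hG : InMinDegree d G) :
    gap G = √(d : ℝ) / (d + 1) ↔ IsPlaneIncidenceGraph d G := by
  constructor
  · intro h
    rcases (rigidity (large_of_no_plane hd hno) hG).1 h.ge with h | h
    · exact (hno h.planeExists).elim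
    · exact h
  · intro h
    exact h.gap_eq

theorem gapMinDegree_le (hd : 3 ≤ d) (hno : ¬ PlaneExists (d - 1)) :
    gapMinDegree d ≤ √(d : ℝ) / (d + 1) := by
  refine Real.sSup_le ?_ (by positivity)
  rintro g ⟨V, _, G, hG, rfl⟩
  exact gap_le_of_no_plane hd hno hG

theorem gapMinDegree_eq (hd : 3 ≤ d) (hno : ¬ PlaneExists (d - 1)) (hyes : PlaneExists d) :
    gapMinDegree d = √(d : ℝ) / (d + 1) :=
  le_antisymm (gapMinDegree_le hd hno) (le_gapMinDegree_of_plane hyes (by omega) (by omega))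

/-- The final statement. -/
theorem final :
    (∀ d : ℕ, d = 7 ∨ 11 ≤ d → ∀ (V : Type) [Fintype V] (G : SimpleGraph V), InMinDegree d G →
      (√(d : ℝ) / (d + 1) ≤ gap G ↔
        IsPlaneIncidenceGraph (d - 1) G ∨ IsPlaneIncidenceGraph d G)) ∧
    (∀ d : ℕ, 3 ≤ d → ¬ PlaneExists (d - 1) →
      gapMinDegree d ≤ √(d : ℝ) / (d + 1) ∧
      (PlaneExists d → gapMinDegree d = √(d : ℝ) / (d + 1)) ∧
      ∀ (V : Type) [Fintype V] (G : SimpleGraph V), InMinDegree d G →
        (gap G = √(d : ℝ) / (d + 1) ↔ IsPlaneIncidenceGraph d G)) ∧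
    gapMinDegree 7 = √7 / 8 ∧
    (¬ PlaneExists 10 → gapMinDegree 11 = √11 / 12) ∧
    {d : ℕ | 3 ≤ d ∧ ¬ PlaneExists (d - 1) ∧ PlaneExists d}.Infinite := by
  refine ⟨fun _ hd _ _ _ hG => rigidity hd hG,
    fun _ hd hno => ⟨gapMinDegree_le hd hno, gapMinDegree_eq hd hno,
      fun _ _ _ hG => gap_eq_iff_of_no_plane hd hno hG⟩, ?_, ?_, infinite_orders⟩
  · have := gapMinDegree_eq (d := 7) (by norm_num) not_plane_six
      (planeExists_prime 7 (by norm_num))
    rw [this]
    norm_num
  · intro h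
    have := gapMinDegree_eq (d := 11) (by norm_num) h (planeExists_prime 11 (by norm_num))
    rw [this]
    norm_num

end Pool.Agent.H2.RG
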